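import Mathlib

/-!
# Cuts of a weighted complete graph

`m x y` is the weight of the pair `(x, y)`; the weight of a cut `C` is the total weight of the pairs
leaving `C`. All pairs have positive weight, hence the weight is strictly submodular on crossing cuts and
minimal cuts are nested.
-/

set_option autoImplicit false

namespace Pool.Agent.K3h36.LR

open scoped ENNReal
open Set

section cost

variable {V : Type} (m : V → V → ℝ≥0∞)

/-- the weight of a set of pairs -/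
noncomputable def ES (S : Set (V × V)) : ℝ≥0∞ := ∑' p : V × V, S.indicator (fun p => m p.1 p.2) p

/-- the weight of the pairs from `A` to `B` -/
noncomputable def ee (A B : Set V) : ℝ≥0∞ := ES m (A ×ˢ B)

/-- the weight of a cut -/
noncomputable def ww (C : Set V) : ℝ≥0∞ := ee m C Cᶜ

variable {m}

theorem ES_mono {S T : Set (V × V)} (h : S ⊆ T) : ES m S ≤ ES m T :=
  ENNReal.tsum_le_tsum fun _ => Set.indicator_le_indicator_of_subset h (fun _ => zero_le) _

theorem ES_union {S T : Set (V × V)} (h : Disjoint S T) : ES m (S ∪ T) = ES m S + ES m T := by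
  unfold ES
  rw [← ENNReal.tsum_add]
  refine tsum_congr fun p => ?_
  rw [Set.indicator_union_of_disjoint h]

theorem ES_le {S : Set (V × V)} {p : V × V} (h : p ∈ S) : m p.1 p.2 ≤ ES m S := by
  have h1 := ENNReal.le_tsum (f := fun p : V × V => S.indicator (fun p => m p.1 p.2) p) p
  rwa [Set.indicator_of_mem h] at h1

theorem ES_low {ι : Type} (l : Filter ι) {S : Set (V × V)} {T : ι → Set (V × V)}
    (h : ∀ p ∈ S, ∀ᶠ k in l, p ∈ T k) {c : ℝ≥0∞} (hc : c < ES m S) : ∀ᶠ k in l, c < ES m (T k) := by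
  unfold ES at hc
  rw [ENNReal.tsum_eq_iSup_sum] at hc
  obtain ⟨s, hs⟩ := lt_iSup_iff.1 hc
  have h1 : ∀ᶠ k in l, ∀ p ∈ s, p ∈ S → p ∈ T k := by
    rw [Filter.eventually_all_finset]
    intro p _
    by_cases hp : p ∈ S
    · filter_upwards [h p hp] with k hk _ using hk
    · exact Filter.Eventually.of_forall fun k hk => absurd hk hp
  filter_upwards [h1] with k hk
  refine hs.trans_le ((Finset.sum_le_sum fun p hp => ?_).trans
    (ENNReal.sum_le_tsum (f := fun p : V × V => (T k).indicator (fun p => m p.1 p.2) p) s))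
  by_cases hpS : p ∈ S
  · rw [Set.indicator_of_mem hpS, Set.indicator_of_mem (hk p hp hpS)]
  · rw [Set.indicator_of_notMem hpS]
    exact zero_le

theorem ES_swap (hs : ∀ x y, m x y = m y x) (S : Set (V × V)) : ES m (Prod.swap ⁻¹' S) = ES m S := by
  unfold ES
  rw [← (Equiv.prodComm V V).tsum_eq]
  refine tsum_congr fun p => ?_
  obtain ⟨x, y⟩ := p
  by_cases h : (x, y) ∈ S
  · rw [Set.indicator_of_mem h, Set.indicator_of_mem (show (Equiv.prodComm V V) (x, y) ∈ _ from h)]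
    exact hs _ _
  · rw [Set.indicator_of_notMem h,
      Set.indicator_of_notMem (show (Equiv.prodComm V V) (x, y) ∉ _ from h)]

theorem ee_symm (hs : ∀ x y, m x y = m y x) (A B : Set V) : ee m A B = ee m B A := by
  unfold ee
  rw [← ES_swap hs (B ×ˢ A), Set.preimage_swap_prod]

theorem ee_union_left {A A' B : Set V} (h : Disjoint A A') :
    ee m (A ∪ A') B = ee m A B + ee m A' B := by
  unfold ee
  rw [Set.union_prod, ES_union]
  rw [Set.disjoint_prod]
  exact Or.inl h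

theorem ee_union_right {A B B' : Set V} (h : Disjoint B B') :
    ee m A (B ∪ B') = ee m A B + ee m A B' := by
  unfold ee
  rw [Set.prod_union, ES_union]
  rw [Set.disjoint_prod]
  exact Or.inr h

theorem ee_mono {A A' B B' : Set V} (h : A ⊆ A') (h' : B ⊆ B') : ee m A B ≤ ee m A' B' :=
  ES_mono (Set.prod_mono h h')

theorem le_ee {A B : Set V} {x y : V} (hx : x ∈ A) (hy : y ∈ B) : m x y ≤ ee m A B :=
  ES_le (p := (x, y)) ⟨hx, hy⟩

theorem le_ww {C : Set V} {x y : V} (hx : x ∈ C) (hy : y ∉ C) : m x y ≤ ww m C := le_ee hx hy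

theorem ww_compl (hs : ∀ x y, m x y = m y x) (C : Set V) : ww m Cᶜ = ww m C := by
  unfold ww
  rw [compl_compl, ee_symm hs]

/-- the four corners of two cuts -/
theorem ww_corner (hs : ∀ x y, m x y = m y x) (C D : Set V) :
    ww m (C ∩ D) + ww m (C ∪ D) + 2 * ee m (C \ D) (D \ C) = ww m C + ww m D := by
  set a := C ∩ D with ha
  set b := C \ D with hb
  set c := D \ C with hc
  set d := (C ∪ D)ᶜ with hd
  have eC : C = a ∪ b := by
    ext x; simp only [ha, hb, mem_union, mem_inter_iff, Set.mem_sdiff]; tauto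
  have eC' : Cᶜ = c ∪ d := by
    ext x; simp only [hc, hd, mem_union, mem_compl_iff, Set.mem_sdiff]; tauto
  have eD : D = a ∪ c := by
    ext x; simp only [ha, hc, mem_union, mem_inter_iff, Set.mem_sdiff]; tauto
  have eD' : Dᶜ = b ∪ d := by
    ext x; simp only [hb, hd, mem_union, mem_compl_iff, Set.mem_sdiff]; tauto
  have ea' : aᶜ = b ∪ (c ∪ d) := by
    ext x; simp only [ha, hb, hc, hd, mem_union, mem_compl_iff, Set.mem_sdiff, mem_inter_iff]; tauto
  have eU : C ∪ D = a ∪ (b ∪ c) := by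
    ext x; simp only [ha, hb, hc, mem_union, Set.mem_sdiff, mem_inter_iff]; tauto
  have dab : Disjoint a b := by
    rw [Set.disjoint_left]; intro x; simp only [ha, hb, Set.mem_sdiff, mem_inter_iff]; tauto
  have dac : Disjoint a c := by
    rw [Set.disjoint_left]; intro x; simp only [ha, hc, Set.mem_sdiff, mem_inter_iff]; tauto
  have dbc : Disjoint b c := by
    rw [Set.disjoint_left]; intro x; simp only [hb, hc, Set.mem_sdiff]; tauto
  have dbd : Disjoint b d := by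
    rw [Set.disjoint_left]; intro x; simp only [hb, hd, Set.mem_sdiff, mem_compl_iff, mem_union]; tauto
  have dcd : Disjoint c d := by
    rw [Set.disjoint_left]; intro x; simp only [hc, hd, Set.mem_sdiff, mem_compl_iff, mem_union]; tauto
  have dabc : Disjoint a (b ∪ c) := Set.disjoint_union_right.2 ⟨dab, dac⟩
  have dbcd : Disjoint b (c ∪ d) := Set.disjoint_union_right.2 ⟨dbc, dbd⟩
  have w1 : ww m a = ee m a b + (ee m a c + ee m a d) := by
    unfold ww
    rw [ea', ee_union_right dbcd, ee_union_right dcd]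
  have w2 : ww m (C ∪ D) = ee m a d + (ee m b d + ee m c d) := by
    unfold ww
    rw [← hd, eU, ee_union_left dabc, ee_union_left dbc]
  have w3 : ww m C = (ee m a c + ee m b c) + (ee m a d + ee m b d) := by
    unfold ww
    rw [eC', ee_union_right dcd]
    conv_lhs => rw [eC, ee_union_left dab, ee_union_left dab]
  have w4 : ww m D = (ee m a b + ee m b c) + (ee m a d + ee m c d) := by
    unfold ww
    rw [eD', ee_union_right dbd]
    conv_lhs => rw [eD, ee_union_left dac, ee_union_left dac]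
    rw [ee_symm hs c b]
  rw [w1, w2, w3, w4]
  ring

theorem ww_corner' (hs : ∀ x y, m x y = m y x) (C D : Set V) :
    ww m (C \ D) + ww m (D \ C) + 2 * ee m (C ∩ D) (C ∪ D)ᶜ = ww m C + ww m D := by
  have h := ww_corner hs C Dᶜ
  have e1 : C ∩ Dᶜ = C \ D := rfl
  have e2 : C ∪ Dᶜ = (D \ C)ᶜ := by
    ext x; simp only [mem_union, mem_compl_iff, Set.mem_sdiff]; tauto
  have e3 : C \ Dᶜ = C ∩ D := by
    ext x; simp only [mem_inter_iff, mem_compl_iff, Set.mem_sdiff]; tauto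
  have e4 : Dᶜ \ C = (C ∪ D)ᶜ := by
    ext x; simp only [mem_union, mem_compl_iff, Set.mem_sdiff]; tauto
  rw [e1, e2, e3, e4, ww_compl hs, ww_compl hs] at h
  exact h

theorem ww_inter_le (hs : ∀ x y, m x y = m y x) (C D : Set V) : ww m (C ∩ D) ≤ ww m C + ww m D := by
  rw [← ww_corner hs C D, add_assoc]
  exact le_self_add

theorem ww_diff_le (hs : ∀ x y, m x y = m y x) (C D : Set V) : ww m (C \ D) ≤ ww m C + ww m D := by
  rw [← ww_corner' hs C D, add_assoc]
  exact le_self_add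

end cost

/-! ### optimal cuts are nested -/

section opt

variable {V : Type} (m : V → V → ℝ≥0∞)

/-- `C` separates `p` from `q`, and among these cuts its weight is minimal -/
structure Opt (p q : Ultrafilter V) (C : Set V) : Prop where
  mem : C ∈ p
  not_mem : C ∉ q
  fin : ww m C ≠ ∞
  le : ∀ D : Set V, D ∈ p → D ∉ q → ww m C ≤ ww m D

/-- nested sets -/
def Nested (C D : Set V) : Prop := C ⊆ D ∨ D ⊆ C ∨ C ∩ D = ∅ ∨ C ∪ D = univ

variable {m}

theorem Opt.compl (hs : ∀ x y, m x y = m y x) {p q : Ultrafilter V} {C : Set V} (h : Opt m p q C) :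
    Opt m q p Cᶜ := by
  refine ⟨Ultrafilter.compl_mem_iff_notMem.2 h.not_mem, fun h1 =>
    Ultrafilter.compl_mem_iff_notMem.1 h1 h.mem, ?_, ?_⟩
  · rw [ww_compl hs]
    exact h.fin
  · intro D h1 h2
    rw [ww_compl hs, ← ww_compl hs D]
    exact h.le Dᶜ (Ultrafilter.compl_mem_iff_notMem.2 h2) (fun h3 =>
      Ultrafilter.compl_mem_iff_notMem.1 h3 h1)

/-- a cut separating the two points in either direction -/
theorem Opt.le' (hs : ∀ x y, m x y = m y x) {p q : Ultrafilter V} {C : Set V} (h : Opt m p q C)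
    {D : Set V} (h1 : (D ∈ p ∧ D ∉ q) ∨ (D ∉ p ∧ D ∈ q)) : ww m C ≤ ww m D := by
  rcases h1 with ⟨h1, h2⟩ | ⟨h1, h2⟩
  · exact h.le D h1 h2
  · have := (h.compl hs).le D h2 h1
    rwa [ww_compl hs] at this

theorem core {c d wa wb wc wd : ℝ≥0∞} (fC : c ≠ ∞) (fD : d ≠ ∞) (h1 : wa + wd < c + d)
    (h2 : wb + wc < c + d) (Dp Dq Cs Ct : Prop) (aC : Dp → c ≤ wa) (aD : Cs → d ≤ wa)
    (bC : ¬ Dp → c ≤ wb) (bD : Ct → d ≤ wb) (cC : Dq → c ≤ wc) (cD : ¬ Cs → d ≤ wc)
    (uC : ¬ Dq → c ≤ wd) (uD : ¬ Ct → d ≤ wd) : False := by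
  have key1 : ∀ {x y : ℝ≥0∞}, c ≤ x → d ≤ y → ¬ (x + y < c + d) :=
    fun h h' h'' => absurd (add_le_add h h') (not_le.2 h'')
  have key2 : ∀ {x y : ℝ≥0∞}, d ≤ x → c ≤ y → ¬ (x + y < c + d) := by
    intro x y h h' h''
    rw [add_comm x y] at h''
    exact key1 h' h h''
  have kill : ∀ {x y x' y' : ℝ≥0∞}, c ≤ x → c ≤ y → x + y < c + d →
      d ≤ x' → d ≤ y' → x' + y' < c + d → False := by
    intro x y x' y' a1 a2 a3 b1 b2 b3
    have c1 : c + c < c + d := (add_le_add a1 a2).trans_lt a3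
    have c2 : d + d < c + d := (add_le_add b1 b2).trans_lt b3
    have c3 : c < d := (ENNReal.add_lt_add_iff_left fC).1 c1
    have c4 : d < c := (ENNReal.add_lt_add_iff_right fD).1 c2
    exact absurd (c3.trans c4) (lt_irrefl _)
  by_cases p1 : Dp
  · by_cases p4 : Ct
    · by_cases p2 : Dq
      · exact key2 (bD p4) (cC p2) h2
      · by_cases p3 : Cs
        · exact key2 (aD p3) (uC p2) h1
        · exact kill (aC p1) (uC p2) h1 (bD p4) (cD p3) h2
    · exact key1 (aC p1) (uD p4) h1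
  · by_cases p3 : Cs
    · by_cases p2 : Dq
      · by_cases p4 : Ct
        · exact key2 (bD p4) (cC p2) h2
        · exact kill (bC p1) (cC p2) h2 (aD p3) (uD p4) h1
      · exact key2 (aD p3) (uC p2) h1
    · exact key1 (bC p1) (cD p3) h2

theorem nested_of_opt (hs : ∀ x y, m x y = m y x) (hpos : ∀ x y, x ≠ y → 0 < m x y)
    {p q s t : Ultrafilter V} {C D : Set V} (hC : Opt m p q C) (hD : Opt m s t D) : Nested C D := by
  by_contra hn
  unfold Nested at hn
  push Not at hn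
  obtain ⟨n1, n2, n3, n4⟩ := hn
  obtain ⟨xb, hb1, hb2⟩ := Set.not_subset.1 n1
  obtain ⟨xc, hc1, hc2⟩ := Set.not_subset.1 n2
  obtain ⟨xa, ha1, ha2⟩ := n3
  obtain ⟨xd, hd⟩ := (Set.ne_univ_iff_exists_notMem _).1 n4
  have fC := hC.fin
  have fD := hD.fin
  have fin : ww m C + ww m D ≠ ∞ := ENNReal.add_ne_top.2 ⟨fC, fD⟩
  have hbc : 0 < ee m (C \ D) (D \ C) :=
    (hpos xb xc (fun e => hc2 (e ▸ hb1))).trans_le (le_ee ⟨hb1, hb2⟩ ⟨hc1, hc2⟩)
  have had : 0 < ee m (C ∩ D) (C ∪ D)ᶜ :=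
    (hpos xa xd (fun e => hd (e ▸ Or.inl ha1))).trans_le (le_ee ⟨ha1, ha2⟩ hd)
  have h1 : ww m (C ∩ D) + ww m (C ∪ D) < ww m C + ww m D := by
    have e := ww_corner hs C D
    rw [← e] at fin ⊢
    exact ENNReal.lt_add_right (ENNReal.add_ne_top.1 fin).1 (by
      simpa using hbc.ne')
  have h2 : ww m (C \ D) + ww m (D \ C) < ww m C + ww m D := by
    have e := ww_corner' hs C D
    rw [← e] at fin ⊢
    exact ENNReal.lt_add_right (ENNReal.add_ne_top.1 fin).1 (by
      simpa using had.ne')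
  have lC : ∀ {E : Set V}, ((E ∈ p ∧ E ∉ q) ∨ (E ∉ p ∧ E ∈ q)) → ww m C ≤ ww m E :=
    fun h => hC.le' hs h
  have lD : ∀ {E : Set V}, ((E ∈ s ∧ E ∉ t) ∨ (E ∉ s ∧ E ∈ t)) → ww m D ≤ ww m E :=
    fun h => hD.le' hs h
  have Cp := hC.mem
  have Cq := hC.not_mem
  have Ds := hD.mem
  have Dt := hD.not_mem
  have I : ∀ (r : Ultrafilter V) (E F : Set V), E ∩ F ∈ r ↔ E ∈ r ∧ F ∈ r := fun r E F =>
    Filter.inter_mem_iff
  have U : ∀ (r : Ultrafilter V) (E F : Set V), E ∪ F ∈ r ↔ E ∈ r ∨ F ∈ r := fun r E F =>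
    Ultrafilter.union_mem_iff
  have Df : ∀ (r : Ultrafilter V) (E F : Set V), E \ F ∈ r ↔ E ∈ r ∧ F ∉ r := fun r E F => by
    have e : E \ F = E ∩ Fᶜ := rfl
    rw [e, I, Ultrafilter.compl_mem_iff_notMem]
  refine core fC fD h1 h2 (D ∈ p) (D ∈ q) (C ∈ s) (C ∈ t) ?_ ?_ ?_ ?_ ?_ ?_ ?_ ?_
  · exact fun h => lC (Or.inl ⟨(I _ _ _).2 ⟨Cp, h⟩, fun h' => Cq ((I _ _ _).1 h').1⟩)
  · exact fun h => lD (Or.inl ⟨(I _ _ _).2 ⟨h, Ds⟩, fun h' => Dt ((I _ _ _).1 h').2⟩)
  · exact fun h => lC (Or.inl ⟨(Df _ _ _).2 ⟨Cp, h⟩, fun h' => Cq ((Df _ _ _).1 h').1⟩)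
  · exact fun h => lD (Or.inr ⟨fun h' => ((Df _ _ _).1 h').2 Ds, (Df _ _ _).2 ⟨h, Dt⟩⟩)
  · exact fun h => lC (Or.inr ⟨fun h' => ((Df _ _ _).1 h').2 Cp, (Df _ _ _).2 ⟨h, Cq⟩⟩)
  · exact fun h => lD (Or.inl ⟨(Df _ _ _).2 ⟨Ds, h⟩, fun h' => Dt ((Df _ _ _).1 h').1⟩)
  · exact fun h => lC (Or.inl ⟨(U _ _ _).2 (Or.inl Cp), fun h' => ((U _ _ _).1 h').elim Cq h⟩)
  · exact fun h => lD (Or.inl ⟨(U _ _ _).2 (Or.inr Ds), fun h' => ((U _ _ _).1 h').elim h Dt⟩)

end opt

end Pool.Agent.K3h36.LR
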