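import Pool.Agent.K3h36.LR.A9

/-!
# The tree of a pair of countable groups
-/

set_option autoImplicit false
set_option linter.unusedSectionVars false
set_option linter.style.haveILetI false

namespace Pool.Agent.K3h36.LR

open scoped ENNReal Pointwise
open Set
open Pool.Agent.TH97.VR (HSys Vt IsVert DD ZG pt DD_zero DD_symm DD_tri diff_finite diff_compl
  mem_of_not not_of_mem btw_iff ZG_median ZG_dist mem_pt compl_ne)
open Pool.Agent.H97R3.VR (IsMedian Btw Square IsConvex Par Step IsSpecialAction Dat)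

section rel

variable {G : Type} [Group G] {K : Subgroup G}

/-- a nested discrete family separating all pairs of cosets -/
theorem rel_family [Countable G] (N : G → ℕ)
    (hsep : ∀ x y : G ⧸ K, x ≠ y → ∃ C : Set (G ⧸ K), Good N C ∧ x ∈ C ∧ y ∉ C) :
    ∃ 𝓔 : Set (Set (G ⧸ K)), Fam (G := G) 𝓔 ∧ ∀ x y, x ≠ y → ∃ E ∈ 𝓔, x ∈ E ∧ y ∉ E := by
  obtain ⟨t, ht⟩ := exists_surjective_nat G
  have hgen : Subgroup.closure ((K : Set G) ∪ Set.range t) = ⊤ := by
    rw [ht.range_eq, Set.union_univ, Subgroup.closure_univ]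
  set m := mw (K := K) N t with hm
  have hs : ∀ x y, m x y = m y x := mw_symm N t
  have hinv : ∀ (g : G) (x y : G ⧸ K), m (g • x) (g • y) = m x y := mw_inv N t
  have hpos : ∀ x y, x ≠ y → 0 < m x y := by
    intro x y _
    obtain ⟨a, rfl⟩ := QuotientGroup.mk_surjective x
    obtain ⟨b, rfl⟩ := QuotientGroup.mk_surjective y
    obtain ⟨j, hj⟩ := ht (a⁻¹ * b)
    refine (wj_pos N t j).trans_le (wj_le_mw N t ⟨a, rfl, ?_⟩)
    rw [hj, mul_inv_cancel_left]
  have hconn := mw_conn (K := K) N t hgen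
  have hst : ∀ x y : G ⧸ K, x ≠ y → {g : G | g • x = x ∧ g • y = y}.Finite := by
    intro x y hxy
    obtain ⟨C, hC, hx, hy⟩ := hsep x y hxy
    exact stab_fin hC.fin hx hy
  have hex : ∀ j : {p : (G ⧸ K) × (G ⧸ K) // p.1 ≠ p.2},
      ∃ D, Opt m (pure j.1.1) (pure j.1.2) D ∧ ww m D ≤ 1 := by
    intro j
    obtain ⟨C, hC, hx, hy⟩ := hsep _ _ j.2
    have h1 : ww m C ≤ 1 := good_ww N t hC
    obtain ⟨D, hD1, hD2⟩ := exists_opt_pts hs hx hy (ne_top_of_le_ne_top ENNReal.one_ne_top h1)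
    exact ⟨D, hD1, hD2.trans h1⟩
  choose D hD1 hD2 using hex
  obtain ⟨inst1, inst2⟩ := exists_wellOrder {p : (G ⧸ K) × (G ⧸ K) // p.1 ≠ p.2}
  obtain ⟨𝓔, h1, h2, h3, h4, h5, h6, h7, h8⟩ := select
    (ι := {p : (G ⧸ K) × (G ⧸ K) // p.1 ≠ p.2}) hs hconn hinv D
    (fun j => pure j.1.1) (fun j => pure j.1.2)
    (fun j x y => fin_cross hinv hpos hst (hD1 j).fin x y)
    (fun i j g h => nested_of_opt hs hpos ((hD1 i).smul hinv g) ((hD1 j).smul hinv h))
    hD1 ENNReal.one_ne_top hD2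
  refine ⟨𝓔, ⟨h1, h2, h3, h4, h7, h8⟩, fun x y hxy => ?_⟩
  obtain ⟨E, hE, hE1, hE2⟩ := h5 ⟨(x, y), hxy⟩
  exact ⟨E, hE, hE1, hE2⟩

/-- the tree of the pair -/
theorem rel_tree [Countable G] (N : G → ℕ)
    (hsep : ∀ x y : G ⧸ K, x ≠ y → ∃ C : Set (G ⧸ K), Good N C ∧ x ∈ C ∧ y ∉ C) :
    ∃ (W : Type) (_ : MulAction G W) (X : SimpleGraph W) (x0 : W),
      IsMedian X ∧ (∀ x y w z, ¬ Square X x y w z) ∧
      (∀ (g : G) (x y : W), X.Adj x y → X.Adj (g • x) (g • y)) ∧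
      (∀ g : G, g • x0 = x0 ↔ g ∈ K) ∧
      (∀ x y, X.Adj x y → {g : G | g • x = x ∧ g • y = y}.Finite) ∧
      ∀ A : Subgroup G, Finite A → ∃ v : W, ∀ a ∈ A, a • v = v := by
  obtain ⟨𝓔, hF, hs⟩ := rel_family N hsep
  letI := actP hF
  have S := HH_sys hF
  have hinv := HH_inv hF
  have hnest := HH_nest hF
  set v0 : G ⧸ K := ((1 : G) : G ⧸ K) with hv0
  set o : (G ⧸ K) ⊕ 𝓔 := Sum.inl v0 with ho
  letI := actV (o := o) S hinv
  have hsq := fun x y w z => nosq S hnest (o := o) x y w z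
  have hτ : ∀ x y : Vt (HH 𝓔) o, (ZG S o).Adj x y → (mid x ↔ ¬ mid y) := fun x y h =>
    mid_adj hF x y h
  have hτA : ∀ (g : G) (x : Vt (HH 𝓔) o), mid (g • x) ↔ mid x := fun g x => mid_smul hF g x
  refine ⟨Vt (HH 𝓔) o, inferInstance, ZG S o, pt S o o, ZG_median S o, hsq,
    fun g x y h => adj_smulV S hinv g x y h, ?_, ?_, ?_⟩
  · intro g
    rw [smul_ptV S hinv]
    have e1 : g • o = (Sum.inl (g • v0) : (G ⧸ K) ⊕ 𝓔) := rfl
    have e2 : g • v0 = v0 ↔ g ∈ K := by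
      have : g • v0 = ((g * 1 : G) : G ⧸ K) := rfl
      rw [this, hv0, mul_one, QuotientGroup.eq, mul_one]
      exact inv_mem_iff
    rw [e1, ← e2]
    constructor
    · intro h
      by_contra hne
      obtain ⟨E, hE, h1, h2⟩ := hs _ _ hne
      have h3 : Sh 𝓔 E ∈ (pt S o (Sum.inl (g • v0) : (G ⧸ K) ⊕ 𝓔)).1 :=
        ⟨⟨E, hE, Or.inl rfl⟩, h1⟩
      rw [h] at h3
      exact h2 h3.2
    · intro h
      rw [h]
  · intro x y h
    obtain ⟨k, hk, h1, -⟩ := adj_lab' S h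
    obtain ⟨E, hE, hkE⟩ := hk
    obtain ⟨a, ha⟩ := hF.ne E hE
    obtain ⟨b, hb⟩ := hF.ne _ (hF.compl E hE)
    refine (hF.cross E hE a b).subset ?_
    rintro g ⟨hg1, hg2⟩
    have h3 : g • k = k := by
      have h4 : k ∈ y.1 \ x.1 := by rw [h1]; rfl
      have h5 : g • k ∈ y.1 \ x.1 := by
        constructor
        · rw [← hg2, mem_smulV S hinv, inv_smul_smul]
          exact h4.1
        · rw [← hg1, mem_smulV S hinv, inv_smul_smul]
          exact h4.2
      rw [h1] at h5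
      exact h5
    have h6 : g • Sh 𝓔 E = Sh 𝓔 E := by
      rcases hkE with h7 | h7
      · rw [← h7, h3]
      · have h8 : Sh 𝓔 E = kᶜ := by rw [h7, compl_compl]
        rw [h8, Set.smul_set_compl, h3]
    rw [Sh_smul hF] at h6
    have h7 : g • E = E := by
      ext z
      have h8 : (Sum.inl z : (G ⧸ K) ⊕ 𝓔) ∈ Sh 𝓔 (g • E) ↔ (Sum.inl z : (G ⧸ K) ⊕ 𝓔) ∈ Sh 𝓔 E := by
        rw [h6]
      exact h8
    show a ∈ g • E ∧ b ∉ g • E
    rw [h7]
    exact ⟨ha, hb⟩
  · intro A hA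
    obtain ⟨v, hv⟩ := fixed_vertex (A := A) (ZG_median S o) hsq
      (fun a x y h => adj_smulV S hinv (a : G) x y h) mid hτ (fun a x => hτA (a : G) x)
    exact ⟨v, fun a ha => hv ⟨a, ha⟩⟩

end rel

/-! ### extension of homomorphisms over a tree -/

section glue

variable {G W P : Type} [Group G] [MulAction G W] [Group P] {X : SimpleGraph W}

theorem glue (hX : IsMedian X) (hsq : ∀ x y w z, ¬ Square X x y w z)
    (hG : ∀ (g : G) (x y : W), X.Adj x y → X.Adj (g • x) (g • y)) (x0 : W)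
    (hfin : ∀ x y, X.Adj x y → {g : G | g • x = x ∧ g • y = y}.Finite)
    (hfix : ∀ A : Subgroup G, Finite A → ∃ v : W, ∀ a ∈ A, a • v = v)
    (K : Subgroup G) (hK : ∀ g : G, g • x0 = x0 ↔ g ∈ K) (θ : G →* P) (Θ' : G → P)
    (hmul : ∀ a ∈ K, ∀ b ∈ K, Θ' (a * b) = Θ' a * Θ' b)
    (hE : ∀ A : Subgroup G, Finite A → A ≤ K → ∃ φ : P, ∀ a ∈ A, φ * Θ' a * φ⁻¹ = θ a) :
    ∃ Θ : G →* P, (∀ k ∈ K, Θ k = Θ' k) ∧
      ∀ A : Subgroup G, Finite A → ∃ φ : P, ∀ a ∈ A, φ * Θ a * φ⁻¹ = θ a := by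
  classical
  have hr : ∃ r : W → G, r x0 = 1 ∧ ∀ u, (∃ g : G, g • x0 = u) → r u • x0 = u := by
    refine ⟨fun u => if u = x0 then 1 else if h : ∃ g : G, g • x0 = u then h.choose else 1,
      if_pos rfl, ?_⟩
    intro u hu
    by_cases h : u = x0
    · simp only [h, if_true]
      exact one_smul _ _
    · simp only [h, if_false, dif_pos hu]
      exact hu.choose_spec
  obtain ⟨r, hr0, hr⟩ := hr
  set orb : W → Prop := fun u => ∃ g : G, g • x0 = u with horb
  have horbg : ∀ (g : G) (u : W), orb (g • u) ↔ orb u := by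
    intro g u
    constructor
    · rintro ⟨h, hh⟩
      exact ⟨g⁻¹ * h, by rw [mul_smul, hh, inv_smul_smul]⟩
    · rintro ⟨h, hh⟩
      exact ⟨g * h, by rw [mul_smul, hh]⟩
  set α : G → W → P := fun g u => if orb u then Θ' ((r (g • u))⁻¹ * g * r u) else θ g with hα
  have hkK : ∀ (g : G) (u : W), orb u → (r (g • u))⁻¹ * g * r u ∈ K := by
    intro g u hu
    rw [← hK, mul_smul, mul_smul, hr u hu, inv_smul_eq_iff, hr _ ((horbg g u).2 hu)]
  have hcoc : ∀ (g h : G) (u : W), α (g * h) u = α g (h • u) * α h u := by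
    intro g h u
    by_cases hu : orb u
    · have hu' : orb (h • u) := (horbg h u).2 hu
      simp only [hα, if_pos hu, if_pos hu']
      rw [← hmul _ (hkK g (h • u) hu') _ (hkK h u hu)]
      congr 1
      rw [mul_smul]
      group
    · have hu' : ¬ orb (h • u) := fun h' => hu ((horbg h u).1 h')
      simp only [hα, if_neg hu, if_neg hu', map_mul]
  have hα0 : ∀ k ∈ K, α k x0 = Θ' k := by
    intro k hk
    have h0 : orb x0 := ⟨1, one_smul _ _⟩
    simp only [hα, if_pos h0]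
    rw [(hK k).2 hk, hr0, inv_one, one_mul, mul_one]
  -- local trivialisation
  have loc : ∀ A : Subgroup G, Finite A → ∀ u : W, (∀ a ∈ A, a • u = u) →
      ∃ δ : P, ∀ a ∈ A, θ a * δ = δ * α a u := by
    intro A hA u hu
    by_cases ho : orb u
    · set ρ := r u with hρ
      have hρx : ρ • x0 = u := hr u ho
      set A' : Subgroup G := A.map (MulAut.conj ρ⁻¹).toMonoidHom with hA'
      have hA'm : ∀ a ∈ A, ρ⁻¹ * a * ρ ∈ A' := by
        intro a ha
        refine ⟨a, ha, ?_⟩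
        simp
      have hA'f : Finite A' := by
        have h1 : ((A : Set G).image (MulAut.conj ρ⁻¹).toMonoidHom).Finite :=
          (Set.toFinite (A : Set G)).image _
        exact h1
      have hA'K : A' ≤ K := by
        rintro _ ⟨a, ha, rfl⟩
        have e : (MulAut.conj ρ⁻¹).toMonoidHom a = ρ⁻¹ * a * ρ := by simp
        rw [e, ← hK, mul_smul, mul_smul, hρx, hu a ha, ← hρx, inv_smul_smul]
      obtain ⟨ψ, hψ⟩ := hE A' hA'f hA'K
      refine ⟨θ ρ * ψ, fun a ha => ?_⟩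
      have e1 : α a u = Θ' (ρ⁻¹ * a * ρ) := by
        simp only [hα, if_pos ho]
        rw [hu a ha]
      have e2 := hψ _ (hA'm a ha)
      rw [e1]
      have e3 : θ (ρ⁻¹ * a * ρ) * ψ = ψ * Θ' (ρ⁻¹ * a * ρ) := by
        rw [← e2]; group
      rw [map_mul, map_mul, map_inv] at e3
      calc θ a * (θ ρ * ψ) = θ ρ * ((θ ρ)⁻¹ * θ a * θ ρ * ψ) := by group
        _ = θ ρ * (ψ * Θ' (ρ⁻¹ * a * ρ)) := by rw [e3]
        _ = θ ρ * ψ * Θ' (ρ⁻¹ * a * ρ) := (mul_assoc _ _ _).symm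
    · refine ⟨1, fun a _ => ?_⟩
      simp only [hα, if_neg ho, mul_one, one_mul]
  -- half edges
  have hd : ∃ d : W × W → P, ∀ (e : W × W), X.Adj e.1 e.2 → ∀ g : G,
      d (g • e) = θ g * d e * (α g e.1)⁻¹ := by
    have h0 : ∀ e : W × W, ∃ δ : P, X.Adj e.1 e.2 → ∀ g : G, g • e = e → θ g * δ = δ * α g e.1 := by
      intro e
      by_cases he : X.Adj e.1 e.2
      · have hAf : Finite (MulAction.stabilizer G e) := by
          have h1 := hfin _ _ he
          refine (h1.subset ?_ : ((MulAction.stabilizer G e : Subgroup G) : Set G).Finite)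
          intro g hg
          have h2 : g • e = e := hg
          exact ⟨congrArg Prod.fst h2, congrArg Prod.snd h2⟩
        obtain ⟨δ, hδ⟩ := loc (MulAction.stabilizer G e) hAf e.1
          (fun a ha => congrArg Prod.fst (show a • e = e from ha))
        exact ⟨δ, fun _ g hg => hδ g hg⟩
      · exact ⟨1, fun h => absurd h he⟩
    choose d0 hd0 using h0
    set rep : W × W → W × W := fun e =>
      (Quotient.mk (MulAction.orbitRel G (W × W)) e).out with hrep
    have hrepg : ∀ (g : G) (e : W × W), rep (g • e) = rep e := by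
      intro g e
      have : (Quotient.mk (MulAction.orbitRel G (W × W)) (g • e)) =
          Quotient.mk (MulAction.orbitRel G (W × W)) e := by
        apply Quotient.sound
        exact ⟨g, rfl⟩
      simp only [hrep, this]
    have hγ : ∀ e : W × W, ∃ γ : G, γ • rep e = e := by
      intro e
      have h1 : (MulAction.orbitRel G (W × W)) (rep e) e := Quotient.mk_out e
      obtain ⟨g, hg⟩ := h1
      refine ⟨g⁻¹, ?_⟩
      rw [inv_smul_eq_iff]
      exact hg.symm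
    choose γ hγ using hγ
    refine ⟨fun e => θ (γ e) * d0 (rep e) * (α (γ e) (rep e).1)⁻¹, ?_⟩
    intro e he g
    show θ (γ (g • e)) * d0 (rep (g • e)) * (α (γ (g • e)) (rep (g • e)).1)⁻¹ =
      θ g * (θ (γ e) * d0 (rep e) * (α (γ e) (rep e).1)⁻¹) * (α g e.1)⁻¹
    rw [hrepg]
    set e0 := rep e with he0
    have hadj0 : X.Adj e0.1 e0.2 := by
      have h1 := hG (γ e)⁻¹ _ _ he
      have h2 : e0 = (γ e)⁻¹ • e := by
        rw [eq_inv_smul_iff]; exact hγ e
      rw [h2]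
      exact h1
    set s := (g * γ e)⁻¹ * γ (g • e) with hs
    have hs1 : s • e0 = e0 := by
      have h1 : γ (g • e) • e0 = g • e := by
        have := hγ (g • e)
        rwa [hrepg] at this
      rw [hs, mul_smul, h1, inv_smul_eq_iff, mul_smul, hγ e]
    have hs2 : γ (g • e) = g * γ e * s := by rw [hs]; group
    have h3 := hd0 e0 hadj0 s hs1
    have h4 : s • e0.1 = e0.1 := congrArg Prod.fst hs1
    have h5 : α (γ (g • e)) e0.1 = α g (γ e • e0.1) * α (γ e) e0.1 * α s e0.1 := by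
      rw [hs2, hcoc, h4, hcoc]
    have h6 : γ e • e0.1 = e.1 := congrArg Prod.fst (hγ e)
    rw [h5, h6, hs2, map_mul, map_mul, mul_inv_rev, mul_inv_rev]
    calc θ g * θ (γ e) * θ s * d0 e0 * ((α s e0.1)⁻¹ * ((α (γ e) e0.1)⁻¹ * (α g e.1)⁻¹))
        = θ g * θ (γ e) * (θ s * d0 e0) * (α s e0.1)⁻¹ * (α (γ e) e0.1)⁻¹ * (α g e.1)⁻¹ := by
          group
      _ = θ g * θ (γ e) * (d0 e0 * α s e0.1) * (α s e0.1)⁻¹ * (α (γ e) e0.1)⁻¹ *
          (α g e.1)⁻¹ := by rw [h3]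
      _ = _ := by group
  obtain ⟨d, hd⟩ := hd
  set c : W → W → P := fun u u' => (d (u', u))⁻¹ * d (u, u') with hc
  have hcg : ∀ (g : G) (u u' : W), X.Adj u u' →
      c (g • u) (g • u') = α g u' * c u u' * (α g u)⁻¹ := by
    intro g u u' h
    have h1 := hd (u, u') h g
    have h2 := hd (u', u) h.symm g
    have e1 : d (g • u, g • u') = θ g * d (u, u') * (α g u)⁻¹ := h1
    have e2 : d (g • u', g • u) = θ g * d (u', u) * (α g u')⁻¹ := h2
    simp only [hc]
    rw [e1, e2]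
    group
  obtain ⟨F, hF0, hF⟩ := Pool.Agent.H97R3.VR.exists_pot hX x0 c
    (fun x y _ => by simp only [hc]; group) (fun x y w z h => absurd h (hsq _ _ _ _))
  have key : ∀ (g : G) (u : W), F (g • u) = α g u * F u * ((α g x0)⁻¹ * F (g • x0)) := by
    intro g u
    refine Pool.Agent.H97R3.VR.conn_ind hX.conn
      (fun u => F (g • u) = α g u * F u * ((α g x0)⁻¹ * F (g • x0))) x0 ?_ ?_ u
    · rw [hF0]; group
    · intro x y hxy ih
      rw [hF _ _ (hG g _ _ hxy), ih, hcg g x y hxy, hF _ _ hxy]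
      group
  refine ⟨MonoidHom.mk' (fun g => (F (g • x0))⁻¹ * α g x0) ?_, ?_, ?_⟩
  · intro g h
    show (F ((g * h) • x0))⁻¹ * α (g * h) x0 = (F (g • x0))⁻¹ * α g x0 * ((F (h • x0))⁻¹ * α h x0)
    rw [hcoc, mul_smul, key g (h • x0)]
    group
  · intro k hk
    show (F (k • x0))⁻¹ * α k x0 = Θ' k
    rw [(hK k).2 hk, hF0, hα0 k hk, inv_one, one_mul]
  · intro A hA
    obtain ⟨v, hv⟩ := hfix A hA
    obtain ⟨δ, hδ⟩ := loc A hA v hv
    refine ⟨δ * F v, fun a ha => ?_⟩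
    show δ * F v * ((F (a • x0))⁻¹ * α a x0) * (δ * F v)⁻¹ = θ a
    have h1 := key a v
    rw [hv a ha] at h1
    have h2 := hδ a ha
    have h3 : α a v = F v * ((F (a • x0))⁻¹ * α a x0) * (F v)⁻¹ := by
      have h4 : F v * ((F (a • x0))⁻¹ * α a x0) = α a v * F v := by
        conv_lhs => rw [h1]
        group
      rw [h4]; group
    have h5 : θ a = δ * α a v * δ⁻¹ := by rw [← h2]; group
    rw [h5, h3]
    group

end glue

/-- extension of homomorphisms from `K` to the countable group `G` -/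
theorem rel_extend {G P : Type} [Group G] [Group P] [Countable G] {K : Subgroup G} (N : G → ℕ)
    (hsep : ∀ x y : G ⧸ K, x ≠ y → ∃ C : Set (G ⧸ K), Good N C ∧ x ∈ C ∧ y ∉ C)
    (θ : G →* P) (Θ' : G → P)
    (hmul : ∀ a ∈ K, ∀ b ∈ K, Θ' (a * b) = Θ' a * Θ' b)
    (hE : ∀ A : Subgroup G, Finite A → A ≤ K → ∃ φ : P, ∀ a ∈ A, φ * Θ' a * φ⁻¹ = θ a) :
    ∃ Θ : G →* P, (∀ k ∈ K, Θ k = Θ' k) ∧
      ∀ A : Subgroup G, Finite A → ∃ φ : P, ∀ a ∈ A, φ * Θ a * φ⁻¹ = θ a := by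
  obtain ⟨W, inst, X, x0, h1, h2, h3, h4, h5, h6⟩ := rel_tree N hsep
  exact glue h1 h2 h3 x0 h5 h6 K h4 θ Θ' hmul hE

end Pool.Agent.K3h36.LR
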