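import Pool.Agent.K3h36.LR.A10

/-!
# Finite subgroups of amalgams
-/

set_option autoImplicit false
set_option linter.unusedSectionVars false
set_option linter.style.haveILetI false

namespace Pool.Agent.K3h36.LR

open scoped Pointwise
open Set
open Pool.Agent.H97R3.VR (exists_pred adj_one)

section trees

variable {V : Type} {X : SimpleGraph V}

/-- a connected graph all of whose edges are bridges -/
theorem uniq_of_bridge (hc : X.Connected)
    (hbr : ∀ u x, X.Adj u x → ∃ S : Set V, ¬ (u ∈ S ↔ x ∈ S) ∧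
      ∀ p q, X.Adj p q → (p ∈ S ↔ q ∈ S) ∨ (p = u ∧ q = x) ∨ (p = x ∧ q = u))
    (z x u y : V) (h1 : X.Adj u x) (h2 : X.Adj y x) (h3 : X.dist z x = X.dist z u + 1)
    (h4 : X.dist z x = X.dist z y + 1) : u = y := by
  by_contra hne
  obtain ⟨S, hS1, hS2⟩ := hbr u x h1
  have h5 : ∀ n, ∀ w, X.dist z w = n → n < X.dist z x → (w ∈ S ↔ z ∈ S) := by
    intro n
    induction n with
    | zero =>
      intro w hw _
      have := hc.dist_eq_zero_iff.1 hw
      rw [this]
    | succ n ih =>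
      intro w hw hlt
      obtain ⟨y', hy1, hy2⟩ := exists_pred hc hw
      have h6 := ih y' hy2 (by omega)
      rcases hS2 y' w hy1 with h7 | ⟨-, h7⟩ | ⟨h7, -⟩
      · exact h7.symm.trans h6
      · rw [h7] at hw; omega
      · rw [h7] at hy2; omega
  have h6 := h5 _ u rfl (by omega)
  have h7 := h5 _ y rfl (by omega)
  rcases hS2 y x h2 with h8 | ⟨h8, -⟩ | ⟨h8, -⟩
  · exact hS1 (h6.trans (h7.symm.trans h8))
  · exact hne h8.symm
  · exact h2.ne h8

theorem even_iff' (hc : X.Connected) (τ : V → Prop) (hτ : ∀ x y, X.Adj x y → (τ x ↔ ¬ τ y))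
    (n : ℕ) : ∀ a b, X.dist a b = n → (Even n ↔ (τ a ↔ τ b)) := by
  induction n with
  | zero =>
    intro a b h
    have := hc.dist_eq_zero_iff.1 h
    subst this
    simp
  | succ n ih =>
    intro a b h
    obtain ⟨y, hy1, hy2⟩ := exists_pred hc h
    have h1 := ih a y hy2
    have h2 := hτ y b hy1
    rw [Nat.even_add_one, h1]
    tauto

theorem dist_step' (hc : X.Connected) (τ : V → Prop) (hτ : ∀ x y, X.Adj x y → (τ x ↔ ¬ τ y))
    (u : V) {x y : V} (h : X.Adj x y) :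
    X.dist u y = X.dist u x + 1 ∨ X.dist u x = X.dist u y + 1 := by
  have h2 : X.dist u y ≤ X.dist u x + X.dist x y := hc.dist_triangle
  have h3 : X.dist u x ≤ X.dist u y + X.dist y x := hc.dist_triangle
  rw [adj_one h] at h2
  rw [adj_one h.symm] at h3
  have h4 : X.dist u x ≠ X.dist u y := by
    intro h5
    have h6 := even_iff' hc τ hτ _ u x rfl
    have h7 := even_iff' hc τ hτ _ u y rfl
    have h8 := hτ x y h
    rw [h5] at h6
    have h9 := h6.symm.trans h7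
    tauto
  omega

theorem incr' (hc : X.Connected) (τ : V → Prop) (hτ : ∀ x y, X.Adj x y → (τ x ↔ ¬ τ y))
    (hu : ∀ z x u y : V, X.Adj u x → X.Adj y x → X.dist z x = X.dist z u + 1 →
      X.dist z x = X.dist z y + 1 → u = y) (z : V) (k : ℕ) :
    ∀ u x u' : V, X.Adj u x → X.dist x u' = k → X.dist u u' = k + 1 →
      X.dist z x = X.dist z u + 1 → X.dist z u' = X.dist z u + (k + 1) := by
  induction k with
  | zero =>
    intro u x u' h1 h2 h3 h4
    have h5 : x = u' := hc.dist_eq_zero_iff.1 h2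
    rw [← h5, h4]
  | succ k ih =>
    intro u x u' h1 h2 h3 h4
    obtain ⟨y, hy1, hy2⟩ := exists_pred hc (u := u') (x := x) (n := k)
      (by rw [SimpleGraph.dist_comm]; exact h2)
    rw [SimpleGraph.dist_comm] at hy2
    rcases dist_step' hc τ hτ z hy1 with h5 | h5
    · exfalso
      have h6 := hu z x u y h1 hy1 h4 h5
      rw [← h6] at hy2
      omega
    · have h6 := ih x y u' hy1.symm hy2 h2 (by omega)
      omega

/-- a finite group acting on a bicoloured tree fixes a vertex -/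
theorem fixed_vertex' {A : Type} [Group A] [Finite A] [MulAction A V] (hc : X.Connected)
    (huq : ∀ z x u y : V, X.Adj u x → X.Adj y x → X.dist z x = X.dist z u + 1 →
      X.dist z x = X.dist z y + 1 → u = y)
    (hA : ∀ (a : A) (x y : V), X.Adj x y → X.Adj (a • x) (a • y))
    (τ : V → Prop) (hτ : ∀ x y, X.Adj x y → (τ x ↔ ¬ τ y)) (hτA : ∀ (a : A) x, τ (a • x) ↔ τ x) :
    ∃ v : V, ∀ a : A, a • v = v := by
  classical
  have := Fintype.ofFinite A
  obtain ⟨v0⟩ := hc.nonempty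
  have hdle : ∀ (a : A) (x y : V), X.dist (a • x) (a • y) ≤ X.dist x y := by
    intro a x y
    obtain ⟨p, hp⟩ := hc.exists_walk_length_eq_dist x y
    let f : X →g X := ⟨fun x => a • x, fun {x y} h => hA a x y h⟩
    have h1 := SimpleGraph.dist_le (p.map f)
    rw [SimpleGraph.Walk.length_map, hp] at h1
    exact h1
  have hd : ∀ (a : A) (x y : V), X.dist (a • x) (a • y) = X.dist x y := by
    intro a x y
    refine le_antisymm (hdle a x y) ?_
    have := hdle a⁻¹ (a • x) (a • y)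
    rwa [inv_smul_smul, inv_smul_smul] at this
  set r : V → ℕ := fun u => Finset.univ.sup fun a : A => X.dist (a • v0) u with hr
  have hle : ∀ u (a : A), X.dist (a • v0) u ≤ r u := fun u a =>
    Finset.le_sup (f := fun a : A => X.dist (a • v0) u) (Finset.mem_univ a)
  have hatt : ∀ u, ∃ a : A, X.dist (a • v0) u = r u := by
    intro u
    obtain ⟨a, -, ha⟩ := Finset.exists_mem_eq_sup (Finset.univ : Finset A) ⟨1, Finset.mem_univ 1⟩
      (fun a : A => X.dist (a • v0) u)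
    exact ⟨a, ha.symm⟩
  have hra : ∀ (a : A) u, r (a • u) = r u := by
    have h1 : ∀ (a : A) u, r (a • u) ≤ r u := by
      intro a u
      refine Finset.sup_le fun b _ => ?_
      have h2 : X.dist (b • v0) (a • u) = X.dist ((a⁻¹ * b) • v0) u := by
        rw [← hd a ((a⁻¹ * b) • v0) u, ← mul_smul, mul_inv_cancel_left]
      rw [h2]
      exact hle u _
    intro a u
    refine le_antisymm (h1 a u) ?_
    have := h1 a⁻¹ (a • u)
    rwa [inv_smul_smul] at this
  obtain ⟨u, -, hu⟩ := (measure r).wf.has_min Set.univ ⟨v0, Set.mem_univ _⟩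
  have hmin : ∀ w, r u ≤ r w := fun w => not_lt.1 (hu w (Set.mem_univ w))
  refine ⟨u, fun a => ?_⟩
  by_contra hne
  set u' := a • u with hu'
  have hru' : r u' = r u := hra a u
  obtain ⟨k, hk⟩ : ∃ k, X.dist u u' = k := ⟨_, rfl⟩
  -- parity
  have hpar := even_iff' hc τ hτ
  have hkeven : Even k := by
    rw [hpar k u u' hk]
    exact (hτA a u).symm
  rcases k with _ | k
  · exact hne (hc.dist_eq_zero_iff.1 hk).symm
  rcases k with _ | k
  · exact absurd hkeven (by decide)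
  obtain ⟨x1, h1, h2⟩ := exists_pred hc (u := u') (x := u) (n := k + 1)
    (by rw [SimpleGraph.dist_comm]; exact hk)
  rw [SimpleGraph.dist_comm] at h2
  have h3 : r x1 < r u := by
    obtain ⟨b, hb⟩ := hatt x1
    rw [← hb]
    rcases dist_step' hc τ hτ (b • v0) h1 with h4 | h4
    · have := hle u b
      omega
    · have h5 := incr' hc τ hτ huq (b • v0) (k + 1) u x1 u' h1.symm h2 hk h4
      have := hle u' b
      omega
  exact absurd (hmin x1) (not_le.2 h3)

end trees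

section amalgam

variable {G : Type} [Group G] {A B : Subgroup G}

/-- the Bass-Serre tree -/
def BS (A B : Subgroup G) : SimpleGraph ((G ⧸ A) ⊕ (G ⧸ B)) where
  Adj p q := (∃ x : G, p = Sum.inl (x : G ⧸ A) ∧ q = Sum.inr (x : G ⧸ B)) ∨
    ∃ x : G, q = Sum.inl (x : G ⧸ A) ∧ p = Sum.inr (x : G ⧸ B)
  symm := by
    refine ⟨?_⟩
    rintro p q (h | h)
    · exact Or.inr h
    · exact Or.inl h
  loopless := by
    refine ⟨?_⟩
    rintro p (⟨x, h1, h2⟩ | ⟨x, h1, h2⟩)
    · rw [h1] at h2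
      exact absurd h2 Sum.inl_ne_inr
    · rw [h1] at h2
      exact absurd h2 Sum.inl_ne_inr

theorem BS_edge (x : G) : (BS A B).Adj (Sum.inl (x : G ⧸ A)) (Sum.inr (x : G ⧸ B)) :=
  Or.inl ⟨x, rfl, rfl⟩

theorem BS_conn (hgen : Subgroup.closure ((A : Set G) ∪ B) = ⊤) : (BS A B).Connected := by
  have h1 : ∀ g : G, ∀ x : G, (BS A B).Reachable (Sum.inl (x : G ⧸ A))
      (Sum.inl ((x * g : G) : G ⧸ A)) := by
    intro g
    have hg : g ∈ Subgroup.closure ((A : Set G) ∪ B) := by rw [hgen]; exact Subgroup.mem_top g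
    induction hg using Subgroup.closure_induction with
    | mem s hs =>
      intro x
      rcases hs with hs | hs
      · have e : ((x * s : G) : G ⧸ A) = (x : G ⧸ A) := by
          rw [QuotientGroup.eq]
          simpa using A.inv_mem hs
        rw [e]
      · have e : ((x * s : G) : G ⧸ B) = (x : G ⧸ B) := by
          rw [QuotientGroup.eq]
          simpa using B.inv_mem hs
        have h2 : (BS A B).Adj (Sum.inl ((x * s : G) : G ⧸ A)) (Sum.inr (x : G ⧸ B)) := by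
          rw [← e]
          exact BS_edge (x * s)
        exact (BS_edge x).reachable.trans h2.symm.reachable
    | one => intro x; rw [mul_one]
    | mul a b _ _ ha hb =>
      intro x
      rw [← mul_assoc]
      exact (ha x).trans (hb (x * a))
    | inv a _ ha =>
      intro x
      have := ha (x * a⁻¹)
      rw [inv_mul_cancel_right] at this
      exact this.symm
  have h2 : ∀ p : (G ⧸ A) ⊕ (G ⧸ B), (BS A B).Reachable (Sum.inl ((1 : G) : G ⧸ A)) p := by
    rintro (p | p)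
    · obtain ⟨x, rfl⟩ := QuotientGroup.mk_surjective p
      have := h1 x 1
      rwa [one_mul] at this
    · obtain ⟨x, rfl⟩ := QuotientGroup.mk_surjective p
      have := h1 x 1
      rw [one_mul] at this
      exact this.trans (BS_edge x).reachable
  have : Nonempty ((G ⧸ A) ⊕ (G ⧸ B)) := ⟨Sum.inl ((1 : G) : G ⧸ A)⟩
  exact ⟨fun p q => (h2 p).symm.trans (h2 q)⟩

theorem amalgam_fix (hgen : Subgroup.closure ((A : Set G) ∪ B) = ⊤)
    (Δ : G →* Equiv.Perm (Set (G ⧸ (A ⊓ B))))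
    (hA : ∀ a ∈ A, ∀ F, Δ a F = a • F)
    (hB : ∀ b ∈ B, ∀ F, Δ b F = symmDiff (symmDiff (b • {((1 : G) : G ⧸ (A ⊓ B))})
      {((1 : G) : G ⧸ (A ⊓ B))}) (b • F)) (E : Subgroup G) [Finite E] :
    ∃ g : G, (∀ e ∈ E, g⁻¹ * e * g ∈ A) ∨ (∀ e ∈ E, g⁻¹ * e * g ∈ B) := by
  set e0 : G ⧸ (A ⊓ B) := ((1 : G) : G ⧸ (A ⊓ B)) with he0
  have hsd : ∀ (g : G) (S T : Set (G ⧸ (A ⊓ B))), g • symmDiff S T = symmDiff (g • S) (g • T) :=
    fun g S T => Set.smul_set_symmDiff
  have haff : ∀ g : G, ∀ F, Δ g F = symmDiff (Δ g ∅) (g • F) := by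
    intro g
    have hg : g ∈ Subgroup.closure ((A : Set G) ∪ B) := by rw [hgen]; exact Subgroup.mem_top g
    induction hg using Subgroup.closure_induction with
    | mem s hs =>
      intro F
      rcases hs with hs | hs
      · rw [hA s hs, hA s hs, Set.smul_set_empty]
        exact (bot_symmDiff _).symm
      · rw [hB s hs, hB s hs, Set.smul_set_empty]
        congr 1
        exact (symmDiff_bot _).symm
    | one =>
      intro F
      rw [map_one, one_smul]
      exact (bot_symmDiff _).symm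
    | mul a b _ _ ha hb =>
      intro F
      rw [map_mul, Equiv.Perm.mul_apply, Equiv.Perm.mul_apply, hb F, ha, ha (Δ b ∅), hsd,
        mul_smul, symmDiff_assoc]
    | inv a _ ha =>
      intro F
      have h1 : ∀ F, Δ a⁻¹ F = symmDiff (a⁻¹ • Δ a ∅) (a⁻¹ • F) := by
        intro F
        rw [map_inv, Equiv.Perm.inv_eq_iff_eq, ha, hsd, smul_inv_smul, smul_inv_smul,
          ← symmDiff_assoc, symmDiff_self, bot_symmDiff]
      rw [h1 F, h1 ∅, Set.smul_set_empty]
      congr 1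
      exact (symmDiff_bot _).symm
  -- potential
  set Ψ : (G ⧸ A) ⊕ (G ⧸ B) → Set (G ⧸ (A ⊓ B)) :=
    Sum.elim (fun u => Δ u.out ∅) (fun u => Δ u.out {e0}) with hΨ
  have hΨA : ∀ x : G, Ψ (Sum.inl (x : G ⧸ A)) = Δ x ∅ := by
    intro x
    obtain ⟨a, ha⟩ := QuotientGroup.mk_out_eq_mul A x
    show Δ ((x : G ⧸ A)).out ∅ = _
    rw [ha, map_mul, Equiv.Perm.mul_apply, hA a a.2, Set.smul_set_empty]
  have hΨB : ∀ x : G, Ψ (Sum.inr (x : G ⧸ B)) = Δ x {e0} := by
    intro x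
    obtain ⟨b, hb⟩ := QuotientGroup.mk_out_eq_mul B x
    show Δ ((x : G ⧸ B)).out {e0} = _
    rw [hb, map_mul, Equiv.Perm.mul_apply, hB b b.2, symmDiff_comm, ← symmDiff_assoc,
      symmDiff_self, bot_symmDiff]
  have hstep : ∀ (x : G) (c : G ⧸ (A ⊓ B)), c ∈ Ψ (Sum.inr (x : G ⧸ B)) ↔
      ¬ (c ∈ Ψ (Sum.inl (x : G ⧸ A)) ↔ c = (x : G ⧸ (A ⊓ B))) := by
    intro x c
    rw [hΨA, hΨB, haff x {e0}, Set.mem_symmDiff, Set.smul_set_singleton, Set.mem_singleton_iff]
    have e : x • e0 = (x : G ⧸ (A ⊓ B)) := by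
      have : x • e0 = ((x * 1 : G) : G ⧸ (A ⊓ B)) := rfl
      rw [this, mul_one]
    rw [e]
    tauto
  have hconn := BS_conn hgen
  have hbr : ∀ u x, (BS A B).Adj u x → ∃ S : Set ((G ⧸ A) ⊕ (G ⧸ B)), ¬ (u ∈ S ↔ x ∈ S) ∧
      ∀ p q, (BS A B).Adj p q → (p ∈ S ↔ q ∈ S) ∨ (p = u ∧ q = x) ∨ (p = x ∧ q = u) := by
    have hlab : ∀ x y : G, (x : G ⧸ (A ⊓ B)) = (y : G ⧸ (A ⊓ B)) →
        (x : G ⧸ A) = (y : G ⧸ A) ∧ (x : G ⧸ B) = (y : G ⧸ B) := by
      intro x y h
      rw [QuotientGroup.eq] at h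
      exact ⟨QuotientGroup.eq.2 h.1, QuotientGroup.eq.2 h.2⟩
    have hmain : ∀ x : G, ∃ S : Set ((G ⧸ A) ⊕ (G ⧸ B)),
        ¬ ((Sum.inl (x : G ⧸ A) : (G ⧸ A) ⊕ (G ⧸ B)) ∈ S ↔ Sum.inr (x : G ⧸ B) ∈ S) ∧
        ∀ y : G, ((Sum.inl (y : G ⧸ A) : (G ⧸ A) ⊕ (G ⧸ B)) ∈ S ↔ Sum.inr (y : G ⧸ B) ∈ S) ∨
          ((x : G ⧸ A) = (y : G ⧸ A) ∧ (x : G ⧸ B) = (y : G ⧸ B)) := by
      intro x
      refine ⟨{p | (x : G ⧸ (A ⊓ B)) ∈ Ψ p}, ?_, ?_⟩
      · have h1 := hstep x (x : G ⧸ (A ⊓ B))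
        rw [Set.mem_setOf_eq, Set.mem_setOf_eq, h1]
        tauto
      · intro y
        by_cases h : (x : G ⧸ (A ⊓ B)) = (y : G ⧸ (A ⊓ B))
        · exact Or.inr (hlab x y h)
        · left
          have h1 := hstep y (x : G ⧸ (A ⊓ B))
          rw [Set.mem_setOf_eq, Set.mem_setOf_eq, h1]
          tauto
    rintro u w (⟨x, rfl, rfl⟩ | ⟨x, rfl, rfl⟩)
    · obtain ⟨S, hS1, hS2⟩ := hmain x
      refine ⟨S, hS1, ?_⟩
      rintro p q (⟨y, rfl, rfl⟩ | ⟨y, rfl, rfl⟩)
      · rcases hS2 y with h | ⟨h, h'⟩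
        · exact Or.inl h
        · right; left; rw [h, h']; exact ⟨rfl, rfl⟩
      · rcases hS2 y with h | ⟨h, h'⟩
        · exact Or.inl h.symm
        · right; right; rw [h, h']; exact ⟨rfl, rfl⟩
    · obtain ⟨S, hS1, hS2⟩ := hmain x
      refine ⟨S, fun h => hS1 h.symm, ?_⟩
      rintro p q (⟨y, rfl, rfl⟩ | ⟨y, rfl, rfl⟩)
      · rcases hS2 y with h | ⟨h, h'⟩
        · exact Or.inl h
        · right; right; rw [h, h']; exact ⟨rfl, rfl⟩
      · rcases hS2 y with h | ⟨h, h'⟩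
        · exact Or.inl h.symm
        · right; left; rw [h, h']; exact ⟨rfl, rfl⟩
  have hadj : ∀ (a : E) (x y : (G ⧸ A) ⊕ (G ⧸ B)), (BS A B).Adj x y →
      (BS A B).Adj (a • x) (a • y) := by
    rintro a x y (⟨z, rfl, rfl⟩ | ⟨z, rfl, rfl⟩)
    · exact Or.inl ⟨(a : G) * z, rfl, rfl⟩
    · exact Or.inr ⟨(a : G) * z, rfl, rfl⟩
  obtain ⟨v, hv⟩ := fixed_vertex' (A := E) hconn (uniq_of_bridge hconn hbr) hadj
    (fun p => p.isLeft = true)
    (by
      rintro x y (⟨z, rfl, rfl⟩ | ⟨z, rfl, rfl⟩)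
      · simp
      · simp)
    (by
      rintro a (x | x)
      · exact Iff.rfl
      · exact Iff.rfl)
  rcases v with v | v
  · obtain ⟨x, rfl⟩ := QuotientGroup.mk_surjective v
    refine ⟨x, Or.inl fun e he => ?_⟩
    have h1 := Sum.inl_injective (hv ⟨e, he⟩ : (Sum.inl (((e * x : G) : G ⧸ A)) :
      (G ⧸ A) ⊕ (G ⧸ B)) = Sum.inl (x : G ⧸ A))
    have h2 : x⁻¹ * (e * x) ∈ _ := QuotientGroup.eq.1 h1.symm
    rw [← mul_assoc] at h2
    exact h2
  · obtain ⟨x, rfl⟩ := QuotientGroup.mk_surjective v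
    refine ⟨x, Or.inr fun e he => ?_⟩
    have h1 := Sum.inr_injective (hv ⟨e, he⟩ : (Sum.inr (((e * x : G) : G ⧸ B)) :
      (G ⧸ A) ⊕ (G ⧸ B)) = Sum.inr (x : G ⧸ B))
    have h2 : x⁻¹ * (e * x) ∈ _ := QuotientGroup.eq.1 h1.symm
    rw [← mul_assoc] at h2
    exact h2

end amalgam

end Pool.Agent.K3h36.LR
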