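import Pool.Agent.K3h36.LR.A4
import Pool.Agent.K3h36.LR.A11

/-!
# Free groups of arbitrary rank extended by a finite group: closed sets of generators
-/

set_option autoImplicit false
set_option linter.unusedSectionVars false
set_option linter.style.haveILetI false

namespace Pool.Agent.K3h36.LR

open scoped Pointwise
open Set
open FreeGroup (of lift lift_apply_of)

variable {G β P : Type} [Group G] [DecidableEq β] [Group P]

/-- a normal free subgroup of finite index and a subgroup covering the quotient -/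
structure Amb (i : FreeGroup β →* G) (H : Subgroup G) : Prop where
  inj : Function.Injective i
  norm : i.range.Normal
  fin : i.range.FiniteIndex
  cov : ∀ g : G, ∃ f : FreeGroup β, ∃ h ∈ H, g = i f * h

/-- the subgroup generated by some generators -/
abbrev cl (T : Set β) : Subgroup (FreeGroup β) := Subgroup.closure (of '' T)

/-- closed sets of generators -/
structure Closed (i : FreeGroup β →* G) (H : Subgroup G) (T : Set β) : Prop where
  conj : ∀ h ∈ H, ∀ b ∈ T, ∃ f ∈ cl T, i f = h * i (of b) * h⁻¹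
  int : ∀ f, i f ∈ H → f ∈ cl T

/-- the subgroup belonging to a set of generators -/
def GT (i : FreeGroup β →* G) (H : Subgroup G) (T : Set β) : Subgroup G := (cl T).map i ⊔ H

/-- partial homomorphisms -/
def MulOn (K : Subgroup G) (Θ : G → P) : Prop := ∀ a ∈ K, ∀ b ∈ K, Θ (a * b) = Θ a * Θ b

theorem MulOn.one {K : Subgroup G} {Θ : G → P} (h : MulOn K Θ) : Θ 1 = 1 := by
  have := h 1 K.one_mem 1 K.one_mem
  rw [mul_one] at this
  exact left_eq_mul.1 this

theorem MulOn.inv {K : Subgroup G} {Θ : G → P} (h : MulOn K Θ) {a : G} (ha : a ∈ K) :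
    Θ a⁻¹ = (Θ a)⁻¹ := by
  have := h a ha a⁻¹ (K.inv_mem ha)
  rw [mul_inv_cancel, h.one] at this
  exact (inv_eq_of_mul_eq_one_right this.symm).symm

theorem MulOn.mono {K K' : Subgroup G} {Θ : G → P} (h : MulOn K Θ) (hle : K' ≤ K) : MulOn K' Θ :=
  fun a ha b hb => h a (hle ha) b (hle hb)

variable {i : FreeGroup β →* G} {H : Subgroup G} {T S : Set β}

theorem cl_mono (h : T ⊆ S) : cl T ≤ cl S := Subgroup.closure_mono (Set.image_mono h)

theorem GT_mono (h : T ⊆ S) : GT i H T ≤ GT i H S :=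
  sup_le_sup_right (Subgroup.map_mono (cl_mono h)) H

theorem H_le_GT : H ≤ GT i H T := le_sup_right

theorem mem_GT_of_cl {f : FreeGroup β} (hf : f ∈ cl T) : i f ∈ GT i H T :=
  (le_sup_left : (cl T).map i ≤ _) (Subgroup.mem_map_of_mem _ hf)

theorem Closed.conj' (hc : Closed i H T) {h : G} (hh : h ∈ H) {f : FreeGroup β} (hf : f ∈ cl T) :
    ∃ f' ∈ cl T, i f' = h * i f * h⁻¹ := by
  induction hf using Subgroup.closure_induction with
  | mem x hx =>
    obtain ⟨b, hb, rfl⟩ := hx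
    exact hc.conj h hh b hb
  | one => exact ⟨1, one_mem _, by simp⟩
  | mul x y _ _ hx hy =>
    obtain ⟨x', hx', e1⟩ := hx
    obtain ⟨y', hy', e2⟩ := hy
    refine ⟨x' * y', mul_mem hx' hy', ?_⟩
    rw [map_mul, e1, e2, map_mul]
    group
  | inv x _ hx =>
    obtain ⟨x', hx', e1⟩ := hx
    refine ⟨x'⁻¹, inv_mem hx', ?_⟩
    rw [map_inv, e1, map_inv]
    group

theorem mem_GT (hc : Closed i H T) {g : G} :
    g ∈ GT i H T ↔ ∃ f ∈ cl T, ∃ h ∈ H, g = i f * h := by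
  constructor
  · intro hg
    let G' : Subgroup G :=
      { carrier := {g | ∃ f ∈ cl T, ∃ h ∈ H, g = i f * h}
        one_mem' := ⟨1, one_mem _, 1, one_mem _, by simp⟩
        mul_mem' := by
          rintro _ _ ⟨f, hf, h, hh, rfl⟩ ⟨f', hf', h', hh', rfl⟩
          obtain ⟨f'', hf'', e⟩ := hc.conj' hh hf'
          refine ⟨f * f'', mul_mem hf hf'', h * h', mul_mem hh hh', ?_⟩
          rw [map_mul, e]
          group
        inv_mem' := by
          rintro _ ⟨f, hf, h, hh, rfl⟩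
          obtain ⟨f'', hf'', e⟩ := hc.conj' (inv_mem hh) (inv_mem hf)
          refine ⟨f'', hf'', h⁻¹, inv_mem hh, ?_⟩
          rw [e, map_inv]
          group }
    have h1 : GT i H T ≤ G' := by
      refine sup_le ?_ ?_
      · rintro _ ⟨f, hf, rfl⟩
        exact ⟨f, hf, 1, one_mem _, by simp⟩
      · intro h hh
        exact ⟨1, one_mem _, h, hh, by simp⟩
    exact h1 hg
  · rintro ⟨f, hf, h, hh, rfl⟩
    exact mul_mem (mem_GT_of_cl hf) (H_le_GT hh)

theorem cl_of_mem (Am : Amb i H) (hc : Closed i H T) {f : FreeGroup β} (hf : i f ∈ GT i H T) :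
    f ∈ cl T := by
  obtain ⟨f', hf', h, hh, e⟩ := (mem_GT hc).1 hf
  have h1 : i (f'⁻¹ * f) ∈ H := by
    rw [map_mul, map_inv, e, inv_mul_cancel_left]
    exact hh
  have h2 := mul_mem hf' (hc.int _ h1)
  rwa [mul_inv_cancel_left] at h2

theorem cl_inter : cl (T ∩ S) = cl T ⊓ cl S := by
  ext f
  rw [Subgroup.mem_inf, mem_closure_iff, mem_closure_iff, mem_closure_iff, Set.subset_inter_iff]

theorem Closed.inter (Am : Amb i H) (hT : Closed i H T) (hS : Closed i H S) :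
    Closed i H (T ∩ S) := by
  refine ⟨?_, ?_⟩
  · intro h hh b hb
    obtain ⟨f, hf, e⟩ := hT.conj h hh b hb.1
    obtain ⟨f', hf', e'⟩ := hS.conj h hh b hb.2
    have h1 : f = f' := Am.inj (e.trans e'.symm)
    refine ⟨f, ?_, e⟩
    rw [cl_inter]
    exact ⟨hf, h1 ▸ hf'⟩
  · intro f hf
    rw [cl_inter]
    exact ⟨hT.int f hf, hS.int f hf⟩

theorem Closed.union (hT : Closed i H T) (hS : Closed i H S) : Closed i H (T ∪ S) := by
  refine ⟨?_, ?_⟩
  · rintro h hh b (hb | hb)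
    · obtain ⟨f, hf, e⟩ := hT.conj h hh b hb
      exact ⟨f, cl_mono Set.subset_union_left hf, e⟩
    · obtain ⟨f, hf, e⟩ := hS.conj h hh b hb
      exact ⟨f, cl_mono Set.subset_union_right hf, e⟩
  · intro f hf
    exact cl_mono Set.subset_union_left (hT.int f hf)

theorem GT_inter (Am : Amb i H) (hT : Closed i H T) (hS : Closed i H S) {g : G}
    (h1 : g ∈ GT i H T) (h2 : g ∈ GT i H S) : g ∈ GT i H (T ∩ S) := by
  obtain ⟨f, hf, h, hh, rfl⟩ := (mem_GT hT).1 h1
  have h3 : i f ∈ GT i H S := by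
    have := mul_mem h2 (inv_mem (H_le_GT (i := i) (T := S) hh))
    rwa [mul_inv_cancel_right] at this
  have h4 := cl_of_mem Am hS h3
  refine mul_mem (mem_GT_of_cl ?_) (H_le_GT hh)
  rw [cl_inter]
  exact ⟨hf, h4⟩

theorem GT_union_le : GT i H (T ∪ S) ≤ GT i H T ⊔ GT i H S := by
  refine sup_le ?_ (H_le_GT.trans le_sup_left)
  rw [Subgroup.map_le_iff_le_comap]
  refine (Subgroup.closure_le _).2 ?_
  rintro _ ⟨b, hb | hb, rfl⟩
  · exact (le_sup_left : GT i H T ≤ _) (mem_GT_of_cl (Subgroup.subset_closure ⟨b, hb, rfl⟩))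
  · exact (le_sup_right : GT i H S ≤ _) (mem_GT_of_cl (Subgroup.subset_closure ⟨b, hb, rfl⟩))

theorem exists_conj (Am : Amb i H) : ∃ c : G → (FreeGroup β →* FreeGroup β),
    ∀ g f, i (c g f) = g * i f * g⁻¹ := by
  have hκ : ∀ (g : G) (b : β), ∃ f : FreeGroup β, i f = g * i (of b) * g⁻¹ := fun g b =>
    Am.norm.conj_mem _ ⟨of b, rfl⟩ g
  choose κ hκ using hκ
  refine ⟨fun g => lift (κ g), fun g f => ?_⟩
  have h1 : i.comp (lift (κ g)) = (MulAut.conj g).toMonoidHom.comp i := by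
    apply FreeGroup.ext_hom
    intro b
    simp [hκ]
  have h2 := DFunLike.congr_fun h1 f
  simpa using h2

theorem exists_closed (Am : Amb i H) (hH : Countable H) (T0 : Set β) (hT0 : T0.Countable) :
    ∃ S : Set β, T0 ⊆ S ∧ S.Countable ∧ Closed i H S := by
  obtain ⟨c, hc⟩ := exists_conj Am
  set S : ℕ → Set β := fun n => Nat.rec (T0 ∪ ⋃ f ∈ {f | i f ∈ H}, supp f)
    (fun _ S => S ∪ ⋃ h : H, ⋃ b ∈ S, supp (c h (of b))) n with hS
  have hS0 : S 0 = T0 ∪ ⋃ f ∈ {f | i f ∈ H}, supp f := rfl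
  have hSs : ∀ n, S (n + 1) = S n ∪ ⋃ h : H, ⋃ b ∈ S n, supp (c h (of b)) := fun n => rfl
  have hcL : {f | i f ∈ H}.Countable := by
    have h1 : ((H : Set G)).Countable := hH.to_set
    exact h1.preimage Am.inj
  have hcS : ∀ n, (S n).Countable := by
    intro n
    induction n with
    | zero =>
      rw [hS0]
      exact hT0.union (hcL.biUnion fun f _ => (supp_finite f).countable)
    | succ n ih =>
      rw [hSs]
      exact ih.union (Set.countable_iUnion fun h => ih.biUnion fun b _ =>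
        (supp_finite _).countable)
  refine ⟨⋃ n, S n, ?_, Set.countable_iUnion hcS, ?_, ?_⟩
  · exact (Set.subset_union_left.trans_eq hS0.symm).trans (Set.subset_iUnion S 0)
  · intro h hh b hb
    obtain ⟨n, hn⟩ := Set.mem_iUnion.1 hb
    refine ⟨c h (of b), ?_, hc _ _⟩
    rw [mem_closure_iff]
    intro a ha
    refine Set.mem_iUnion.2 ⟨n + 1, ?_⟩
    rw [hSs]
    right
    refine Set.mem_iUnion.2 ⟨⟨h, hh⟩, ?_⟩
    exact Set.mem_biUnion hn ha
  · intro f hf
    rw [mem_closure_iff]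
    intro a ha
    refine Set.mem_iUnion.2 ⟨0, ?_⟩
    rw [hS0]
    right
    exact Set.mem_biUnion (show f ∈ {f | i f ∈ H} from hf) ha

/-- amalgamation of two partial homomorphisms -/
theorem ext_union (Am : Amb i H) (hT : Closed i H T) (hS : Closed i H S) {Θ1 Θ2 : G → P}
    (h1 : MulOn (GT i H T) Θ1) (h2 : MulOn (GT i H S) Θ2)
    (heq : ∀ g ∈ GT i H T, g ∈ GT i H S → Θ1 g = Θ2 g) :
    ∃ Θ : G → P, MulOn (GT i H (T ∪ S)) Θ ∧ (∀ g ∈ GT i H T, Θ g = Θ1 g) ∧
      ∀ g ∈ GT i H S, Θ g = Θ2 g := by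
  classical
  obtain ⟨c, hc⟩ := exists_conj Am
  have hcov := Am.cov
  choose rf rh hrh hrep using hcov
  set θN : FreeGroup β →* P :=
    lift (fun b => if b ∈ T then Θ1 (i (of b)) else Θ2 (i (of b))) with hθN
  have gen : ∀ {U : Set β} {Θ' : G → P}, MulOn (GT i H U) Θ' →
      (∀ b ∈ U, θN (of b) = Θ' (i (of b))) → ∀ f ∈ cl U, θN f = Θ' (i f) := by
    intro U Θ' hm hb f hf
    induction hf using Subgroup.closure_induction with
    | mem x hx =>
      obtain ⟨b, hbU, rfl⟩ := hx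
      exact hb b hbU
    | one => rw [map_one, map_one, hm.one]
    | mul x y hx hy e1 e2 =>
      rw [map_mul, map_mul, e1, e2, hm _ (mem_GT_of_cl hx) _ (mem_GT_of_cl hy)]
    | inv x hx e1 => rw [map_inv, map_inv, e1, hm.inv (mem_GT_of_cl hx)]
  have hθT : ∀ f ∈ cl T, θN f = Θ1 (i f) := by
    refine gen h1 fun b hb => ?_
    rw [hθN, lift_apply_of, if_pos hb]
  have hθS : ∀ f ∈ cl S, θN f = Θ2 (i f) := by
    refine gen h2 fun b hb => ?_
    rw [hθN, lift_apply_of]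
    by_cases hbT : b ∈ T
    · rw [if_pos hbT]
      exact heq _ (mem_GT_of_cl (Subgroup.subset_closure ⟨b, hbT, rfl⟩))
        (mem_GT_of_cl (Subgroup.subset_closure ⟨b, hb, rfl⟩))
    · rw [if_neg hbT]
  have hHT : ∀ h ∈ H, h ∈ GT i H T := fun h hh => H_le_GT hh
  have hHS : ∀ h ∈ H, h ∈ GT i H S := fun h hh => H_le_GT hh
  have hH12 : ∀ h ∈ H, Θ1 h = Θ2 h := fun h hh => heq h (hHT h hh) (hHS h hh)
  set Θ : G → P := fun g => θN (rf g) * Θ1 (rh g) with hΘ
  have key : ∀ f : FreeGroup β, ∀ h ∈ H, Θ (i f * h) = θN f * Θ1 h := by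
    intro f h hh
    set g := i f * h with hg
    have e1 : i ((rf g)⁻¹ * f) = rh g * h⁻¹ := by
      rw [map_mul, map_inv, inv_mul_eq_iff_eq_mul, ← mul_assoc, ← hrep g, hg, mul_inv_cancel_right]
    have e2 : (rf g)⁻¹ * f ∈ cl T := hT.int _ (by rw [e1]; exact mul_mem (hrh g) (inv_mem hh))
    have e3 := hθT _ e2
    rw [e1, h1 _ (hHT _ (hrh g)) _ (hHT _ (inv_mem hh)), h1.inv (hHT _ hh), map_mul, map_inv] at e3
    show θN (rf g) * Θ1 (rh g) = θN f * Θ1 h
    have e4 : θN f = θN (rf g) * (Θ1 (rh g) * (Θ1 h)⁻¹) := by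
      rw [← e3]; group
    rw [e4]; group
  have hconj : ∀ h ∈ H, ∀ f ∈ cl (T ∪ S), θN (c h f) = Θ1 h * θN f * (Θ1 h)⁻¹ := by
    intro h hh f hf
    induction hf using Subgroup.closure_induction with
    | mem x hx =>
      obtain ⟨b, hb | hb, rfl⟩ := hx
      · have hbm : of b ∈ cl T := Subgroup.subset_closure ⟨b, hb, rfl⟩
        have hcm : c h (of b) ∈ cl T := by
          obtain ⟨f', hf', e⟩ := hT.conj h hh b hb
          rw [← hc] at e
          rwa [← Am.inj e]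
        rw [hθT _ hcm, hθT _ hbm, hc, h1 _ (mul_mem (hHT h hh) (mem_GT_of_cl hbm)) _
          (inv_mem (hHT h hh)), h1 _ (hHT h hh) _ (mem_GT_of_cl hbm), h1.inv (hHT h hh)]
      · have hbm : of b ∈ cl S := Subgroup.subset_closure ⟨b, hb, rfl⟩
        have hcm : c h (of b) ∈ cl S := by
          obtain ⟨f', hf', e⟩ := hS.conj h hh b hb
          rw [← hc] at e
          rwa [← Am.inj e]
        rw [hθS _ hcm, hθS _ hbm, hc, h2 _ (mul_mem (hHS h hh) (mem_GT_of_cl hbm)) _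
          (inv_mem (hHS h hh)), h2 _ (hHS h hh) _ (mem_GT_of_cl hbm), h2.inv (hHS h hh), hH12 h hh]
    | one => rw [map_one, map_one]; group
    | mul x y _ _ e1 e2 => rw [map_mul, map_mul, e1, e2, map_mul]; group
    | inv x _ e1 => rw [map_inv, map_inv, e1, map_inv]; group
  refine ⟨Θ, ?_, ?_, ?_⟩
  · intro a ha b hb
    obtain ⟨f, hf, h, hh, rfl⟩ := (mem_GT (hT.union hS)).1 ha
    obtain ⟨f', hf', h', hh', rfl⟩ := (mem_GT (hT.union hS)).1 hb
    have e : i f * h * (i f' * h') = i (f * c h f') * (h * h') := by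
      rw [map_mul, hc]; group
    rw [e, key _ _ (mul_mem hh hh'), key _ _ hh, key _ _ hh', map_mul, hconj h hh f' hf',
      h1 _ (hHT h hh) _ (hHT h' hh')]
    group
  · intro g hg
    obtain ⟨f, hf, h, hh, rfl⟩ := (mem_GT hT).1 hg
    rw [key _ _ hh, hθT f hf, h1 _ (mem_GT_of_cl hf) _ (hHT h hh)]
  · intro g hg
    obtain ⟨f, hf, h, hh, rfl⟩ := (mem_GT hS).1 hg
    rw [key _ _ hh, hθS f hf, hH12 h hh, h2 _ (mem_GT_of_cl hf) _ (hHS h hh)]

/-- finite subgroups of the amalgam -/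
theorem fin_conj (Am : Amb i H) (hT : Closed i H T) (hS : Closed i H S) (E : Subgroup G)
    [Finite E] (hE : E ≤ GT i H (T ∪ S)) : ∃ g ∈ GT i H (T ∪ S),
      (∀ e ∈ E, g⁻¹ * e * g ∈ GT i H T) ∨ (∀ e ∈ E, g⁻¹ * e * g ∈ GT i H S) := by
  classical
  set Gh : Subgroup G := GT i H (T ∪ S) with hGh
  have hTG : GT i H T ≤ Gh := GT_mono Set.subset_union_left
  have hSG : GT i H S ≤ Gh := GT_mono Set.subset_union_right
  set A : Subgroup Gh := (GT i H T).subgroupOf Gh with hA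
  set B : Subgroup Gh := (GT i H S).subgroupOf Gh with hB
  have hgen : Subgroup.closure ((A : Set Gh) ∪ B) = ⊤ := by
    set K0 := Subgroup.closure ((A : Set Gh) ∪ B) with hK0
    have h1 : GT i H T ≤ K0.map Gh.subtype := fun g hg =>
      ⟨⟨g, hTG hg⟩, Subgroup.subset_closure (Or.inl hg), rfl⟩
    have h2 : GT i H S ≤ K0.map Gh.subtype := fun g hg =>
      ⟨⟨g, hSG hg⟩, Subgroup.subset_closure (Or.inr hg), rfl⟩
    rw [eq_top_iff]
    rintro ⟨x, hx⟩ -
    obtain ⟨y, hy, e⟩ := (GT_union_le.trans (sup_le h1 h2)) hx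
    have : y = ⟨x, hx⟩ := Subtype.ext e
    rw [← this]
    exact hy
  set e0 : Gh ⧸ (A ⊓ B) := ((1 : Gh) : Gh ⧸ (A ⊓ B)) with he0
  set τ : Equiv.Perm (Set (Gh ⧸ (A ⊓ B))) :=
    { toFun := fun F => symmDiff {e0} F
      invFun := fun F => symmDiff {e0} F
      left_inv := fun F => by
        show symmDiff {e0} (symmDiff {e0} F) = F
        rw [← symmDiff_assoc, symmDiff_self, bot_symmDiff]
      right_inv := fun F => by
        show symmDiff {e0} (symmDiff {e0} F) = F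
        rw [← symmDiff_assoc, symmDiff_self, bot_symmDiff] } with hτ
  set tp : Gh →* Equiv.Perm (Set (Gh ⧸ (A ⊓ B))) := MulAction.toPermHom _ _ with htp
  have htpa : ∀ (x : Gh) F, tp x F = x • F := fun _ _ => rfl
  have hτa : ∀ F, τ F = symmDiff {e0} F := fun _ => rfl
  have hτi : ∀ F, τ⁻¹ F = symmDiff {e0} F := fun _ => rfl
  set Θ1 : G → Equiv.Perm (Set (Gh ⧸ (A ⊓ B))) := fun g => if h : g ∈ Gh then tp ⟨g, h⟩ else 1
    with hΘ1
  set Θ2 : G → Equiv.Perm (Set (Gh ⧸ (A ⊓ B))) :=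
    fun g => if h : g ∈ Gh then τ * tp ⟨g, h⟩ * τ⁻¹ else 1 with hΘ2
  have m1 : MulOn Gh Θ1 := by
    intro a ha b hb
    have e : (⟨a * b, mul_mem ha hb⟩ : Gh) = ⟨a, ha⟩ * ⟨b, hb⟩ := rfl
    simp only [hΘ1, dif_pos ha, dif_pos hb, dif_pos (mul_mem ha hb)]
    rw [e, map_mul]
  have m2 : MulOn Gh Θ2 := by
    intro a ha b hb
    have e : (⟨a * b, mul_mem ha hb⟩ : Gh) = ⟨a, ha⟩ * ⟨b, hb⟩ := rfl
    simp only [hΘ2, dif_pos ha, dif_pos hb, dif_pos (mul_mem ha hb)]
    rw [e, map_mul]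
    group
  have hfix : ∀ x : Gh, x ∈ A ⊓ B → x • e0 = e0 := by
    intro x hx
    have : x • e0 = ((x * 1 : Gh) : Gh ⧸ (A ⊓ B)) := rfl
    rw [this, mul_one, he0, QuotientGroup.eq, mul_one]
    exact inv_mem hx
  obtain ⟨Θ, hΘm, hΘT, hΘS⟩ := ext_union Am hT hS (m1.mono hTG) (m2.mono hSG) (by
    intro g hg1 hg2
    have hg : g ∈ Gh := hTG hg1
    simp only [hΘ1, hΘ2, dif_pos hg]
    apply Equiv.ext
    intro F
    rw [Equiv.Perm.mul_apply, Equiv.Perm.mul_apply, hτa, hτi, htpa, htpa, Set.smul_set_symmDiff,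
      Set.smul_set_singleton, hfix ⟨g, hg⟩ ⟨hg1, hg2⟩, ← symmDiff_assoc, symmDiff_self,
      bot_symmDiff])
  set Δ : Gh →* Equiv.Perm (Set (Gh ⧸ (A ⊓ B))) := MonoidHom.mk' (fun x : Gh => Θ x)
    (fun x y => hΘm x x.2 y y.2) with hΔ
  have hfinE : Finite (E.subgroupOf Gh) := by
    refine Finite.of_injective (β := E) (fun x => ⟨(x : Gh), x.2⟩) ?_
    intro x y h
    apply Subtype.ext
    apply Subtype.ext
    exact congrArg (fun z : E => (z : G)) h
  obtain ⟨g, hg⟩ := amalgam_fix hgen Δ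
    (by
      intro a ha F
      show Θ a F = _
      rw [hΘT a ha]
      simp only [hΘ1, dif_pos a.2]
      rfl)
    (by
      intro b hb F
      show Θ b F = _
      rw [hΘS b hb]
      simp only [hΘ2, dif_pos b.2]
      rw [Equiv.Perm.mul_apply, Equiv.Perm.mul_apply, hτa, hτi, htpa, Set.smul_set_symmDiff,
        ← symmDiff_assoc]
      exact congrArg (fun Z => symmDiff Z (b • F)) (symmDiff_comm {e0} (b • {e0})))
    (E.subgroupOf Gh)
  refine ⟨g, g.2, ?_⟩
  rcases hg with hg | hg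
  · exact Or.inl fun e he => hg ⟨e, hE he⟩ he
  · exact Or.inr fun e he => hg ⟨e, hE he⟩ he

/-- the restriction to every finite subgroup is conjugate to the restriction of `θ` -/
def EE (K : Subgroup G) (θ : G →* P) (Θ : G → P) : Prop :=
  ∀ A : Subgroup G, Finite A → A ≤ K → ∃ φ : P, ∀ a ∈ A, φ * Θ a * φ⁻¹ = θ a

theorem EE_union (Am : Amb i H) (hT : Closed i H T) (hS : Closed i H S) {θ : G →* P} {Θ : G → P}
    (hm : MulOn (GT i H (T ∪ S)) Θ) (h1 : EE (GT i H T) θ Θ) (h2 : EE (GT i H S) θ Θ) :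
    EE (GT i H (T ∪ S)) θ Θ := by
  intro A hAf hA
  obtain ⟨g, hg, hgA⟩ := fin_conj Am hT hS A hA
  set A' : Subgroup G := A.map (MulAut.conj g⁻¹).toMonoidHom with hA'
  have hA'm : ∀ a ∈ A, g⁻¹ * a * g ∈ A' := by
    intro a ha
    refine ⟨a, ha, ?_⟩
    simp
  have hA'f : Finite A' := by
    have h1 : ((A : Set G).image (MulAut.conj g⁻¹).toMonoidHom).Finite :=
      (Set.toFinite (A : Set G)).image _
    exact h1
  have hφ : ∃ φ : P, ∀ a ∈ A', φ * Θ a * φ⁻¹ = θ a := by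
    rcases hgA with hgA | hgA
    · refine h1 A' hA'f ?_
      rintro _ ⟨a, ha, rfl⟩
      have e : (MulAut.conj g⁻¹).toMonoidHom a = g⁻¹ * a * g := by simp
      rw [e]
      exact hgA a ha
    · refine h2 A' hA'f ?_
      rintro _ ⟨a, ha, rfl⟩
      have e : (MulAut.conj g⁻¹).toMonoidHom a = g⁻¹ * a * g := by simp
      rw [e]
      exact hgA a ha
  obtain ⟨φ, hφ⟩ := hφ
  refine ⟨θ g * φ * (Θ g)⁻¹, fun a ha => ?_⟩
  have h3 := hφ _ (hA'm a ha)
  rw [hm _ (mul_mem (inv_mem hg) (hA ha)) _ hg, hm _ (inv_mem hg) _ (hA ha), hm.inv hg, map_mul,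
    map_mul, map_inv] at h3
  calc θ g * φ * (Θ g)⁻¹ * Θ a * (θ g * φ * (Θ g)⁻¹)⁻¹
      = θ g * (φ * ((Θ g)⁻¹ * Θ a * Θ g) * φ⁻¹) * (θ g)⁻¹ := by group
    _ = θ a := by rw [h3]; group

end Pool.Agent.K3h36.LR
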