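import Pool.Agent.K3h36.LR.A12

/-!
# Cuts of the countable pieces
-/

set_option autoImplicit false
set_option linter.unusedSectionVars false
set_option linter.style.haveILetI false

namespace Pool.Agent.K3h36.LR

open scoped Pointwise
open Set
open FreeGroup (of lift lift_apply_of)

variable {G β P : Type} [Group G] [DecidableEq β] [Group P]
variable {i : FreeGroup β →* G} {H : Subgroup G} {T S S' : Set β}

theorem exists_phi (Am : Amb i H) : ∃ (φ : G → FreeGroup β) (t : G → G) (M : G → ℕ),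
    (∀ f g, φ (i f * g) = f * φ g) ∧ (∀ g, t g ∈ H) ∧ (∀ g, g = i (φ g) * t g) ∧
    (∀ f g, t (i f * g) = t g) ∧
    ∀ (u : List (β × Bool)) (s : G), {x : G | φ x ∈ Wt u ∧ φ (x * s) ∉ Wt u}.encard ≤ M s := by
  have hN := Am.norm
  have hNf := Am.fin
  have hcov := Am.cov
  choose rf rh hrh hrep using hcov
  set t : G → G := fun g => rh ((g : G ⧸ i.range)).out with ht
  have htm : ∀ g, t g ∈ H := fun g => hrh _
  have hmk : ∀ (f : FreeGroup β) (g : G), ((i f * g : G) : G ⧸ i.range) = (g : G ⧸ i.range) := by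
    intro f g
    rw [QuotientGroup.eq]
    have h1 := hN.conj_mem (i f)⁻¹ (inv_mem ⟨f, rfl⟩) g⁻¹
    have h2 : g⁻¹ * (i f)⁻¹ * g⁻¹⁻¹ = (i f * g)⁻¹ * g := by group
    rwa [h2] at h1
  have htg : ∀ f g, t (i f * g) = t g := by
    intro f g
    show rh ((((i f * g : G) : G ⧸ i.range)).out) = rh ((g : G ⧸ i.range)).out
    rw [hmk]
  have hex : ∀ g, ∃ f, g = i f * t g := by
    intro g
    obtain ⟨⟨n, hn⟩, e⟩ := QuotientGroup.mk_out_eq_mul i.range g
    have e1 : ((g : G ⧸ i.range)).out = g * n := e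
    have e2 := hrep ((g : G ⧸ i.range)).out
    have e3 : g * (t g)⁻¹ ∈ i.range := by
      have h1 : g * n = i (rf ((g : G ⧸ i.range)).out) * t g := by rw [← e1]; exact e2
      have h2 : g * (t g)⁻¹ = (g * n⁻¹ * g⁻¹) * i (rf ((g : G ⧸ i.range)).out) := by
        have h3 : t g = (i (rf ((g : G ⧸ i.range)).out))⁻¹ * (g * n) := by rw [h1]; group
        rw [h3]; group
      rw [h2]
      exact mul_mem (hN.conj_mem _ (inv_mem hn) g) ⟨_, rfl⟩
    obtain ⟨f, hf⟩ := e3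
    exact ⟨f, by rw [hf]; group⟩
  choose φ hφ using hex
  have hφ1 : ∀ f g, φ (i f * g) = f * φ g := by
    intro f g
    apply Am.inj
    have h1 := hφ (i f * g)
    rw [htg] at h1
    have h2 := hφ g
    have h3 : i (φ (i f * g)) = i f * g * (t g)⁻¹ := by
      conv_rhs => rw [h1]
      group
    have h4 : i (φ g) = g * (t g)⁻¹ := by
      rw [eq_mul_inv_iff_mul_eq]; exact h2.symm
    rw [h3, map_mul, h4, mul_assoc]
  have hφ2 : ∀ g s, φ (g * s) = φ g * φ (t g * s) := by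
    intro g s
    rw [← hφ1, ← mul_assoc, ← hφ g]
  choose n hn using (cross_bound (α := β))
  have : Finite (G ⧸ i.range) := Subgroup.finite_quotient_of_finiteIndex
  have := Fintype.ofFinite (G ⧸ i.range)
  refine ⟨φ, t, fun s => ∑ q : G ⧸ i.range, n (φ (t q.out * s)), hφ1, htm, hφ, htg, ?_⟩
  intro u s
  have h1 : {x : G | φ x ∈ Wt u ∧ φ (x * s) ∉ Wt u} ⊆
      ⋃ q : G ⧸ i.range, (fun y => i y * t q.out) ''
        {y | y ∈ Wt u ∧ y * φ (t q.out * s) ∉ Wt u} := by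
    rintro x ⟨hx1, hx2⟩
    refine Set.mem_iUnion.2 ⟨(x : G ⧸ i.range), φ x, ⟨hx1, ?_⟩, ?_⟩
    · have e : t ((x : G ⧸ i.range)).out = t x := by
        show rh _ = rh _
        rw [QuotientGroup.out_eq']
      rw [e, ← hφ2]
      exact hx2
    · have e : t ((x : G ⧸ i.range)).out = t x := by
        show rh _ = rh _
        rw [QuotientGroup.out_eq']
      show i (φ x) * t ((x : G ⧸ i.range)).out = x
      rw [e, ← hφ x]
  refine (Set.encard_le_encard h1).trans ((Set.encard_iUnion_le_of_fintype _).trans ?_)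
  push_cast
  refine Finset.sum_le_sum fun q _ => ?_
  exact (Set.encard_image_le _ _).trans (hn _ u)

/-- the cut of the subgroup given by a half tree -/
theorem good_cut {Gs : Subgroup G} (K : Subgroup Gs) {φ : G → FreeGroup β} {M : G → ℕ}
    {u : List (β × Bool)}
    (hM : ∀ s : G, {x : G | φ x ∈ Wt u ∧ φ (x * s) ∉ Wt u}.encard ≤ M s)
    (hinv : ∀ x : Gs, ∀ k : Gs, k ∈ K → (φ (x * k) ∈ Wt u ↔ φ x ∈ Wt u)) :
    ∃ C : Set (Gs ⧸ K), Good (fun s : Gs => M s) C ∧ ∀ x : Gs, (x : Gs ⧸ K) ∈ C ↔ φ x ∈ Wt u := by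
  have hmem : ∀ x : Gs, (x : Gs ⧸ K) ∈ {v : Gs ⧸ K | φ (v.out : Gs) ∈ Wt u} ↔ φ x ∈ Wt u := by
    intro x
    obtain ⟨k, hk⟩ := QuotientGroup.mk_out_eq_mul K x
    show φ (((x : Gs ⧸ K)).out : Gs) ∈ Wt u ↔ _
    rw [hk]
    exact hinv x k k.2
  refine ⟨{v : Gs ⧸ K | φ (v.out : Gs) ∈ Wt u}, ?_, hmem⟩
  intro s
  refine le_trans ?_ (hM s)
  have h1 : ((fun x : Gs => (x : G)) '' {x : Gs | (x : Gs ⧸ K) ∈ {v : Gs ⧸ K | φ (v.out : Gs) ∈ Wt u} ∧
      ((x * s : Gs) : Gs ⧸ K) ∉ {v : Gs ⧸ K | φ (v.out : Gs) ∈ Wt u}}) ⊆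
      {x : G | φ x ∈ Wt u ∧ φ (x * s) ∉ Wt u} := by
    rintro _ ⟨x, ⟨hx1, hx2⟩, rfl⟩
    rw [hmem] at hx1 hx2
    exact ⟨hx1, hx2⟩
  rw [← Subtype.val_injective.encard_image]
  exact Set.encard_le_encard h1

theorem Good.smul {G : Type} [Group G] {K : Subgroup G} {N : G → ℕ} {C : Set (G ⧸ K)}
    (hC : Good N C) (g : G) : Good N (g • C) := by
  intro s
  refine le_trans ?_ (hC s)
  have h1 : {x : G | (x : G ⧸ K) ∈ g • C ∧ ((x * s : G) : G ⧸ K) ∉ g • C} ⊆
      (fun x => g * x) '' {x : G | (x : G ⧸ K) ∈ C ∧ ((x * s : G) : G ⧸ K) ∉ C} := by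
    rintro x ⟨h1, h2⟩
    rw [Set.mem_smul_set_iff_inv_smul_mem] at h1 h2
    refine ⟨g⁻¹ * x, ⟨h1, ?_⟩, by simp⟩
    have e : ((g⁻¹ * x * s : G) : G ⧸ K) = g⁻¹ • ((x * s : G) : G ⧸ K) := by
      rw [mul_assoc]; rfl
    rw [e]
    exact h2
  exact (Set.encard_le_encard h1).trans (Set.encard_image_le _ _)

theorem phi_mem (Am : Amb i H) (hS' : Closed i H S') {φ : G → FreeGroup β} {t : G → G}
    (ht : ∀ g, t g ∈ H) (hφ : ∀ g, g = i (φ g) * t g) {g : G} : φ g ∈ cl S' ↔ g ∈ GT i H S' := by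
  constructor
  · intro h
    rw [hφ g]
    exact mul_mem (mem_GT_of_cl h) (H_le_GT (ht g))
  · intro h
    refine cl_of_mem Am hS' ?_
    have : i (φ g) = g * (t g)⁻¹ := by
      rw [eq_mul_inv_iff_mul_eq]; exact (hφ g).symm
    rw [this]
    exact mul_mem h (inv_mem (H_le_GT (ht g)))

theorem cl_countable {S : Set β} (hS : S.Countable) : Countable (cl S) := by
  have : Countable S := hS
  have h1 : cl S ≤ (FreeGroup.map (Subtype.val : S → β)).range := by
    refine (Subgroup.closure_le _).2 ?_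
    rintro _ ⟨b, hb, rfl⟩
    exact ⟨of ⟨b, hb⟩, by simp⟩
  have h2 : ((FreeGroup.map (Subtype.val : S → β)).range : Set (FreeGroup β)).Countable :=
    Set.countable_range _
  exact (h2.mono h1).to_subtype

theorem GT_countable {S : Set β} (hcl : Closed i H S) (hS : S.Countable) (hH : Countable H) :
    Countable (GT i H S) := by
  have := cl_countable hS
  have h1 : ((GT i H S : Subgroup G) : Set G) ⊆
      Set.range (fun p : cl S × H => i p.1 * (p.2 : G)) := by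
    intro g hg
    obtain ⟨f, hf, h, hh, rfl⟩ := (mem_GT hcl).1 hg
    exact ⟨(⟨f, hf⟩, ⟨h, hh⟩), rfl⟩
  exact ((Set.countable_range _).mono h1).to_subtype

theorem sep_cut (Am : Amb i H) (hS' : Closed i H S') : ∃ M : G → ℕ,
    ∀ x y : (GT i H S) ⧸ (GT i H S').subgroupOf (GT i H S), x ≠ y →
      ∃ C : Set ((GT i H S) ⧸ (GT i H S').subgroupOf (GT i H S)),
        Good (fun s : GT i H S => M s) C ∧ x ∈ C ∧ y ∉ C := by
  obtain ⟨φ, t, M, hφ1, ht, hφ, htg, hM⟩ := exists_phi Am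
  have hφ2 : ∀ g s, φ (g * s) = φ g * φ (t g * s) := by
    intro g s
    rw [← hφ1, ← mul_assoc, ← hφ g]
  refine ⟨M, fun x y hxy => ?_⟩
  obtain ⟨a, rfl⟩ := QuotientGroup.mk_surjective x
  obtain ⟨b, rfl⟩ := QuotientGroup.mk_surjective y
  have h1 : ((b⁻¹ * a : GT i H S) : G) ∉ GT i H S' := by
    intro h
    exact hxy (QuotientGroup.eq.2 (show b⁻¹ * a ∈ (GT i H S').subgroupOf (GT i H S) from h)).symm
  have h2 : φ ((b⁻¹ * a : GT i H S) : G) ∉ cl S' := fun h => h1 ((phi_mem Am hS' ht hφ).1 h)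
  obtain ⟨l, u, hl, h3, h4⟩ := exists_Wt h2
  have hinv : ∀ x : GT i H S, ∀ k : GT i H S, k ∈ (GT i H S').subgroupOf (GT i H S) →
      (φ (x * k) ∈ Wt (l :: u) ↔ φ x ∈ Wt (l :: u)) := by
    intro x k hk
    rw [hφ2]
    exact Wt_inv hl ((phi_mem Am hS' ht hφ).2 (mul_mem (H_le_GT (ht _)) hk)) _
  obtain ⟨C, hC1, hC2⟩ := good_cut ((GT i H S').subgroupOf (GT i H S)) (hM (l :: u)) hinv
  refine ⟨b • C, hC1.smul b, ?_, ?_⟩
  · rw [Set.mem_smul_set_iff_inv_smul_mem]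
    have e : b⁻¹ • (a : (GT i H S) ⧸ (GT i H S').subgroupOf (GT i H S)) =
      ((b⁻¹ * a : GT i H S) : (GT i H S) ⧸ (GT i H S').subgroupOf (GT i H S)) := rfl
    rw [e, hC2]
    exact h3
  · rw [Set.mem_smul_set_iff_inv_smul_mem]
    have e : b⁻¹ • (b : (GT i H S) ⧸ (GT i H S').subgroupOf (GT i H S)) =
      ((b⁻¹ * b : GT i H S) : (GT i H S) ⧸ (GT i H S').subgroupOf (GT i H S)) := rfl
    rw [e, hC2, inv_mul_cancel]
    have h5 : φ ((1 : GT i H S) : G) ∈ cl S' := (phi_mem Am hS' ht hφ).2 (one_mem _)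
    have h6 := Wt_inv hl h5 (1 : FreeGroup β) (u := u)
    rw [one_mul] at h6
    rw [h6]
    exact h4

/-- extension to a larger countable piece -/
theorem ext_step (Am : Amb i H) (hH : Countable H) (hS' : Closed i H S') (hS : Closed i H S)
    (hSc : S.Countable) (hle : S' ⊆ S) (θ : G →* P) (Θ' : G → P) (hm : MulOn (GT i H S') Θ')
    (hE : EE (GT i H S') θ Θ') :
    ∃ Θ : G → P, MulOn (GT i H S) Θ ∧ (∀ g ∈ GT i H S', Θ g = Θ' g) ∧ EE (GT i H S) θ Θ := by
  classical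
  obtain ⟨M, hM⟩ := sep_cut (S := S) Am hS'
  have := GT_countable hS hSc hH
  have hle' : GT i H S' ≤ GT i H S := GT_mono hle
  obtain ⟨Θ, h1, h2⟩ := rel_extend (G := GT i H S) (K := (GT i H S').subgroupOf (GT i H S))
    (fun s => M s) hM (θ.comp (GT i H S).subtype) (fun g => Θ' g)
    (fun a ha b hb => hm a ha b hb)
    (by
      intro A hA hAK
      obtain ⟨φ, hφ⟩ := hE (A.map (GT i H S).subtype)
        (((Set.toFinite (A : Set (GT i H S))).image (GT i H S).subtype) :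
          ((A.map (GT i H S).subtype : Subgroup G) : Set G).Finite)
        (by
          rintro _ ⟨a, ha, rfl⟩
          exact hAK ha)
      exact ⟨φ, fun a ha => hφ a ⟨a, ha, rfl⟩⟩)
  refine ⟨fun g => if h : g ∈ GT i H S then Θ ⟨g, h⟩ else 1, ?_, ?_, ?_⟩
  · intro a ha b hb
    have e : (⟨a * b, mul_mem ha hb⟩ : GT i H S) = ⟨a, ha⟩ * ⟨b, hb⟩ := rfl
    simp only [dif_pos ha, dif_pos hb, dif_pos (mul_mem ha hb)]
    rw [e, map_mul]
  · intro g hg
    simp only [dif_pos (hle' hg)]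
    exact h1 ⟨g, hle' hg⟩ hg
  · intro A hA hAS
    have hfinE : Finite (A.subgroupOf (GT i H S)) := by
      refine Finite.of_injective (β := A) (fun x => ⟨(x : GT i H S), x.2⟩) ?_
      intro x y h
      apply Subtype.ext
      apply Subtype.ext
      exact congrArg (fun z : A => (z : G)) h
    obtain ⟨φ, hφ⟩ := h2 (A.subgroupOf (GT i H S)) hfinE
    refine ⟨φ, fun a ha => ?_⟩
    simp only [dif_pos (hAS ha)]
    exact hφ ⟨a, hAS ha⟩ ha

end Pool.Agent.K3h36.LR
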