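import Pool.Agent.K3h36.LR.A13

/-!
# Extension to the whole group
-/

set_option autoImplicit false
set_option linter.unusedSectionVars false
set_option linter.style.haveILetI false

namespace Pool.Agent.K3h36.LR

open scoped Pointwise
open Set
open FreeGroup (of lift lift_apply_of)

variable {G β P : Type} [Group G] [DecidableEq β] [Group P]
variable {i : FreeGroup β →* G} {H : Subgroup G} {T S S0 : Set β}

theorem EE.congr {K : Subgroup G} {θ : G →* P} {Θ Θ' : G → P} (h : EE K θ Θ)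
    (he : ∀ g ∈ K, Θ' g = Θ g) : EE K θ Θ' := by
  intro A hA hAK
  obtain ⟨φ, hφ⟩ := h A hA hAK
  exact ⟨φ, fun a ha => by rw [he a (hAK ha)]; exact hφ a ha⟩

theorem EE.mono {K K' : Subgroup G} {θ : G →* P} {Θ : G → P} (h : EE K θ Θ) (hle : K' ≤ K) :
    EE K' θ Θ := fun A hA hAK => h A hA (hAK.trans hle)

theorem MulOn.congr {K : Subgroup G} {Θ Θ' : G → P} (h : MulOn K Θ) (he : ∀ g ∈ K, Θ' g = Θ g) :
    MulOn K Θ' := by
  intro a ha b hb
  rw [he a ha, he b hb, he _ (mul_mem ha hb)]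
  exact h a ha b hb

theorem zorn_ext (Am : Amb i H) (hH : Countable H) (hS0 : Closed i H S0) (θ : G →* P) (Θ0 : G → P)
    (h1 : MulOn (GT i H S0) Θ0) (h2 : EE (GT i H S0) θ Θ0) :
    ∃ Θ : G → P, MulOn (GT i H Set.univ) Θ ∧ ∀ g ∈ GT i H S0, Θ g = Θ0 g := by
  classical
  set α := {p : Set β × (G → P) // Closed i H p.1 ∧ S0 ⊆ p.1 ∧ MulOn (GT i H p.1) p.2 ∧
    EE (GT i H p.1) θ p.2 ∧ ∀ g ∈ GT i H S0, p.2 g = Θ0 g} with hα
  set r : α → α → Prop := fun p q => p.1.1 ⊆ q.1.1 ∧ ∀ g ∈ GT i H p.1.1, q.1.2 g = p.1.2 g with hr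
  have hrefl : ∀ p : α, r p p := fun p => ⟨subset_rfl, fun _ _ => rfl⟩
  have htrans : ∀ {a b c : α}, r a b → r b c → r a c := by
    intro a b c hab hbc
    exact ⟨hab.1.trans hbc.1, fun g hg => (hbc.2 g (GT_mono hab.1 hg)).trans (hab.2 g hg)⟩
  have hub : ∀ c : Set α, IsChain r c → ∃ ub, ∀ a ∈ c, r a ub := by
    intro c hc
    by_cases hne : c.Nonempty
    · obtain ⟨p0, hp0⟩ := hne
      have hcomp : ∀ p ∈ c, ∀ q ∈ c, r p q ∨ r q p := by
        intro p hp q hq
        by_cases h : p = q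
        · exact Or.inl (h ▸ hrefl p)
        · exact hc hp hq h
      set U : Set β := ⋃ p ∈ c, p.1.1 with hU
      have hsub : ∀ p ∈ c, p.1.1 ⊆ U := fun p hp b hb => Set.mem_biUnion hp hb
      have hcl : ∀ f ∈ cl U, ∃ p ∈ c, f ∈ cl p.1.1 := by
        intro f hf
        induction hf using Subgroup.closure_induction with
        | mem x hx =>
          obtain ⟨b, hb, rfl⟩ := hx
          obtain ⟨p, hp, hb'⟩ := Set.mem_iUnion₂.1 hb
          exact ⟨p, hp, Subgroup.subset_closure ⟨b, hb', rfl⟩⟩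
        | one => exact ⟨p0, hp0, one_mem _⟩
        | mul x y _ _ hx hy =>
          obtain ⟨p, hp, hx⟩ := hx
          obtain ⟨q, hq, hy⟩ := hy
          rcases hcomp p hp q hq with h | h
          · exact ⟨q, hq, mul_mem (cl_mono h.1 hx) hy⟩
          · exact ⟨p, hp, mul_mem hx (cl_mono h.1 hy)⟩
        | inv x _ hx =>
          obtain ⟨p, hp, hx⟩ := hx
          exact ⟨p, hp, inv_mem hx⟩
      have hUc : Closed i H U := by
        refine ⟨?_, ?_⟩
        · intro h hh b hb
          obtain ⟨p, hp, hb'⟩ := Set.mem_iUnion₂.1 hb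
          obtain ⟨f, hf, e⟩ := p.2.1.conj h hh b hb'
          exact ⟨f, cl_mono (hsub p hp) hf, e⟩
        · intro f hf
          exact cl_mono (hsub p0 hp0) (p0.2.1.int f hf)
      have hGT : ∀ g ∈ GT i H U, ∃ p ∈ c, g ∈ GT i H p.1.1 := by
        intro g hg
        obtain ⟨f, hf, h, hh, rfl⟩ := (mem_GT hUc).1 hg
        obtain ⟨p, hp, hf'⟩ := hcl f hf
        exact ⟨p, hp, mul_mem (mem_GT_of_cl hf') (H_le_GT hh)⟩
      set Θ : G → P := fun g => if h : ∃ p ∈ c, g ∈ GT i H p.1.1 then h.choose.1.2 g else 1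
        with hΘ
      have hΘp : ∀ p ∈ c, ∀ g ∈ GT i H p.1.1, Θ g = p.1.2 g := by
        intro p hp g hg
        have hex : ∃ p ∈ c, g ∈ GT i H p.1.1 := ⟨p, hp, hg⟩
        have h3 : Θ g = hex.choose.1.2 g := dif_pos hex
        rw [h3]
        obtain ⟨h4, h5⟩ := hex.choose_spec
        rcases hcomp _ h4 p hp with h | h
        · exact (h.2 g h5).symm
        · exact h.2 g hg
      have hfin : ∀ s : Finset G, (∀ a ∈ s, a ∈ GT i H U) → ∃ p ∈ c, ∀ a ∈ s, a ∈ GT i H p.1.1 := by
        intro s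
        induction s using Finset.induction_on with
        | empty => exact fun _ => ⟨p0, hp0, fun a ha => absurd ha (Finset.notMem_empty a)⟩
        | insert a s _ ih =>
          intro h
          obtain ⟨p, hp, hps⟩ := ih fun b hb => h b (Finset.mem_insert_of_mem hb)
          obtain ⟨q, hq, hqa⟩ := hGT a (h a (Finset.mem_insert_self a s))
          rcases hcomp p hp q hq with h' | h'
          · refine ⟨q, hq, fun b hb => ?_⟩
            rcases Finset.mem_insert.1 hb with rfl | hb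
            · exact hqa
            · exact GT_mono h'.1 (hps b hb)
          · refine ⟨p, hp, fun b hb => ?_⟩
            rcases Finset.mem_insert.1 hb with rfl | hb
            · exact GT_mono h'.1 hqa
            · exact hps b hb
      have hmU : MulOn (GT i H U) Θ := by
        intro a ha b hb
        obtain ⟨p, hp, hpp⟩ := hfin {a, b} (by
          intro x hx
          rcases Finset.mem_insert.1 hx with rfl | hx
          · exact ha
          · rw [Finset.mem_singleton.1 hx]; exact hb)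
        have ha' := hpp a (Finset.mem_insert_self _ _)
        have hb' := hpp b (Finset.mem_insert_of_mem (Finset.mem_singleton_self b))
        rw [hΘp p hp a ha', hΘp p hp b hb', hΘp p hp _ (mul_mem ha' hb')]
        exact p.2.2.2.1 a ha' b hb'
      have hEU : EE (GT i H U) θ Θ := by
        intro A hA hAU
        have hAf : (A : Set G).Finite := Set.toFinite _
        obtain ⟨p, hp, hpp⟩ := hfin hAf.toFinset (fun a ha => hAU (hAf.mem_toFinset.1 ha))
        have hAp : A ≤ GT i H p.1.1 := fun a ha => hpp a (hAf.mem_toFinset.2 ha)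
        exact (p.2.2.2.2.1.congr (hΘp p hp)) A hA hAp
      refine ⟨⟨(U, Θ), hUc, p0.2.2.1.trans (hsub p0 hp0), hmU, hEU, ?_⟩, ?_⟩
      · intro g hg
        show Θ g = Θ0 g
        rw [hΘp p0 hp0 g (GT_mono p0.2.2.1 hg)]
        exact p0.2.2.2.2.2 g hg
      · intro p hp
        exact ⟨hsub p hp, hΘp p hp⟩
    · exact ⟨⟨(S0, Θ0), hS0, subset_rfl, h1, h2, fun _ _ => rfl⟩, fun a ha => absurd ⟨a, ha⟩ hne⟩
  obtain ⟨m, hm⟩ := exists_maximal_of_chains_bounded hub htrans
  have huniv : m.1.1 = Set.univ := by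
    rw [Set.eq_univ_iff_forall]
    intro b
    obtain ⟨S, hbS, hSc, hScl⟩ := exists_closed Am hH {b} (Set.countable_singleton b)
    have hcap := m.2.1.inter Am hScl
    obtain ⟨Θ1, a1, a2, a3⟩ := ext_step Am hH hcap hScl hSc Set.inter_subset_right θ m.1.2
      (m.2.2.2.1.mono (GT_mono Set.inter_subset_left))
      (m.2.2.2.2.1.mono (GT_mono Set.inter_subset_left))
    obtain ⟨Θ2, b1, b2, b3⟩ := ext_union Am m.2.1 hScl m.2.2.2.1 a1
      (fun g hg1 hg2 => (a2 g (GT_inter Am m.2.1 hScl hg1 hg2)).symm)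
    have hEE := EE_union Am m.2.1 hScl (θ := θ) b1 (m.2.2.2.2.1.congr b2) (a3.congr b3)
    have h3 := hm ⟨(m.1.1 ∪ S, Θ2), m.2.1.union hScl, m.2.2.1.trans Set.subset_union_left, b1, hEE,
      fun g hg => (b2 g (GT_mono m.2.2.1 hg)).trans (m.2.2.2.2.2 g hg)⟩
      ⟨Set.subset_union_left, b2⟩
    exact h3.1 (Or.inr (hbS rfl))
  refine ⟨m.1.2, ?_, m.2.2.2.2.2⟩
  have := m.2.2.2.1
  rwa [huniv] at this

end Pool.Agent.K3h36.LR
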