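import Pool.Agent.K3h36.LR.A13

/-!
# The permutation representation of a countable piece
-/

set_option autoImplicit false
set_option linter.unusedSectionVars false
set_option linter.style.haveILetI false

namespace Pool.Agent.K3h36.LR

open scoped Pointwise
open Set
open FreeGroup (of lift lift_apply_of)
open Pool.Agent.H97R3.VR (IsMedian Btw Square IsConvex Par Step IsSpecialAction Dat)

section one

variable {G β : Type} [Group G] [DecidableEq β]
variable {i : FreeGroup β →* G} {H : Subgroup G} {T S S0 : Set β}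

theorem fg_subgroupOf {G0 : Subgroup G} (hle : H ≤ G0) (hfg : H.FG) : (H.subgroupOf G0).FG := by
  have h1 : Group.FG H := (Group.fg_iff_subgroup_fg H).2 hfg
  rw [← Group.fg_iff_subgroup_fg]
  exact Group.fg_of_surjective (f := (Subgroup.subgroupOfEquivOfLe hle).symm.toMonoidHom)
    (Subgroup.subgroupOfEquivOfLe hle).symm.surjective

theorem abs_dat (Am : Amb i H) (hfg : H.FG) (hH : Countable H) (hS0 : Closed i H S0)
    (hS0c : S0.Countable) :
    ∃ (W : Type) (_ : MulAction (GT i H S0) W) (X : SimpleGraph W) (C : Set W) (c0 : W)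
      (T : Set W), Dat X (i.range.subgroupOf (GT i H S0)) (H.subgroupOf (GT i H S0)) C ∧
      c0 ∈ C ∧ T.Finite ∧ (∀ x ∈ C, ∃ h ∈ H.subgroupOf (GT i H S0), h • x ∈ T) ∧
      ∀ A : Subgroup (GT i H S0), Finite A → ∃ v : W, ∀ a ∈ A, a • v = v := by
  have := GT_countable hS0 hS0c hH
  obtain ⟨φ, t, M, hφ1, ht, hφ, htg, hM⟩ := exists_phi Am
  have ht1 : t (t 1) = t 1 := by
    have h1 := hφ 1
    have h2 := htg (φ 1) (t 1)
    rw [← h1] at h2
    exact h2.symm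
  have hφt : φ (t 1) = 1 := by
    apply Am.inj
    have h1 := hφ (t 1)
    rw [ht1] at h1
    rw [map_one]
    exact right_eq_mul.1 h1
  have ht1G : t 1 ∈ GT i H S0 := H_le_GT (ht 1)
  obtain ⟨𝓔, hF, hsep⟩ := abs_family (G := GT i H S0) (fun s => M s)
    {g | (g : G) ∈ i.range ∧ g ≠ 1} (by
      rintro ⟨g, hgS⟩ ⟨⟨f, hf⟩, hne⟩
      have hf1 : f ≠ 1 := by
        rintro rfl
        apply hne
        apply Subtype.ext
        rw [map_one] at hf
        exact hf.symm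
      obtain ⟨u, -, hu⟩ := exists_ends hf1
      obtain ⟨C, hC1, hC2⟩ := good_cut (⊥ : Subgroup (GT i H S0)) (hM u) (by
        intro x k hk
        rw [Subgroup.mem_bot] at hk
        rw [hk]
        simp)
      refine ⟨((⟨t 1, ht1G⟩ : GT i H S0) : (GT i H S0) ⧸ (⊥ : Subgroup (GT i H S0))), ?_, C, hC1, ?_⟩
      · intro k l hkl
        have h1 : (((⟨g, hgS⟩ : GT i H S0) ^ k * ⟨t 1, ht1G⟩ : GT i H S0) :
            (GT i H S0) ⧸ (⊥ : Subgroup (GT i H S0))) =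
            (((⟨g, hgS⟩ : GT i H S0) ^ l * ⟨t 1, ht1G⟩ : GT i H S0) :
            (GT i H S0) ⧸ (⊥ : Subgroup (GT i H S0))) := hkl
        rw [QuotientGroup.eq, Subgroup.mem_bot, inv_mul_eq_one] at h1
        have h2 := mul_right_cancel h1
        have h3 : g ^ k = g ^ l := by
          have := congrArg (Subtype.val) h2
          simpa using this
        change i f = g at hf
        rw [← hf, ← map_zpow, ← map_zpow] at h3
        have h4 := Am.inj h3
        have h5 : f ^ (k - l) = 1 := by rw [zpow_sub, h4, mul_inv_cancel]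
        have h6 := (IsMulTorsionFree.zpow_eq_one_iff_right hf1).1 h5
        omega
      · intro k
        have e : ∀ (g' : GT i H S0) (f' : FreeGroup β), i f' = g' → ∀ n : ℕ,
            (g' ^ n • ((⟨t 1, ht1G⟩ : GT i H S0) : (GT i H S0) ⧸ (⊥ : Subgroup (GT i H S0))) ∈ C ↔
              f' ^ n ∈ Wt u) := by
          intro g' f' hg' n
          have e1 : g' ^ n • ((⟨t 1, ht1G⟩ : GT i H S0) :
              (GT i H S0) ⧸ (⊥ : Subgroup (GT i H S0))) =
              ((g' ^ n * ⟨t 1, ht1G⟩ : GT i H S0) : (GT i H S0) ⧸ (⊥ : Subgroup (GT i H S0))) := rfl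
          rw [e1, hC2]
          have e2 : ((g' ^ n * ⟨t 1, ht1G⟩ : GT i H S0) : G) = i (f' ^ n) * t 1 := by
            rw [map_pow, hg']
            simp
          rw [e2, hφ1, hφt, mul_one]
        constructor
        · rw [e _ f hf]
          exact (hu k).1
        · rw [e _ f⁻¹ (by rw [map_inv, hf]; rfl)]
          exact (hu k).2)
  exact exists_dat hF ((1 : GT i H S0) : (GT i H S0) ⧸ (⊥ : Subgroup (GT i H S0)))
    (fun g hg hne => hsep g ⟨hg, hne⟩) (fg_subgroupOf H_le_GT hfg)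

end one

/-- the hom to permutations given by an action -/
def permOf {A Z : Type} [Group A] (f : A → Z → Z) (h1 : ∀ z, f 1 z = z)
    (hm : ∀ a b z, f (a * b) z = f a (f b z)) : A →* Equiv.Perm Z where
  toFun a :=
    { toFun := f a
      invFun := f a⁻¹
      left_inv := fun z => by rw [← hm, inv_mul_cancel, h1]
      right_inv := fun z => by rw [← hm, mul_inv_cancel, h1] }
  map_one' := Equiv.ext h1
  map_mul' a b := Equiv.ext (hm a b)

theorem permOf_apply {A Z : Type} [Group A] (f : A → Z → Z) (h1 : ∀ z, f 1 z = z)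
    (hm : ∀ a b z, f (a * b) z = f a (f b z)) (a : A) (z : Z) : permOf f h1 hm a z = f a z := rfl

section two

variable {G : Type} [Group G] {N H G0 : Subgroup G} {W : Type} [MulAction G0 W]
  {X : SimpleGraph W} {C : Set W}

theorem perm_rep [hN : N.Normal] [N.FiniteIndex] (hle : H ≤ G0)
    (hcov : ∀ g : G, ∃ a ∈ G0, (a : G ⧸ N) = (g : G ⧸ N))
    (D : Dat X (N.subgroupOf G0) (H.subgroupOf G0) C) {c0 : W} (hc0 : c0 ∈ C) {T : Set W}
    (hT : T.Finite) (hTcov : ∀ x ∈ C, ∃ h ∈ H.subgroupOf G0, h • x ∈ T)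
    (hfix : ∀ A : Subgroup G0, Finite A → ∃ v : W, ∀ a ∈ A, a • v = v) :
    ∃ (Z : Type) (η : H →* Equiv.Perm Z) (z0 : Z) (T' : Set Z)
      (θ : G →* Subgroup.centralizer (Set.range η))
      (Θ0 : G → Subgroup.centralizer (Set.range η)), (∀ h z, η h z = z → h = 1) ∧
      T'.Finite ∧ (∀ z, ∃ h, η h z ∈ T') ∧ MulOn G0 Θ0 ∧ EE G0 θ Θ0 ∧
      ∀ h : H, ((Θ0 (h : G)⁻¹ : Subgroup.centralizer (Set.range η)) : Equiv.Perm Z) z0 = η h z0 := by
  classical
  have hrep : ∀ b : G ⧸ N, ∃ a : G0, ((a : G) : G ⧸ N) = b := by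
    intro b
    obtain ⟨g, rfl⟩ := QuotientGroup.mk_surjective b
    obtain ⟨a, ha, e⟩ := hcov g
    exact ⟨⟨a, ha⟩, e⟩
  choose rep hrep using hrep
  set FQ : G ⧸ N → W → Equiv.Perm C := fun b => D.F c0 (rep b) with hFQ
  have hFQa : ∀ (a : G0) (v : W), FQ ((a : G) : G ⧸ N) v = D.F c0 a v := by
    intro a v
    have h1 : a * (rep ((a : G) : G ⧸ N))⁻¹ ∈ N.subgroupOf G0 := by
      show (a : G) * ((rep ((a : G) : G ⧸ N) : G0) : G)⁻¹ ∈ N
      have h2 := hrep ((a : G) : G ⧸ N)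
      rw [QuotientGroup.eq] at h2
      have h3 := hN.conj_mem _ h2 (a : G)
      have h4 : (a : G) * ((((rep ((a : G) : G ⧸ N) : G0) : G)⁻¹ * (a : G))) * (a : G)⁻¹ =
        (a : G) * ((rep ((a : G) : G ⧸ N) : G0) : G)⁻¹ := by group
      rwa [h4] at h3
    have h2 := D.F1 c0 h1 (rep ((a : G) : G ⧸ N)) v
    rw [inv_mul_cancel_right] at h2
    exact h2.symm
  have hFQ0 : ∀ b, FQ b c0 = 1 := fun b => D.F0 c0 _
  have hFQ2 : ∀ (b : G ⧸ N) (g : G0) (v : W),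
      FQ b (g • v) = FQ (b * ((g : G) : G ⧸ N)) v * FQ b (g • c0) := by
    intro b g v
    have h1 : b * ((g : G) : G ⧸ N) = (((rep b * g : G0) : G) : G ⧸ N) := by
      conv_lhs => rw [← hrep b]
      rfl
    rw [h1, hFQa]
    exact D.F2 c0 (rep b) g v
  have hmemC : ∀ (h : H) (x : C), (⟨(h : G), hle h.2⟩ : G0) • (x : W) ∈ C := fun h x =>
    D.hH ⟨(h : G), hle h.2⟩ h.2 x x.2
  have hFQ3 : ∀ (h : H) (b : G ⧸ N) (v : W) (x : C),
      FQ (((h : G) : G ⧸ N) * b) v ⟨(⟨(h : G), hle h.2⟩ : G0) • (x : W), hmemC h x⟩ =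
        ⟨(⟨(h : G), hle h.2⟩ : G0) • ((FQ b v x : C) : W), hmemC h _⟩ := by
    intro h b v x
    have h1 : ((h : G) : G ⧸ N) * b = ((((⟨(h : G), hle h.2⟩ : G0) * rep b : G0) : G) : G ⧸ N) := by
      conv_lhs => rw [← hrep b]
      rfl
    rw [h1, hFQa]
    exact D.F3 c0 (h := ⟨(h : G), hle h.2⟩) h.2 (rep b) v x
  have hFQ4 : ∀ v : C, FQ 1 v ⟨c0, hc0⟩ = v := by
    intro v
    have h1 : (1 : G ⧸ N) = (((1 : G0) : G) : G ⧸ N) := rfl
    rw [h1, hFQa]
    exact D.F4 c0 hc0 _ v rfl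
  -- the set
  let Z : Type := C × (G ⧸ N)
  let η : H →* Equiv.Perm Z := permOf
    (fun h z => (⟨(⟨(h : G), hle h.2⟩ : G0) • (z.1 : W), hmemC h z.1⟩, ((h : G) : G ⧸ N) * z.2))
    (fun z => by
      refine Prod.ext (Subtype.ext ?_) ?_
      · exact one_smul G0 _
      · exact one_mul _)
    (fun a b z => by
      refine Prod.ext (Subtype.ext ?_) ?_
      · exact mul_smul (⟨(a : G), hle a.2⟩ : G0) ⟨(b : G), hle b.2⟩ _
      · show (((a : G) * (b : G) : G) : G ⧸ N) * z.2 =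
          ((a : G) : G ⧸ N) * (((b : G) : G ⧸ N) * z.2)
        rw [QuotientGroup.mk_mul, mul_assoc])
  have hη : ∀ (h : H) (z : Z), η h z =
    (⟨(⟨(h : G), hle h.2⟩ : G0) • (z.1 : W), hmemC h z.1⟩, ((h : G) : G ⧸ N) * z.2) :=
    fun _ _ => rfl
  let θ1 : G →* Equiv.Perm Z := permOf (fun g z => (z.1, z.2 * ((g : G) : G ⧸ N)⁻¹))
    (fun z => by
      refine Prod.ext rfl ?_
      show z.2 * (((1 : G) : G ⧸ N))⁻¹ = z.2
      rw [QuotientGroup.mk_one, inv_one, mul_one])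
    (fun a b z => by
      refine Prod.ext rfl ?_
      show z.2 * (((a * b : G) : G ⧸ N))⁻¹ = z.2 * ((b : G) : G ⧸ N)⁻¹ * ((a : G) : G ⧸ N)⁻¹
      rw [QuotientGroup.mk_mul, mul_inv_rev, mul_assoc])
  have hθ1 : ∀ (g : G) (z : Z), θ1 g z = (z.1, z.2 * ((g : G) : G ⧸ N)⁻¹) := fun _ _ => rfl
  let Θ1 : G0 →* Equiv.Perm Z := permOf
    (fun g z => (FQ z.2 (g⁻¹ • c0) z.1, z.2 * ((g : G) : G ⧸ N)⁻¹))
    (fun z => by
      refine Prod.ext ?_ ?_
      · show FQ z.2 ((1 : G0)⁻¹ • c0) z.1 = z.1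
        rw [inv_one, one_smul, hFQ0]
        rfl
      · show z.2 * (((1 : G) : G ⧸ N))⁻¹ = z.2
        rw [QuotientGroup.mk_one, inv_one, mul_one])
    (fun a b z => by
      refine Prod.ext ?_ ?_
      · show FQ z.2 ((a * b)⁻¹ • c0) z.1 =
          FQ (z.2 * ((b : G) : G ⧸ N)⁻¹) (a⁻¹ • c0) (FQ z.2 (b⁻¹ • c0) z.1)
        rw [mul_inv_rev, mul_smul, hFQ2]
        rfl
      · show z.2 * (((a * b : G) : G ⧸ N))⁻¹ = z.2 * ((b : G) : G ⧸ N)⁻¹ * ((a : G) : G ⧸ N)⁻¹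
        rw [QuotientGroup.mk_mul, mul_inv_rev, mul_assoc])
  have hΘ1 : ∀ (g : G0) (z : Z),
    Θ1 g z = (FQ z.2 (g⁻¹ • c0) z.1, z.2 * ((g : G) : G ⧸ N)⁻¹) := fun _ _ => rfl
  have hcθ : ∀ g, θ1 g ∈ Subgroup.centralizer (Set.range η) := by
    intro g
    rw [Subgroup.mem_centralizer_iff]
    rintro _ ⟨h, rfl⟩
    apply Equiv.ext
    intro z
    rw [Equiv.Perm.mul_apply, Equiv.Perm.mul_apply, hη, hθ1, hθ1, hη]
    refine Prod.ext rfl ?_
    exact (mul_assoc _ _ _).symm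
  have hcΘ : ∀ g, Θ1 g ∈ Subgroup.centralizer (Set.range η) := by
    intro g
    rw [Subgroup.mem_centralizer_iff]
    rintro _ ⟨h, rfl⟩
    apply Equiv.ext
    intro z
    rw [Equiv.Perm.mul_apply, Equiv.Perm.mul_apply, hη, hΘ1, hΘ1, hη]
    refine Prod.ext ?_ ?_
    · exact (hFQ3 h z.2 (g⁻¹ • c0) z.1).symm
    · exact (mul_assoc _ _ _).symm
  let θ : G →* Subgroup.centralizer (Set.range η) := θ1.codRestrict _ hcθ
  let Θ2 : G0 →* Subgroup.centralizer (Set.range η) := Θ1.codRestrict _ hcΘ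
  refine ⟨Z, η, (⟨c0, hc0⟩, 1), {z | ((z.1 : C) : W) ∈ T}, θ,
    fun g => if h : g ∈ G0 then Θ2 ⟨g, h⟩ else 1, ?_, ?_, ?_, ?_, ?_, ?_⟩
  · intro h z hz
    rw [hη] at hz
    have h1 : (⟨(h : G), hle h.2⟩ : G0) • (z.1 : W) = z.1 :=
      congrArg (fun z : Z => (z.1 : W)) hz
    have h2 : ((h : G) : G ⧸ N) * z.2 = z.2 := congrArg Prod.snd hz
    have h3 : ((h : G) : G ⧸ N) = 1 := mul_eq_right.1 h2
    have h4 : (h : G) ∈ N := (QuotientGroup.eq_one_iff _).1 h3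
    have h5 := D.hN.free ⟨(h : G), hle h.2⟩ h4 _ h1
    apply Subtype.ext
    exact congrArg (fun x : G0 => (x : G)) h5
  · have hfQ : Finite (G ⧸ N) := Subgroup.finite_quotient_of_finiteIndex
    have h1 : ((Subtype.val : C → W) ⁻¹' T).Finite := hT.preimage Subtype.val_injective.injOn
    refine (h1.prod (Set.finite_univ (α := G ⧸ N))).subset ?_
    rintro ⟨x, b⟩ hx
    exact ⟨hx, Set.mem_univ _⟩
  · rintro ⟨x, b⟩
    obtain ⟨h, hh, hx⟩ := hTcov x x.2
    exact ⟨⟨(h : G), hh⟩, hx⟩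
  · intro a ha b hb
    have e : (⟨a * b, mul_mem ha hb⟩ : G0) = ⟨a, ha⟩ * ⟨b, hb⟩ := rfl
    simp only [dif_pos ha, dif_pos hb, dif_pos (mul_mem ha hb)]
    rw [e, map_mul]
  · intro A hA hAG
    have hfinE : Finite (A.subgroupOf G0) := by
      refine Finite.of_injective (β := A) (fun x => ⟨(x : G0), x.2⟩) ?_
      intro x y h
      apply Subtype.ext
      apply Subtype.ext
      exact congrArg (fun z : A => (z : G)) h
    obtain ⟨v, hv⟩ := hfix (A.subgroupOf G0) hfinE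
    let φ1 : Equiv.Perm Z :=
      { toFun := fun z => (FQ z.2 v z.1, z.2)
        invFun := fun z => ((FQ z.2 v)⁻¹ z.1, z.2)
        left_inv := fun z => Prod.ext ((FQ z.2 v).symm_apply_apply _) rfl
        right_inv := fun z => Prod.ext ((FQ z.2 v).apply_symm_apply _) rfl }
    have hφ1 : ∀ z : Z, φ1 z = (FQ z.2 v z.1, z.2) := fun _ => rfl
    have hcφ : φ1 ∈ Subgroup.centralizer (Set.range η) := by
      rw [Subgroup.mem_centralizer_iff]
      rintro _ ⟨h, rfl⟩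
      apply Equiv.ext
      intro z
      rw [Equiv.Perm.mul_apply, Equiv.Perm.mul_apply, hη, hφ1, hφ1, hη]
      refine Prod.ext ?_ rfl
      exact (hFQ3 h z.2 v z.1).symm
    refine ⟨⟨φ1, hcφ⟩, fun a ha => ?_⟩
    have haG := hAG ha
    simp only [dif_pos haG]
    rw [mul_inv_eq_iff_eq_mul]
    apply Subtype.ext
    show φ1 * Θ1 ⟨a, haG⟩ = θ1 a * φ1
    apply Equiv.ext
    intro z
    rw [Equiv.Perm.mul_apply, Equiv.Perm.mul_apply, hφ1, hφ1, hΘ1, hθ1]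
    refine Prod.ext ?_ rfl
    have h1 := hFQ2 z.2 (⟨a, haG⟩ : G0)⁻¹ v
    have h2 : (⟨a, haG⟩ : G0)⁻¹ • v = v := by
      rw [inv_smul_eq_iff]
      exact (hv ⟨a, haG⟩ ha).symm
    rw [h2] at h1
    have h3 := congrArg (fun p : Equiv.Perm C => p z.1) h1
    exact h3.symm
  · intro h
    have hG0 : ((h : G))⁻¹ ∈ G0 := inv_mem (hle h.2)
    simp only [dif_pos hG0]
    show Θ1 ⟨((h : G))⁻¹, hG0⟩ (⟨c0, hc0⟩, 1) = η h (⟨c0, hc0⟩, 1)
    rw [hΘ1, hη]
    have e1 : (⟨((h : G))⁻¹, hG0⟩ : G0)⁻¹ = ⟨(h : G), hle h.2⟩ := Subtype.ext (inv_inv _)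
    refine Prod.ext ?_ ?_
    · show FQ 1 ((⟨((h : G))⁻¹, hG0⟩ : G0)⁻¹ • c0) ⟨c0, hc0⟩ = _
      rw [e1]
      exact hFQ4 ⟨(⟨(h : G), hle h.2⟩ : G0) • c0, hmemC h ⟨c0, hc0⟩⟩
    · show 1 * ((((h : G)⁻¹ : G) : G ⧸ N))⁻¹ = ((h : G) : G ⧸ N) * 1
      rw [QuotientGroup.mk_inv, inv_inv, one_mul, mul_one]

end two

end Pool.Agent.K3h36.LR
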