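import Pool.Agent.K3h36.LR.A14
import Pool.Agent.K3h36.LR.A15

/-!
# Finitely generated subgroups of virtually free groups are virtual retracts
-/

set_option autoImplicit false
set_option linter.unusedSectionVars false
set_option linter.style.haveILetI false

namespace Pool.Agent.K3h36.LR

open scoped Pointwise
open Set
open FreeGroup (of lift lift_apply_of)

theorem countable_of_fg {G : Type} [Group G] {H : Subgroup G} (hfg : H.FG) : Countable H := by
  have h1 : Group.FG H := (Group.fg_iff_subgroup_fg H).2 hfg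
  obtain ⟨S, hS, φ, hφ⟩ := Group.fg_iff_exists_freeGroup_hom_surjective.1 h1
  have hSf : Finite S := hS
  exact hφ.countable

section final

variable {G β : Type} [Group G] [DecidableEq β] {i : FreeGroup β →* G} {H : Subgroup G}

theorem virt (Am : Amb i H) (hfg : H.FG) :
    ∃ K : Subgroup G, K.FiniteIndex ∧ H ≤ K ∧ ∃ ρ : K →* G, (∀ k : K, ρ k ∈ H) ∧
      ∀ h : G, ∀ hk : h ∈ K, h ∈ H → ρ ⟨h, hk⟩ = h := by
  classical
  have hH : Countable H := countable_of_fg hfg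
  have hN := Am.norm
  have hNf := Am.fin
  obtain ⟨S0, -, hS0c, hS0⟩ := exists_closed Am hH ∅ Set.countable_empty
  obtain ⟨W, inst, X, C, c0, T, D, hc0, hT, hTcov, hfix⟩ := abs_dat Am hfg hH hS0 hS0c
  have hcov : ∀ g : G, ∃ a ∈ GT i H S0, (a : G ⧸ i.range) = (g : G ⧸ i.range) := by
    intro g
    obtain ⟨f, h, hh, rfl⟩ := Am.cov g
    refine ⟨h, H_le_GT hh, ?_⟩
    rw [QuotientGroup.eq]
    have h1 := hN.conj_mem (i f) ⟨f, rfl⟩ h⁻¹
    have h2 : h⁻¹ * i f * h⁻¹⁻¹ = h⁻¹ * (i f * h) := by group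
    rwa [h2] at h1
  obtain ⟨Z, η, z0, T', θ, Θ0, hfree, hT', hT'c, hm, hE, hret⟩ :=
    perm_rep (N := i.range) H_le_GT hcov D hc0 hT hTcov hfix
  obtain ⟨Θ, hΘm, hΘ0⟩ := zorn_ext Am hH hS0 θ Θ0 hm hE
  have htop : ∀ g : G, g ∈ GT i H Set.univ := by
    intro g
    obtain ⟨f, h, hh, rfl⟩ := Am.cov g
    refine mul_mem (mem_GT_of_cl ?_) (H_le_GT hh)
    rw [mem_closure_iff]
    exact Set.subset_univ _
  have hmul : ∀ a b, Θ (a * b) = Θ a * Θ b := fun a b => hΘm a (htop a) b (htop b)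
  set Φ : G → Equiv.Perm Z := fun g => (Θ g : Equiv.Perm Z) with hΦ
  have hΦm : ∀ a b z, Φ (a * b) z = Φ a (Φ b z) := by
    intro a b z
    simp only [hΦ, hmul]
    rfl
  have hΦ1 : ∀ z, Φ 1 z = z := by
    intro z
    simp only [hΦ, hΘm.one]
    rfl
  have hΦη : ∀ (g : G) (h : H) (z : Z), Φ g (η h z) = η h (Φ g z) := by
    intro g h z
    have h1 := Subgroup.mem_centralizer_iff.1 (Θ g).2 (η h) ⟨h, rfl⟩
    exact (congrArg (fun p : Equiv.Perm Z => p z) h1).symm
  have huniq : ∀ (h h' : H), η h z0 = η h' z0 → h = h' := by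
    intro h h' he
    have h1 : η (h'⁻¹ * h) z0 = z0 := by
      rw [map_mul, Equiv.Perm.mul_apply, he, ← Equiv.Perm.mul_apply, ← map_mul, inv_mul_cancel,
        map_one]
      rfl
    exact (inv_mul_eq_one.1 (hfree _ _ h1)).symm
  have hηmul : ∀ (h h' : H) (z : Z), η (h * h') z = η h (η h' z) := by
    intro h h' z
    rw [map_mul]
    rfl
  let K : Subgroup G :=
    { carrier := {g | ∃ h : H, Φ g⁻¹ z0 = η h z0}
      one_mem' := ⟨1, by rw [inv_one, hΦ1, map_one]; rfl⟩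
      mul_mem' := by
        rintro g g' ⟨h, hh⟩ ⟨h', hh'⟩
        refine ⟨h * h', ?_⟩
        rw [mul_inv_rev, hΦm, hh, hΦη, hh', hηmul]
      inv_mem' := by
        rintro g ⟨h, hh⟩
        refine ⟨h⁻¹, ?_⟩
        rw [inv_inv]
        have h1 : Φ g (Φ g⁻¹ z0) = z0 := by rw [← hΦm, mul_inv_cancel, hΦ1]
        rw [hh, hΦη] at h1
        rw [map_inv, Equiv.Perm.eq_inv_iff_eq]
        exact h1 }
  have hKmem : ∀ g, g ∈ K ↔ ∃ h : H, Φ g⁻¹ z0 = η h z0 := fun g => Iff.rfl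
  have hHK' : ∀ h : H, Φ (h : G)⁻¹ z0 = η h z0 := by
    intro h
    rw [← hret h]
    show ((Θ (h : G)⁻¹ : Subgroup.centralizer (Set.range η)) : Equiv.Perm Z) z0 = _
    rw [hΘ0 _ (inv_mem (H_le_GT h.2))]
  have hHK : H ≤ K := fun h hh => ⟨⟨h, hh⟩, hHK' ⟨h, hh⟩⟩
  refine ⟨K, ?_, hHK, ?_⟩
  · have : Finite T' := hT'
    choose hz hhz using hT'c
    have : Finite (G ⧸ K) := by
      refine Finite.of_injective (β := T')
        (fun q => ⟨η (hz (Φ q.out z0)) (Φ q.out z0), hhz _⟩) ?_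
      intro q q' h
      have h1 := congrArg (Subtype.val) h
      simp only at h1
      set a := hz (Φ q.out z0) with ha
      set a' := hz (Φ q'.out z0) with ha'
      have h2 : Φ q.out z0 = η (a⁻¹ * a') (Φ q'.out z0) := by
        rw [hηmul, ← h1, ← hηmul, inv_mul_cancel, map_one]
        rfl
      have h3 : q.out⁻¹ * q'.out ∈ K := by
        rw [hKmem]
        refine ⟨a⁻¹ * a', ?_⟩
        rw [mul_inv_rev, inv_inv, hΦm, h2, hΦη, ← hΦm, inv_mul_cancel, hΦ1]
      rw [← QuotientGroup.out_eq' q, ← QuotientGroup.out_eq' q']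
      exact QuotientGroup.eq.2 h3
    exact Subgroup.finiteIndex_of_finite_quotient
  · have hex : ∀ k : K, ∃ h : H, Φ (k : G)⁻¹ z0 = η h z0 := fun k => k.2
    choose ρ hρ using hex
    refine ⟨MonoidHom.mk' (fun k => (ρ k : G)) ?_, fun k => (ρ k).2, ?_⟩
    · intro k k'
      have h1 : ρ (k * k') = ρ k * ρ k' := by
        apply huniq
        rw [← hρ]
        show Φ ((k : G) * k')⁻¹ z0 = _
        rw [mul_inv_rev, hΦm, hρ, hΦη, hρ, hηmul]
      rw [h1]
      rfl
    · intro h hk hh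
      have h1 : ρ ⟨h, hk⟩ = ⟨h, hh⟩ := by
        apply huniq
        rw [← hρ]
        exact hHK' ⟨h, hh⟩
      show (ρ ⟨h, hk⟩ : G) = h
      rw [h1]

end final

/-- **Theorem.** Every virtually free group (of any cardinality) has property (LR). -/
theorem main {G : Type} [Group G] (F : Subgroup G) (hF : F.FiniteIndex) (hfree : IsFreeGroup F)
    (H : Subgroup G) (hfg : H.FG) :
    ∃ K : Subgroup G, K.FiniteIndex ∧ H ≤ K ∧ ∃ ρ : K →* G, (∀ k : K, ρ k ∈ H) ∧
      ∀ h : G, ∀ hk : h ∈ K, h ∈ H → ρ ⟨h, hk⟩ = h := by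
  classical
  set N : Subgroup G := F.normalCore with hN
  have hNF : N ≤ F := F.normalCore_le
  have hNfree : IsFreeGroup N := by
    have h1 : IsFreeGroup (N.subgroupOf F) := inferInstance
    exact IsFreeGroup.ofMulEquiv (Subgroup.subgroupOfEquivOfLe hNF)
  set ψ := IsFreeGroup.mulEquiv N with hψ
  set G1 : Subgroup G := N ⊔ H with hG1
  have hNG : N ≤ G1 := le_sup_left
  have hHG : H ≤ G1 := le_sup_right
  set i : FreeGroup (IsFreeGroup.Generators N) →* G1 :=
    (Subgroup.inclusion hNG).comp ψ.toMonoidHom with hi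
  have hirange : i.range = N.subgroupOf G1 := by
    ext x
    constructor
    · rintro ⟨f, rfl⟩
      exact (ψ f).2
    · intro hx
      refine ⟨ψ.symm ⟨x, hx⟩, ?_⟩
      apply Subtype.ext
      show ((ψ (ψ.symm ⟨x, hx⟩) : N) : G) = x
      rw [MulEquiv.apply_symm_apply]
  have hfinN : N.FiniteIndex := inferInstance
  have Am : Amb i (H.subgroupOf G1) := by
    refine ⟨?_, ?_, ?_, ?_⟩
    · exact (Subgroup.inclusion_injective hNG).comp ψ.injective
    · rw [hirange]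
      exact inferInstance
    · rw [hirange]
      exact inferInstance
    · rintro ⟨g, hg⟩
      have h1 : g ∈ (N : Set G) * (H : Set G) := by
        rw [← Subgroup.normal_mul]
        exact hg
      obtain ⟨n, hn, h, hh, rfl⟩ := Set.mem_mul.1 h1
      refine ⟨ψ.symm ⟨n, hn⟩, ⟨h, hHG hh⟩, hh, ?_⟩
      apply Subtype.ext
      show n * h = ((ψ (ψ.symm ⟨n, hn⟩) : N) : G) * h
      rw [MulEquiv.apply_symm_apply]
  obtain ⟨K1, hK1, hHK1, ρ1, h1, h2⟩ := virt Am (fg_subgroupOf hHG hfg)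
  have hG1f : G1.FiniteIndex := Subgroup.finiteIndex_of_le hNG
  have hHK : H ≤ K1.map G1.subtype := fun h hh => ⟨⟨h, hHG hh⟩, hHK1 hh, rfl⟩
  let e := K1.equivMapOfInjective G1.subtype G1.subtype_injective
  refine ⟨K1.map G1.subtype, ?_, hHK, G1.subtype.comp (ρ1.comp e.symm.toMonoidHom), ?_, ?_⟩
  · refine ⟨?_⟩
    rw [Subgroup.index_map_subtype]
    exact mul_ne_zero hK1.index_ne_zero hG1f.index_ne_zero
  · intro k
    exact h1 (e.symm k)
  · intro h hk hh
    have hk1 : (⟨h, hHG hh⟩ : G1) ∈ K1 := hHK1 hh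
    have h3 : e.symm ⟨h, hk⟩ = ⟨⟨h, hHG hh⟩, hk1⟩ := by
      rw [MulEquiv.symm_apply_eq]
      apply Subtype.ext
      rfl
    show ((ρ1 (e.symm ⟨h, hk⟩) : G1) : G) = h
    rw [h3, h2 _ hk1 hh]

end Pool.Agent.K3h36.LR
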