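import Pool.Agent.K3h36.LR.A1

/-!
# Greedy choice of a discrete nested family of minimal cuts
-/

set_option autoImplicit false

namespace Pool.Agent.K3h36.LR

open scoped ENNReal Pointwise
open Set

section smul

variable {G V : Type} [Group G] [MulAction G V] {m : V → V → ℝ≥0∞}

theorem ww_smul (hinv : ∀ (g : G) (x y : V), m (g • x) (g • y) = m x y) (g : G) (C : Set V) :
    ww m (g • C) = ww m C := by
  unfold ww ee ES
  rw [← ((MulAction.toPerm g : Equiv.Perm V).prodCongr (MulAction.toPerm g : Equiv.Perm V)).tsum_eq]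
  refine tsum_congr fun p => ?_
  obtain ⟨x, y⟩ := p
  have e : ((MulAction.toPerm g : Equiv.Perm V).prodCongr (MulAction.toPerm g : Equiv.Perm V)) (x, y)
    = (g • x, g • y) := rfl
  rw [e]
  by_cases h : (x, y) ∈ C ×ˢ Cᶜ
  · have h' : (g • x, g • y) ∈ (g • C) ×ˢ (g • C)ᶜ := by
      refine ⟨Set.smul_mem_smul_set h.1, fun h2 => h.2 ?_⟩
      exact (Set.smul_mem_smul_set_iff).1 h2
    rw [Set.indicator_of_mem h, Set.indicator_of_mem h']
    exact hinv g x y
  · have h' : (g • x, g • y) ∉ (g • C) ×ˢ (g • C)ᶜ := by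
      rintro ⟨h1, h2⟩
      exact h ⟨(Set.smul_mem_smul_set_iff).1 h1, fun h3 => h2 (Set.smul_mem_smul_set h3)⟩
    rw [Set.indicator_of_notMem h, Set.indicator_of_notMem h']

/-- the translate of an ultrafilter -/
noncomputable def gu (g : G) (p : Ultrafilter V) : Ultrafilter V := p.map (fun x => g • x)

theorem mem_gu {g : G} {p : Ultrafilter V} {C : Set V} : C ∈ gu g p ↔ g⁻¹ • C ∈ p := by
  unfold gu
  rw [Ultrafilter.mem_map, Set.preimage_smul]

theorem Opt.smul (hinv : ∀ (g : G) (x y : V), m (g • x) (g • y) = m x y) (g : G)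
    {p q : Ultrafilter V} {C : Set V} (h : Opt m p q C) : Opt m (gu g p) (gu g q) (g • C) := by
  refine ⟨?_, ?_, ?_, ?_⟩
  · rw [mem_gu, inv_smul_smul]
    exact h.mem
  · rw [mem_gu, inv_smul_smul]
    exact h.not_mem
  · rw [ww_smul hinv]
    exact h.fin
  · intro D h1 h2
    rw [ww_smul hinv, ← ww_smul hinv g⁻¹ D]
    exact h.le _ (mem_gu.1 h1) (fun h3 => h2 (mem_gu.2 h3))

/-- `C` separates the two points -/
def Sep (C : Set V) (p q : Ultrafilter V) : Prop := (C ∈ p ∧ C ∉ q) ∨ (C ∉ p ∧ C ∈ q)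

theorem Sep.swap {C : Set V} {p q : Ultrafilter V} (h : Sep C p q) : Sep C q p := by
  rcases h with h | h
  · exact Or.inr ⟨h.2, h.1⟩
  · exact Or.inl ⟨h.2, h.1⟩

theorem Sep.compl {C : Set V} {p q : Ultrafilter V} (h : Sep C p q) : Sep Cᶜ p q := by
  unfold Sep
  rw [Ultrafilter.compl_mem_iff_notMem, Ultrafilter.compl_mem_iff_notMem, not_not, not_not]
  rcases h with h | h
  · exact Or.inr ⟨h.1, h.2⟩
  · exact Or.inl ⟨h.1, h.2⟩

theorem Sep.of_gu {g : G} {C : Set V} {p q : Ultrafilter V} (h : Sep C (gu g p) (gu g q)) :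
    Sep (g⁻¹ • C) p q := by
  unfold Sep at h ⊢
  simpa only [mem_gu] using h

theorem exists_J {ι : Type} [LinearOrder ι] [WellFoundedLT ι] (R : ι → ι → Prop) :
    ∃ J : ι → Prop, ∀ j, J j ↔ ∀ i, i < j → J i → ¬ R i j := by
  refine ⟨(wellFounded_lt (α := ι)).fix fun j ih => ∀ i, ∀ h : i < j, ih i h → ¬ R i j, fun j => ?_⟩
  rw [WellFounded.fix_eq]

theorem fin_cross (hinv : ∀ (g : G) (x y : V), m (g • x) (g • y) = m x y)
    (hpos : ∀ x y, x ≠ y → 0 < m x y)
    (hst : ∀ x y : V, x ≠ y → {g : G | g • x = x ∧ g • y = y}.Finite) {C : Set V} (hC : ww m C ≠ ∞)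
    (x y : V) : {g : G | x ∈ g • C ∧ y ∉ g • C}.Finite := by
  by_cases hxy : x = y
  · refine (Set.finite_empty).subset ?_
    rintro g ⟨h1, h2⟩
    exact h2 (hxy ▸ h1)
  · have h1 : {p : V × V | m x y ≤ (C ×ˢ Cᶜ).indicator (fun p => m p.1 p.2) p}.Finite :=
      ENNReal.finite_const_le_of_tsum_ne_top hC (hpos x y hxy).ne'
    have h2 : ((fun g : G => (g⁻¹ • x, g⁻¹ • y)) ⁻¹'
        {p : V × V | m x y ≤ (C ×ˢ Cᶜ).indicator (fun p => m p.1 p.2) p}).Finite := by
      refine h1.preimage' ?_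
      rintro ⟨u, v⟩ -
      by_cases hne : ∃ g : G, (g⁻¹ • x, g⁻¹ • y) = (u, v)
      · obtain ⟨g, hg⟩ := hne
        refine ((hst x y hxy).image fun s => s * g).subset ?_
        intro g' hg'
        have e : (g'⁻¹ • x, g'⁻¹ • y) = (g⁻¹ • x, g⁻¹ • y) := by
          rw [hg]; exact hg'
        have e1 : g'⁻¹ • x = g⁻¹ • x := congrArg Prod.fst e
        have e2 : g'⁻¹ • y = g⁻¹ • y := congrArg Prod.snd e
        refine ⟨g' * g⁻¹, ⟨?_, ?_⟩, by group⟩
        · show (g' * g⁻¹) • x = x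
          rw [mul_smul, ← e1, smul_inv_smul]
        · show (g' * g⁻¹) • y = y
          rw [mul_smul, ← e2, smul_inv_smul]
      · refine (Set.finite_empty).subset ?_
        intro g hg
        exact hne ⟨g, hg⟩
    refine h2.subset ?_
    rintro g ⟨h3, h4⟩
    show m x y ≤ (C ×ˢ Cᶜ).indicator (fun p => m p.1 p.2) (g⁻¹ • x, g⁻¹ • y)
    rw [Set.indicator_of_mem]
    · exact (hinv g⁻¹ x y).ge
    · refine ⟨Set.mem_smul_set_iff_inv_smul_mem.1 h3, fun h5 => h4 ?_⟩
      exact Set.mem_smul_set_iff_inv_smul_mem.2 h5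

end smul

section nested

variable {V : Type}

theorem Nested.symm {C D : Set V} (h : Nested C D) : Nested D C := by
  rcases h with h | h | h | h
  · exact Or.inr (Or.inl h)
  · exact Or.inl h
  · exact Or.inr (Or.inr (Or.inl (by rw [Set.inter_comm]; exact h)))
  · exact Or.inr (Or.inr (Or.inr (by rw [Set.union_comm]; exact h)))

theorem Nested.compl_right {C D : Set V} (h : Nested C D) : Nested C Dᶜ := by
  rcases h with h | h | h | h
  · refine Or.inr (Or.inr (Or.inl ?_))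
    ext x
    simp only [mem_inter_iff, mem_compl_iff, mem_empty_iff_false, iff_false]
    exact fun h' => h'.2 (h h'.1)
  · refine Or.inr (Or.inr (Or.inr ?_))
    ext x
    simp only [mem_union, mem_compl_iff, mem_univ, iff_true]
    by_cases hx : x ∈ D
    · exact Or.inl (h hx)
    · exact Or.inr hx
  · refine Or.inl ?_
    intro x hx hx'
    have : x ∈ C ∩ D := ⟨hx, hx'⟩
    rw [h] at this
    exact this
  · refine Or.inr (Or.inl ?_)
    intro x hx
    have : x ∈ C ∪ D := h ▸ mem_univ x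
    exact this.resolve_right hx

theorem Nested.compl_left {C D : Set V} (h : Nested C D) : Nested Cᶜ D :=
  h.symm.compl_right.symm

end nested

section select

variable {G V ι : Type} [Group G] [MulAction G V] {m : V → V → ℝ≥0∞}

/-- the key estimate: an increasing sequence of optimal cuts separating two vertices -/
theorem chain_key (hs : ∀ x y, m x y = m y x)
    (hconn : ∀ U : Set V, U.Nonempty → Uᶜ.Nonempty → 0 < ww m U) {M : ℝ≥0∞}
    (hM : M ≠ ∞) {x y : V} (E : ℕ → Set V) (hE : StrictMono E) (hx : ∀ k, x ∈ E k)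
    (hy : ∀ k, y ∉ E k) (p q : ℕ → Ultrafilter V) (hopt : ∀ k, Opt m (p k) (q k) (E k))
    (hle : ∀ k, ww m (E k) ≤ M) : ∃ k, Sep (E k) (p (k + 1)) (q (k + 1)) := by
  set U : Set V := ⋃ k, E k with hU
  have hsub : ∀ k, E k ⊆ U := fun k => Set.subset_iUnion E k
  have hxU : x ∈ U := hsub 0 (hx 0)
  have hyU : y ∉ U := by
    intro h
    obtain ⟨k, hk⟩ := Set.mem_iUnion.1 h
    exact hy k hk
  have hb : 0 < ww m U := hconn U ⟨x, hxU⟩ ⟨y, hyU⟩
  have hev : ∀ {c : ℝ≥0∞}, c < ww m U → ∀ᶠ k in Filter.atTop, c < ee m (E k) Uᶜ := by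
    intro c hc
    refine ES_low Filter.atTop (S := U ×ˢ Uᶜ) (T := fun k => E k ×ˢ Uᶜ) ?_ hc
    rintro ⟨u, v⟩ ⟨h1, h2⟩
    obtain ⟨k, hk⟩ := Set.mem_iUnion.1 h1
    filter_upwards [Filter.eventually_ge_atTop k] with l hl
    exact ⟨hE.monotone hl hk, h2⟩
  have ha : ww m U ≤ M := by
    by_contra hc
    push Not at hc
    obtain ⟨k, hk⟩ := (hev hc).exists
    have h1 : ee m (E k) Uᶜ ≤ ww m (E k) := ee_mono le_rfl (Set.compl_subset_compl.2 (hsub k))
    exact absurd (hk.trans_le (h1.trans (hle k))) (lt_irrefl _)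
  have hUf : ww m U ≠ ∞ := ne_top_of_le_ne_top hM ha
  have hc : ∃ k0, ∀ k, k0 ≤ k → ww m (U \ E k) < ww m (E k) := by
    have h1 := hev (ENNReal.half_lt_self hb.ne' hUf)
    obtain ⟨k0, hk0⟩ := Filter.eventually_atTop.1 h1
    refine ⟨k0, fun k hk => ?_⟩
    have h2 := hk0 k hk
    have e1 : ww m U = ee m (E k) Uᶜ + ee m (U \ E k) Uᶜ := by
      have h3 : U = E k ∪ (U \ E k) := (Set.union_sdiff_cancel (hsub k)).symm
      unfold ww
      conv_lhs => rw [h3]
      rw [ee_union_left Set.disjoint_sdiff_right, ← h3]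
    have e2 : ww m (U \ E k) = ee m (E k) (U \ E k) + ee m (U \ E k) Uᶜ := by
      have h3 : (U \ E k)ᶜ = E k ∪ Uᶜ := by
        ext z; simp only [mem_compl_iff, Set.mem_sdiff, mem_union]; tauto
      unfold ww
      rw [h3, ee_union_right, ee_symm hs (U \ E k) (E k)]
      rw [Set.disjoint_left]
      intro z hz hz'
      exact hz' (hsub k hz)
    have e3 : ww m (E k) = ee m (E k) (U \ E k) + ee m (E k) Uᶜ := by
      have h3 : (E k)ᶜ = (U \ E k) ∪ Uᶜ := by
        ext z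
        have := @hsub k z
        simp only [mem_compl_iff, Set.mem_sdiff, mem_union]; tauto
      unfold ww
      rw [h3, ee_union_right]
      rw [Set.disjoint_left]
      intro z hz hz'
      exact hz' hz.1
    have h4 : ee m (U \ E k) Uᶜ < ee m (E k) Uᶜ := by
      by_contra h5
      push Not at h5
      have h6 : ww m U / 2 + ww m U / 2 < ee m (E k) Uᶜ + ee m (U \ E k) Uᶜ :=
        ENNReal.add_lt_add h2 (h2.trans_le h5)
      rw [ENNReal.add_halves, ← e1] at h6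
      exact lt_irrefl _ h6
    have h5 : ee m (E k) (U \ E k) ≠ ∞ := by
      refine ne_top_of_le_ne_top (hopt k).fin ?_
      rw [e3]
      exact le_self_add
    rw [e2, e3]
    exact (ENNReal.add_lt_add_iff_left h5).2 h4
  obtain ⟨k0, hk0⟩ := hc
  have hd : ∀ k, k0 ≤ k → U ∉ q k := by
    intro k hk hUq
    have h1 : U \ E k ∈ q k := Filter.inter_mem hUq
      (Ultrafilter.compl_mem_iff_notMem.2 (hopt k).not_mem)
    have h2 : U \ E k ∉ p k := fun h => by
      have := Filter.mem_of_superset h (show U \ E k ⊆ (E k)ᶜ from fun z hz => hz.2)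
      exact Ultrafilter.compl_mem_iff_notMem.1 this (hopt k).mem
    exact absurd ((hopt k).le' hs (Or.inr ⟨h2, h1⟩)) (not_le.2 (hk0 k hk))
  have he : ww m (E k0) ≤ ww m (E (k0 + 1)) := by
    refine (hopt k0).le _ ?_ ?_
    · exact Filter.mem_of_superset (hopt k0).mem (hE.monotone (Nat.le_succ k0))
    · exact fun h => hd k0 le_rfl (Filter.mem_of_superset h (hsub _))
  have hq : E k0 ∉ q (k0 + 1) := fun h => hd (k0 + 1) (Nat.le_succ _)
    (Filter.mem_of_superset h (hsub _))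
  refine ⟨k0, Or.inl ⟨?_, hq⟩⟩
  by_contra hp
  have h1 : U \ E k0 ∈ p (k0 + 1) := Filter.inter_mem
    (Filter.mem_of_superset (hopt (k0 + 1)).mem (hsub _)) (Ultrafilter.compl_mem_iff_notMem.2 hp)
  have h2 : U \ E k0 ∉ q (k0 + 1) := fun h => hd (k0 + 1) (Nat.le_succ _)
    (Filter.mem_of_superset h (show U \ E k0 ⊆ U from fun z hz => hz.1))
  have h3 := (hopt (k0 + 1)).le _ h1 h2
  exact absurd (h3.trans_lt ((hk0 k0 le_rfl).trans_le he)) (lt_irrefl _)

/-- the greedy choice -/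
theorem select [LinearOrder ι] [WellFoundedLT ι] (hs : ∀ x y, m x y = m y x)
    (hconn : ∀ U : Set V, U.Nonempty → Uᶜ.Nonempty → 0 < ww m U)
    (hinv : ∀ (g : G) (x y : V), m (g • x) (g • y) = m x y)
    (C : ι → Set V) (p q : ι → Ultrafilter V)
    (hcr : ∀ j x y, {g : G | x ∈ g • C j ∧ y ∉ g • C j}.Finite)
    (hnes : ∀ i j (g h : G), Nested (g • C i) (h • C j))
    (hopt : ∀ j, Opt m (p j) (q j) (C j)) {M : ℝ≥0∞} (hM : M ≠ ∞) (hle : ∀ j, ww m (C j) ≤ M) :
    ∃ 𝓔 : Set (Set V), (∀ (g : G), ∀ E ∈ 𝓔, g • E ∈ 𝓔) ∧ (∀ E ∈ 𝓔, Eᶜ ∈ 𝓔) ∧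
      (∀ E ∈ 𝓔, ∀ F ∈ 𝓔, Nested E F) ∧ (∀ x y, {E | E ∈ 𝓔 ∧ x ∈ E ∧ y ∉ E}.Finite) ∧
      (∀ j, ∃ E ∈ 𝓔, E ∈ p j ∧ E ∉ q j) ∧ (∀ E ∈ 𝓔, ww m E ≤ M) ∧ (∀ E ∈ 𝓔, E.Nonempty) ∧
      (∀ E ∈ 𝓔, ∀ x y, {g : G | x ∈ g • E ∧ y ∉ g • E}.Finite) := by
  obtain ⟨J, hJ⟩ := exists_J (fun i j => ∃ g : G, Sep (g • C i) (p j) (q j))
  set 𝓔 : Set (Set V) := {E | ∃ j, ∃ g : G, J j ∧ (E = g • C j ∨ E = (g • C j)ᶜ)} with h𝓔
  have hsm : ∀ (g : G), ∀ E ∈ 𝓔, g • E ∈ 𝓔 := by
    rintro g E ⟨j, g', h1, rfl | rfl⟩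
    · exact ⟨j, g * g', h1, Or.inl (by rw [mul_smul])⟩
    · exact ⟨j, g * g', h1, Or.inr (by rw [mul_smul, Set.smul_set_compl])⟩
  have hcp : ∀ E ∈ 𝓔, Eᶜ ∈ 𝓔 := by
    rintro E ⟨j, g', h1, rfl | rfl⟩
    · exact ⟨j, g', h1, Or.inr rfl⟩
    · exact ⟨j, g', h1, Or.inl (compl_compl _)⟩
  -- every member is optimal for a translate of a pair
  have hop : ∀ E ∈ 𝓔, ∃ p' q' : Ultrafilter V, ∃ j, J j ∧ Opt m p' q' E ∧
      (∀ F ∈ 𝓔, Sep F p' q' → ∃ F' ∈ 𝓔, ∃ g : G, F' = g • F ∧ Sep F' (p j) (q j)) ∧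
      (∃ g : G, E = g • C j ∨ E = (g • C j)ᶜ) := by
    rintro E ⟨j, g, h1, rfl | rfl⟩
    · refine ⟨gu g (p j), gu g (q j), j, h1, (hopt j).smul hinv g, ?_, g, Or.inl rfl⟩
      intro F hF h2
      exact ⟨g⁻¹ • F, hsm _ F hF, g⁻¹, rfl, h2.of_gu⟩
    · refine ⟨gu g (q j), gu g (p j), j, h1, ((hopt j).smul hinv g).compl hs, ?_, g, Or.inr rfl⟩
      intro F hF h2
      exact ⟨g⁻¹ • F, hsm _ F hF, g⁻¹, rfl, h2.swap.of_gu⟩
  have hwle : ∀ E ∈ 𝓔, ww m E ≤ M := by
    rintro E ⟨j, g, h1, rfl | rfl⟩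
    · rw [ww_smul hinv]
      exact hle j
    · rw [ww_compl hs, ww_smul hinv]
      exact hle j
  have hne : ∀ E ∈ 𝓔, E.Nonempty := by
    intro E hE
    obtain ⟨p', q', j, -, h, -⟩ := hop E hE
    exact p'.nonempty_of_mem h.mem
  have hnest : ∀ E ∈ 𝓔, ∀ F ∈ 𝓔, Nested E F := by
    rintro E ⟨i, g, -, rfl | rfl⟩ F ⟨j, h, -, rfl | rfl⟩
    · exact hnes i j g h
    · exact (hnes i j g h).compl_right
    · exact (hnes i j g h).compl_left
    · exact (hnes i j g h).compl_right.compl_left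
  have hcr' : ∀ E ∈ 𝓔, ∀ x y, {g : G | x ∈ g • E ∧ y ∉ g • E}.Finite := by
    rintro E ⟨j, g, -, rfl | rfl⟩ x y
    · refine ((hcr j x y).image fun k => k * g⁻¹).subset ?_
      rintro k ⟨h1, h2⟩
      rw [← mul_smul] at h1 h2
      exact ⟨k * g, ⟨h1, h2⟩, by group⟩
    · refine ((hcr j y x).image fun k => k * g⁻¹).subset ?_
      rintro k ⟨h1, h2⟩
      rw [Set.smul_set_compl, ← mul_smul] at h1 h2
      exact ⟨k * g, ⟨not_not.1 h2, h1⟩, by group⟩
  -- no infinite increasing sequences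
  have hinc : ∀ (x y : V) (E : ℕ → Set V), (∀ k, E k ∈ 𝓔) → (∀ k, x ∈ E k) → (∀ k, y ∉ E k) →
      ¬ StrictMono E := by
    intro x y E hE hx hy hmono
    choose p' q' j' hj' ho hsep g' hg' using fun k => hop (E k) (hE k)
    have hfib : ∀ n, {k | j' k = n}.Finite := by
      intro n
      have hf3 : {k | j' k = n} ⊆ E ⁻¹' (((fun g : G => g • C n) ''
          {g : G | x ∈ g • C n ∧ y ∉ g • C n}) ∪
          ((fun g : G => (g • C n)ᶜ) ''
          {g : G | y ∈ g • C n ∧ x ∉ g • C n})) := by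
        intro k hk
        have hjk : j' k = n := hk
        have h1 := hx k
        have h2 := hy k
        rcases hg' k with h | h
        · left
          refine ⟨g' k, ?_, ?_⟩
          · rw [h, hjk] at h1 h2
            exact ⟨h1, h2⟩
          · show g' k • C n = E k
            rw [h, hjk]
        · right
          refine ⟨g' k, ?_, ?_⟩
          · rw [h, hjk] at h1 h2
            exact ⟨not_not.1 h2, h1⟩
          · show (g' k • C n)ᶜ = E k
            rw [h, hjk]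
      refine Set.Finite.subset ?_ hf3
      exact (((hcr n x y).image _).union ((hcr n y x).image _)).preimage hmono.injective.injOn
    obtain ⟨φ, hφ2⟩ : ∃ φ : ℕ ↪o ℕ, ∀ a b : ℕ, a < b → j' (φ a) < j' (φ b) := by
      obtain ⟨φ, hφ⟩ := exists_increasing_or_nonincreasing_subseq (fun a b : ι => a < b) j'
      rcases hφ with h | h
      · exact ⟨φ, h⟩
      · exfalso
        obtain ⟨_, ⟨n0, rfl⟩, hmin⟩ := (wellFounded_lt (α := ι)).has_min
          (Set.range fun n => j' (φ n)) ⟨_, 0, rfl⟩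
        refine Set.not_infinite.2 (hfib (j' (φ n0))) ?_
        refine Set.Infinite.mono ?_ ((Set.Ioi_infinite n0).image φ.injective.injOn)
        rintro _ ⟨n, hn, rfl⟩
        exact le_antisymm (not_lt.1 (h n0 n hn)) (not_lt.1 (hmin _ ⟨n, rfl⟩))
    have hφ : StrictMono φ := φ.strictMono
    obtain ⟨k, hk⟩ := chain_key hs hconn hM (fun k => E (φ k)) (hmono.comp hφ) (fun k => hx _)
      (fun k => hy _) (fun k => p' (φ k)) (fun k => q' (φ k)) (fun k => ho _)
      (fun k => hwle _ (hE _))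
    obtain ⟨F', -, g, hF', hS⟩ := hsep (φ (k + 1)) (E (φ k)) (hE _) hk
    refine (hJ (j' (φ (k + 1)))).1 (hj' _) (j' (φ k)) (hφ2 _ _ (Nat.lt_succ_self k)) (hj' _) ?_
    rcases hg' (φ k) with h | h
    · refine ⟨g * g' (φ k), ?_⟩
      rw [mul_smul, ← h, ← hF']
      exact hS
    · refine ⟨g * g' (φ k), ?_⟩
      have h5 : (g * g' (φ k)) • C (j' (φ k)) = F'ᶜ := by
        rw [hF', h, Set.smul_set_compl, compl_compl, mul_smul]
      rw [h5]
      exact hS.compl
  refine ⟨𝓔, hsm, hcp, hnest, ?_, ?_, hwle, hne, hcr'⟩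
  · intro x y
    by_contra hinf
    have hinf' : {E | E ∈ 𝓔 ∧ x ∈ E ∧ y ∉ E}.Infinite := hinf
    set f := hinf'.natEmbedding with hf
    have hcomp : ∀ a b : ℕ, (f a : Set V) ⊆ f b ∨ (f b : Set V) ⊆ f a := by
      intro a b
      rcases hnest _ (f a).2.1 _ (f b).2.1 with h | h | h | h
      · exact Or.inl h
      · exact Or.inr h
      · exfalso
        have : x ∈ (f a : Set V) ∩ f b := ⟨(f a).2.2.1, (f b).2.2.1⟩
        rw [h] at this
        exact this
      · exfalso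
        have : y ∈ (f a : Set V) ∪ f b := h ▸ Set.mem_univ y
        rcases this with h' | h'
        · exact (f a).2.2.2 h'
        · exact (f b).2.2.2 h'
    obtain ⟨g, hg⟩ := exists_increasing_or_nonincreasing_subseq
      (fun A B : Set V => A ⊂ B) (fun n => (f n : Set V))
    rcases hg with hg | hg
    · exact hinc x y (fun n => (f (g n) : Set V)) (fun n => (f _).2.1) (fun n => (f _).2.2.1)
        (fun n => (f _).2.2.2) (fun a b hab => hg a b hab)
    · refine hinc y x (fun n => (f (g n) : Set V)ᶜ) (fun n => hcp _ (f _).2.1)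
        (fun n => (f _).2.2.2) (fun n => fun h => h (f _).2.2.1) (fun a b hab => ?_)
      have h1 := hg a b hab
      have h2 : (f (g a) : Set V) ≠ f (g b) := by
        intro e
        have := f.injective (Subtype.ext e)
        exact absurd (g.injective this) hab.ne
      have h3 : (f (g b) : Set V) ⊆ f (g a) := by
        rcases hcomp (g a) (g b) with h | h
        · exact absurd (Set.ssubset_iff_subset_ne.2 ⟨h, h2⟩) h1
        · exact h
      exact Set.ssubset_iff_subset_ne.2 ⟨Set.compl_subset_compl.2 h3, fun e => h2 (compl_injective e)⟩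
  · intro j
    by_cases hj : J j
    · exact ⟨C j, ⟨j, 1, hj, Or.inl (one_smul _ _).symm⟩, (hopt j).mem, (hopt j).not_mem⟩
    · rw [hJ] at hj
      push Not at hj
      obtain ⟨i, -, hi, g, hS⟩ := hj
      rcases hS with ⟨h1, h2⟩ | ⟨h1, h2⟩
      · exact ⟨g • C i, ⟨i, g, hi, Or.inl rfl⟩, h1, h2⟩
      · exact ⟨(g • C i)ᶜ, ⟨i, g, hi, Or.inr rfl⟩, Ultrafilter.compl_mem_iff_notMem.2 h1,
          fun h => Ultrafilter.compl_mem_iff_notMem.1 h h2⟩

end select

end Pool.Agent.K3h36.LR
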