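import Pool.Agent.K3h36.LR.A2

/-!
# Minimal cuts separating the two ends of an element of infinite order exist
-/

set_option autoImplicit false

namespace Pool.Agent.K3h36.LR

open scoped ENNReal Pointwise Topology
open Set

section ends

variable {G V : Type} [Group G] [MulAction G V] {m : V → V → ℝ≥0∞}

/-- a limit point of the sequence `g ^ k • v` -/
noncomputable def om (g : G) (v : V) : Ultrafilter V :=
  (Filter.hyperfilter ℕ).map (fun k => g ^ k • v)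

theorem mem_om {g : G} {v : V} {C : Set V} :
    C ∈ om g v ↔ ∀ᶠ k in (Filter.hyperfilter ℕ : Filter ℕ), g ^ k • v ∈ C := Iff.rfl

theorem fin_change (hpos : ∀ x y, x ≠ y → 0 < m x y)
    (hinv : ∀ (g : G) (x y : V), m (g • x) (g • y) = m x y) {g : G} {v : V}
    (hinj : Function.Injective fun k : ℕ => g ^ k • v) {C : Set V} (hC : ww m C ≠ ∞) :
    {k : ℕ | g ^ k • v ∈ C ∧ g ^ (k + 1) • v ∉ C}.Finite := by
  have hne : v ≠ g • v := by
    intro e
    have : (fun k : ℕ => g ^ k • v) 0 = (fun k : ℕ => g ^ k • v) 1 := by simpa using e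
    exact absurd (hinj this) (by norm_num)
  have h1 : {p : V × V | m v (g • v) ≤ (C ×ˢ Cᶜ).indicator (fun p => m p.1 p.2) p}.Finite :=
    ENNReal.finite_const_le_of_tsum_ne_top hC (hpos _ _ hne).ne'
  have h2 : Function.Injective (fun k : ℕ => (g ^ k • v, g ^ (k + 1) • v)) := fun a b hab =>
    hinj (congrArg Prod.fst hab)
  refine (h1.preimage h2.injOn).subset ?_
  rintro k ⟨h3, h4⟩
  show m v (g • v) ≤ (C ×ˢ Cᶜ).indicator (fun p => m p.1 p.2) (g ^ k • v, g ^ (k + 1) • v)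
  rw [Set.indicator_of_mem (show (g ^ k • v, g ^ (k + 1) • v) ∈ C ×ˢ Cᶜ from ⟨h3, h4⟩)]
  show m v (g • v) ≤ m (g ^ k • v) (g ^ (k + 1) • v)
  rw [pow_succ, mul_smul, hinv]

theorem ev_iff (hs : ∀ x y, m x y = m y x) (hpos : ∀ x y, x ≠ y → 0 < m x y)
    (hinv : ∀ (g : G) (x y : V), m (g • x) (g • y) = m x y) {g : G} {v : V}
    (hinj : Function.Injective fun k : ℕ => g ^ k • v) {C : Set V} (hC : ww m C ≠ ∞) :
    ∀ᶠ k in Filter.cofinite, (g ^ k • v ∈ C ↔ g ^ (k + 1) • v ∈ C) := by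
  have h1 := (fin_change hpos hinv hinj hC).eventually_cofinite_notMem
  have h2 := (fin_change hpos hinv hinj (C := Cᶜ) (by rw [ww_compl hs]; exact hC)).eventually_cofinite_notMem
  filter_upwards [h1, h2] with k hk1 hk2
  simp only [mem_setOf_eq, mem_compl_iff] at hk1 hk2
  tauto

/-- finite cuts see the end of `g` invariantly -/
theorem om_shift (hs : ∀ x y, m x y = m y x) (hpos : ∀ x y, x ≠ y → 0 < m x y)
    (hinv : ∀ (g : G) (x y : V), m (g • x) (g • y) = m x y) {g : G} {v : V}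
    (hinj : Function.Injective fun k : ℕ => g ^ k • v) {C : Set V} (hC : ww m C ≠ ∞) :
    g⁻¹ • C ∈ om g v ↔ C ∈ om g v := by
  rw [mem_om, mem_om]
  refine Filter.eventually_congr ?_
  filter_upwards [Filter.hyperfilter_le_cofinite (ev_iff hs hpos hinv hinj hC)] with k hk
  rw [hk, Set.mem_smul_set_iff_inv_smul_mem, inv_inv, ← mul_smul, ← pow_succ']

theorem inj_inv {g : G} {v : V} (hinj : Function.Injective fun k : ℤ => g ^ k • v) :
    Function.Injective fun k : ℤ => g⁻¹ ^ k • v := by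
  intro a b hab
  simp only [inv_zpow'] at hab
  exact neg_injective (hinj hab)

theorem inj_nat {g : G} {v : V} (hinj : Function.Injective fun k : ℤ => g ^ k • v) :
    Function.Injective fun k : ℕ => g ^ k • v := by
  intro a b hab
  have := @hinj (a : ℤ) (b : ℤ) (by simpa only [zpow_natCast] using hab)
  exact_mod_cast this

/-- the cuts of finite weight which separate the two ends of `g` -/
def PS (m : V → V → ℝ≥0∞) (g : G) (v : V) (C : Set V) : Prop :=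
  ww m C ≠ ∞ ∧ C ∈ om g v ∧ C ∉ om g⁻¹ v

theorem PS.smul (hs : ∀ x y, m x y = m y x) (hpos : ∀ x y, x ≠ y → 0 < m x y)
    (hinv : ∀ (g : G) (x y : V), m (g • x) (g • y) = m x y) {g : G} {v : V}
    (hinj : Function.Injective fun k : ℤ => g ^ k • v) (n : ℤ) {C : Set V} (h : PS m g v C) :
    PS m g v (g ^ n • C) := by
  have step1 : ∀ C, PS m g v C → PS m g v (g⁻¹ • C) := by
    rintro C ⟨h1, h2, h3⟩
    have h4 : ww m (g⁻¹ • C) ≠ ∞ := by rw [ww_smul hinv]; exact h1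
    refine ⟨h4, (om_shift hs hpos hinv (inj_nat hinj) h1).2 h2, fun h5 => h3 ?_⟩
    have h6 := (om_shift hs hpos hinv (inj_nat (inj_inv hinj)) h4).2 h5
    rwa [inv_inv, smul_inv_smul] at h6
  have step2 : ∀ C, PS m g v C → PS m g v (g • C) := by
    rintro C ⟨h1, h2, h3⟩
    have h4 : ww m (g • C) ≠ ∞ := by rw [ww_smul hinv]; exact h1
    refine ⟨h4, ?_, fun h5 => h3 ?_⟩
    · rw [← om_shift hs hpos hinv (inj_nat hinj) h4, inv_smul_smul]
      exact h2
    · have h6 := om_shift hs hpos hinv (inj_nat (inj_inv hinj)) h1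
      rw [inv_inv] at h6
      exact h6.1 h5
  induction n using Int.induction_on with
  | zero => simpa using h
  | succ n ih =>
    have := step2 _ ih
    rwa [← mul_smul, ← zpow_one_add, add_comm] at this
  | pred n ih =>
    have := step1 _ ih
    rw [← mul_smul] at this
    have e : g⁻¹ * g ^ (-(n : ℤ)) = g ^ (-(n : ℤ) - 1) := by
      rw [zpow_sub_one]
      exact (Commute.zpow_right (Commute.inv_left (Commute.refl g)) _).eq
    rwa [e] at this

/-- a separating cut can be translated to cut the edge from `v` to `g v` -/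
theorem PS.normal (hs : ∀ x y, m x y = m y x) (hpos : ∀ x y, x ≠ y → 0 < m x y)
    (hinv : ∀ (g : G) (x y : V), m (g • x) (g • y) = m x y) {g : G} {v : V}
    (hinj : Function.Injective fun k : ℤ => g ^ k • v) {C : Set V} (h : PS m g v C) :
    ∃ C', PS m g v C' ∧ ww m C' = ww m C ∧ v ∉ C' ∧ g • v ∈ C' := by
  obtain ⟨a, ha⟩ := (mem_om.1 h.2.1).exists
  have h3 : Cᶜ ∈ om g⁻¹ v := Ultrafilter.compl_mem_iff_notMem.2 h.2.2
  obtain ⟨b, hb⟩ := (mem_om.1 h3).exists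
  have hab : ∃ n : ℤ, g ^ n • v ∉ C ∧ g ^ (n + 1) • v ∈ C := by
    by_contra hc
    push Not at hc
    have h5 : ∀ n : ℤ, -(b : ℤ) ≤ n → g ^ n • v ∉ C := by
      intro n hn
      induction n, hn using Int.le_induction with
      | base =>
        rw [zpow_neg, zpow_natCast, ← inv_pow]
        exact hb
      | succ n _ ih => exact hc n ih
    refine h5 (a : ℤ) (by omega) ?_
    rw [zpow_natCast]
    exact ha
  obtain ⟨n, h1, h2⟩ := hab
  refine ⟨g ^ (-n) • C, h.smul hs hpos hinv hinj (-n), ww_smul hinv _ _, ?_, ?_⟩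
  · rw [Set.mem_smul_set_iff_inv_smul_mem, zpow_neg, inv_inv]
    exact h1
  · rw [Set.mem_smul_set_iff_inv_smul_mem, zpow_neg, inv_inv, ← mul_smul, ← zpow_add_one]
    exact h2

theorem exists_opt_ends (hs : ∀ x y, m x y = m y x) (hpos : ∀ x y, x ≠ y → 0 < m x y)
    (hinv : ∀ (g : G) (x y : V), m (g • x) (g • y) = m x y) {g : G} {v : V}
    (hinj : Function.Injective fun k : ℤ => g ^ k • v) {C0 : Set V} (hC0 : PS m g v C0) :
    ∃ C, Opt m (om g v) (om g⁻¹ v) C ∧ ww m C ≤ ww m C0 := by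
  set κ : ℝ≥0∞ := sInf (ww m '' {C | C ∈ om g v ∧ C ∉ om g⁻¹ v}) with hκ
  have hκle : ∀ C, C ∈ om g v → C ∉ om g⁻¹ v → κ ≤ ww m C := fun C h1 h2 =>
    sInf_le ⟨C, ⟨h1, h2⟩, rfl⟩
  have hκ0 : κ ≤ ww m C0 := hκle C0 hC0.2.1 hC0.2.2
  have hκf : κ ≠ ∞ := ne_top_of_le_ne_top hC0.1 hκ0
  have hex : ∀ k : ℕ, ∃ C, PS m g v C ∧ ww m C ≤ κ + (k : ℝ≥0∞)⁻¹ ∧ v ∉ C ∧ g • v ∈ C := by
    intro k
    by_cases hk : k = 0
    · obtain ⟨C', h1, -, h3, h4⟩ := hC0.normal hs hpos hinv hinj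
      exact ⟨C', h1, by simp [hk], h3, h4⟩
    · have h1 : κ < κ + (k : ℝ≥0∞)⁻¹ := ENNReal.lt_add_right hκf (by simp)
      obtain ⟨_, ⟨C, ⟨h2, h3⟩, rfl⟩, h4⟩ := sInf_lt_iff.1 h1
      have h5 : ww m C ≠ ∞ := ne_top_of_lt h4
      obtain ⟨C', h6, h7, h8, h9⟩ := PS.normal hs hpos hinv hinj (C := C) ⟨h5, h2, h3⟩
      exact ⟨C', h6, h7 ▸ h4.le, h8, h9⟩
  choose C hC1 hC2 hC3 hC4 using hex
  set D : Set V := {x | ∀ᶠ k in (Filter.hyperfilter ℕ : Filter ℕ), x ∈ C k} with hD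
  have hDn : ∀ x, x ∉ D → ∀ᶠ k in (Filter.hyperfilter ℕ : Filter ℕ), x ∉ C k := fun x hx =>
    Ultrafilter.eventually_not.2 hx
  have hvD : v ∉ D := by
    intro h
    obtain ⟨k, hk⟩ := Filter.Eventually.exists h
    exact hC3 k hk
  have hgD : g • v ∈ D := Filter.Eventually.of_forall hC4
  have hDpos : 0 < ww m D := by
    refine (hpos (g • v) v ?_).trans_le (le_ww hgD hvD)
    intro e
    exact hvD (e ▸ hgD)
  have hat : (Filter.hyperfilter ℕ : Filter ℕ) ≤ Filter.atTop := Nat.hyperfilter_le_atTop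
  have hsmall : ∀ {a c : ℝ≥0∞}, a < c → ∀ᶠ k : ℕ in (Filter.hyperfilter ℕ : Filter ℕ),
      a + (k : ℝ≥0∞)⁻¹ < c := by
    intro a c hac
    have h1 : Filter.Tendsto (fun k : ℕ => a + (k : ℝ≥0∞)⁻¹) Filter.atTop (𝓝 (a + 0)) :=
      Filter.Tendsto.const_add a ENNReal.tendsto_inv_nat_nhds_zero
    rw [add_zero] at h1
    exact hat (h1.eventually (gt_mem_nhds hac))
  have hDle : ww m D ≤ κ := by
    by_contra hc
    push Not at hc
    obtain ⟨c, hc1, hc2⟩ := exists_between hc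
    have h1 : ∀ᶠ k in (Filter.hyperfilter ℕ : Filter ℕ), c < ww m (C k) := by
      refine ES_low _ (S := D ×ˢ Dᶜ) (T := fun k => C k ×ˢ (C k)ᶜ) ?_ hc2
      rintro ⟨x, y⟩ ⟨hx, hy⟩
      filter_upwards [show ∀ᶠ k in (Filter.hyperfilter ℕ : Filter ℕ), x ∈ C k from hx, hDn y hy]
        with k h1 h2 using ⟨h1, h2⟩
    obtain ⟨k, h2, h3⟩ := (h1.and (hsmall hc1)).exists
    exact absurd (h2.trans_le (hC2 k)) (not_lt.2 h3.le)
  have hDf : ww m D ≠ ∞ := ne_top_of_le_ne_top hκf hDle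
  -- both ends on the same side is impossible
  have hkill : (∀ k, κ ≤ ww m (C k \ D) + ww m (D \ C k)) → False := by
    intro hk
    have h0 : ww m D < 2 * ww m D := by
      rw [two_mul]
      exact ENNReal.lt_add_right hDf hDpos.ne'
    have h1 : ww m D / 2 < ww m D := ENNReal.half_lt_self hDpos.ne' hDf
    obtain ⟨c, hc1, hc2⟩ := exists_between h1
    have hc3 : ww m D < 2 * c := by
      have := ENNReal.mul_lt_mul_right (a := 2) (by norm_num) (by norm_num) hc1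
      rwa [ENNReal.mul_div_cancel (by norm_num) (by norm_num)] at this
    have h2 : ∀ᶠ k in (Filter.hyperfilter ℕ : Filter ℕ), c < ee m (C k ∩ D) (C k ∪ D)ᶜ := by
      refine ES_low _ (S := D ×ˢ Dᶜ) (T := fun k => (C k ∩ D) ×ˢ (C k ∪ D)ᶜ) ?_ hc2
      rintro ⟨x, y⟩ ⟨hx, hy⟩
      filter_upwards [show ∀ᶠ k in (Filter.hyperfilter ℕ : Filter ℕ), x ∈ C k from hx, hDn y hy]
        with k h1 h2
      exact ⟨⟨h1, hx⟩, fun h => h.elim h2 hy⟩
    obtain ⟨k, h3, h4⟩ := (h2.and (hsmall hc3)).exists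
    have h5 := ww_corner' hs (C k) D
    have h6 : κ + 2 * c < κ + 2 * c := by
      calc κ + 2 * c ≤ (ww m (C k \ D) + ww m (D \ C k)) + 2 * ee m (C k ∩ D) (C k ∪ D)ᶜ :=
            add_le_add (hk k) (by gcongr)
        _ = ww m (C k) + ww m D := h5
        _ ≤ (κ + (k : ℝ≥0∞)⁻¹) + ww m D := by gcongr; exact hC2 k
        _ = κ + (ww m D + (k : ℝ≥0∞)⁻¹) := by ring
        _ < κ + 2 * c := (ENNReal.add_lt_add_iff_left hκf).2 h4
    exact lt_irrefl _ h6
  by_cases h1 : D ∈ om g v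
  · by_cases h2 : D ∈ om g⁻¹ v
    · exfalso
      apply hkill
      intro k
      have h3 : κ ≤ ww m (D \ C k)ᶜ := by
        refine hκle _ ?_ ?_
        · exact Filter.mem_of_superset (hC1 k).2.1 (fun x hx h => h.2 hx)
        · intro h
          refine Ultrafilter.compl_mem_iff_notMem.1 h ?_
          exact Filter.inter_mem h2 (Ultrafilter.compl_mem_iff_notMem.2 (hC1 k).2.2)
      rw [ww_compl hs] at h3
      exact h3.trans le_add_self
    · exact ⟨D, ⟨h1, h2, hDf, fun E h3 h4 => hDle.trans (hκle E h3 h4)⟩, hDle.trans hκ0⟩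
  · by_cases h2 : D ∈ om g⁻¹ v
    · refine ⟨Dᶜ, ⟨Ultrafilter.compl_mem_iff_notMem.2 h1, fun h =>
        Ultrafilter.compl_mem_iff_notMem.1 h h2, ?_, fun E h3 h4 => ?_⟩, ?_⟩
      · rw [ww_compl hs]; exact hDf
      · rw [ww_compl hs]; exact hDle.trans (hκle E h3 h4)
      · rw [ww_compl hs]; exact hDle.trans hκ0
    · exfalso
      apply hkill
      intro k
      have h3 : κ ≤ ww m (C k \ D) := by
        refine hκle _ ?_ ?_
        · exact Filter.inter_mem (hC1 k).2.1 (Ultrafilter.compl_mem_iff_notMem.2 h1)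
        · exact fun h => (hC1 k).2.2 (Filter.mem_of_superset h fun x hx => hx.1)
      exact h3.trans le_self_add

/-- minimal cuts between two vertices exist -/
theorem exists_opt_pts (hs : ∀ x y, m x y = m y x) {x y : V} {C0 : Set V} (hx : x ∈ C0)
    (hy : y ∉ C0) (hf : ww m C0 ≠ ∞) :
    ∃ C, Opt m (pure x) (pure y) C ∧ ww m C ≤ ww m C0 := by
  have hmp : ∀ (z : V) (C : Set V), C ∈ (pure z : Ultrafilter V) ↔ z ∈ C := fun z C => Iff.rfl
  set κ : ℝ≥0∞ := sInf (ww m '' {C | x ∈ C ∧ y ∉ C}) with hκ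
  have hκle : ∀ C, x ∈ C → y ∉ C → κ ≤ ww m C := fun C h1 h2 => sInf_le ⟨C, ⟨h1, h2⟩, rfl⟩
  have hκ0 : κ ≤ ww m C0 := hκle C0 hx hy
  have hκf : κ ≠ ∞ := ne_top_of_le_ne_top hf hκ0
  have hex : ∀ k : ℕ, ∃ C, x ∈ C ∧ y ∉ C ∧ ww m C ≤ κ + (k : ℝ≥0∞)⁻¹ := by
    intro k
    have h1 : κ < κ + (k : ℝ≥0∞)⁻¹ := ENNReal.lt_add_right hκf (by simp)
    obtain ⟨_, ⟨C, ⟨h2, h3⟩, rfl⟩, h4⟩ := sInf_lt_iff.1 h1
    exact ⟨C, h2, h3, h4.le⟩
  choose C hC1 hC2 hC3 using hex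
  set D : Set V := {z | ∀ᶠ k in (Filter.hyperfilter ℕ : Filter ℕ), z ∈ C k} with hD
  have hDn : ∀ z, z ∉ D → ∀ᶠ k in (Filter.hyperfilter ℕ : Filter ℕ), z ∉ C k := fun z hz =>
    Ultrafilter.eventually_not.2 hz
  have hxD : x ∈ D := Filter.Eventually.of_forall hC1
  have hyD : y ∉ D := by
    intro h
    obtain ⟨k, hk⟩ := Filter.Eventually.exists h
    exact hC2 k hk
  have hDle : ww m D ≤ κ := by
    by_contra hc
    push Not at hc
    obtain ⟨c, hc1, hc2⟩ := exists_between hc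
    have h1 : ∀ᶠ k in (Filter.hyperfilter ℕ : Filter ℕ), c < ww m (C k) := by
      refine ES_low _ (S := D ×ˢ Dᶜ) (T := fun k => C k ×ˢ (C k)ᶜ) ?_ hc2
      rintro ⟨u, w⟩ ⟨hu, hw⟩
      filter_upwards [show ∀ᶠ k in (Filter.hyperfilter ℕ : Filter ℕ), u ∈ C k from hu, hDn w hw]
        with k h1 h2 using ⟨h1, h2⟩
    have h2 : Filter.Tendsto (fun k : ℕ => κ + (k : ℝ≥0∞)⁻¹) Filter.atTop (𝓝 (κ + 0)) :=
      Filter.Tendsto.const_add κ ENNReal.tendsto_inv_nat_nhds_zero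
    rw [add_zero] at h2
    have h3 : ∀ᶠ k : ℕ in (Filter.hyperfilter ℕ : Filter ℕ), κ + (k : ℝ≥0∞)⁻¹ < c :=
      Nat.hyperfilter_le_atTop (h2.eventually (gt_mem_nhds hc1))
    obtain ⟨k, h4, h5⟩ := (h1.and h3).exists
    exact absurd (h4.trans_le (hC3 k)) (not_lt.2 h5.le)
  refine ⟨D, ⟨(hmp _ _).2 hxD, fun h => hyD ((hmp _ _).1 h), ne_top_of_le_ne_top hκf hDle, ?_⟩,
    hDle.trans hκ0⟩
  intro E h1 h2
  exact hDle.trans (hκle E ((hmp _ _).1 h1) (fun h => h2 ((hmp _ _).2 h)))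

end ends

end Pool.Agent.K3h36.LR
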