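import Mathlib

/-!
# Half trees in free groups
-/

set_option autoImplicit false
set_option linter.unusedSectionVars false

namespace Pool.Agent.K3h36.LR

open FreeGroup Set

section words

variable {α : Type} [DecidableEq α]

/-- the elements `y` such that `u` is a suffix of the reduced word of `y⁻¹` -/
def Wt (u : List (α × Bool)) : Set (FreeGroup α) := {y | u <:+ (y⁻¹).toWord}

theorem toWord_letter (l : α × Bool) (z : FreeGroup α) :
    (mk [l] * z).toWord = l :: z.toWord ∨
      ∃ t, z.toWord = (l.1, !l.2) :: t ∧ (mk [l] * z).toWord = t := by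
  have h1 : (mk [l] * z).toWord = reduce (l :: z.toWord) := by
    rw [toWord_mul, toWord_mk, reduce_singleton]
    rfl
  rw [h1, reduce.cons, reduce_toWord]
  rcases hz : z.toWord with _ | ⟨b, t⟩
  · exact Or.inl rfl
  · by_cases h : l.1 = b.1 ∧ l.2 = !b.2
    · right
      refine ⟨t, ?_, ?_⟩
      · obtain ⟨h2, h3⟩ := h
        rw [h3, h2, Bool.not_not]
      · simp only [h, and_self, if_true]
    · left
      simp only [h, if_false]

theorem inv_letter (l : α × Bool) : (mk [l])⁻¹ = mk [(l.1, !l.2)] := by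
  rw [inv_mk]
  rfl

theorem cross_letter {u : List (α × Bool)} {l : α × Bool} {y : FreeGroup α} (h1 : y ∈ Wt u)
    (h2 : y * mk [l] ∉ Wt u) : y = (mk u)⁻¹ ∧ ∃ b t, u = b :: t ∧ b.1 = l.1 := by
  have h3 : u <:+ (y⁻¹).toWord := h1
  have h4 : ¬ u <:+ ((y * mk [l])⁻¹).toWord := h2
  rw [mul_inv_rev, inv_letter] at h4
  rcases toWord_letter (l.1, !l.2) y⁻¹ with h | ⟨t, h5, h6⟩
  · exfalso
    apply h4
    rw [h]
    exact h3.trans (List.suffix_cons _ _)
  · rw [h6] at h4
    rw [h5, List.suffix_cons_iff] at h3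
    rcases h3 with h3 | h3
    · refine ⟨?_, _, t, h3, rfl⟩
      rw [h3, ← h5, mk_toWord, inv_inv]
    · exact absurd h3 h4

theorem cross_bound (f : FreeGroup α) :
    ∃ n : ℕ, ∀ u : List (α × Bool), {y | y ∈ Wt u ∧ y * f ∉ Wt u}.encard ≤ n := by
  have hl : ∀ l : α × Bool, ∃ n : ℕ, ∀ u : List (α × Bool),
      {y | y ∈ Wt u ∧ y * mk [l] ∉ Wt u}.encard ≤ n := by
    intro l
    refine ⟨1, fun u => ?_⟩
    have h1 : {y | y ∈ Wt u ∧ y * mk [l] ∉ Wt u} ⊆ {(mk u)⁻¹} := fun y hy =>
      (cross_letter hy.1 hy.2).1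
    exact (Set.encard_le_encard h1).trans (by rw [Set.encard_singleton]; rfl)
  induction f using FreeGroup.induction_on with
  | C1 => exact ⟨0, fun u => by simp⟩
  | of x => exact hl (x, true)
  | inv_of x _ =>
    have := hl (x, false)
    have e : (mk [(x, false)] : FreeGroup α) = (pure x)⁻¹ := rfl
    rw [e] at this
    exact this
  | mul f f' h1 h2 =>
    obtain ⟨n, hn⟩ := h1
    obtain ⟨n', hn'⟩ := h2
    refine ⟨n + n', fun u => ?_⟩
    have h3 : {y | y ∈ Wt u ∧ y * (f * f') ∉ Wt u} ⊆ {y | y ∈ Wt u ∧ y * f ∉ Wt u} ∪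
        (fun z => z * f⁻¹) '' {z | z ∈ Wt u ∧ z * f' ∉ Wt u} := by
      rintro y ⟨h4, h5⟩
      by_cases h6 : y * f ∈ Wt u
      · right
        refine ⟨y * f, ⟨h6, ?_⟩, ?_⟩
        · rw [mul_assoc]; exact h5
        · show y * f * f⁻¹ = y
          group
      · exact Or.inl ⟨h4, h6⟩
    refine (Set.encard_le_encard h3).trans ((Set.encard_union_le _ _).trans ?_)
    rw [Nat.cast_add]
    exact add_le_add (hn u) ((Set.encard_image_le _ _).trans (hn' u))

/-- the letters of an element -/
def supp (f : FreeGroup α) : Set α := {a | ∃ l ∈ f.toWord, l.1 = a}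

theorem supp_finite (f : FreeGroup α) : (supp f).Finite := by
  refine (f.toWord.map Prod.fst).finite_toSet.subset ?_
  rintro a ⟨l, hl, rfl⟩
  exact List.mem_map_of_mem hl

theorem mk_mem {S : Set α} (w : List (α × Bool)) (h : ∀ l ∈ w, l.1 ∈ S) :
    mk w ∈ Subgroup.closure (of '' S) := by
  induction w with
  | nil => exact Subgroup.one_mem _
  | cons l w ih =>
    have e : (mk (l :: w) : FreeGroup α) = mk [l] * mk w := by rw [mul_mk]; rfl
    rw [e]
    refine Subgroup.mul_mem _ ?_ (ih fun l' hl' => h l' (List.mem_cons_of_mem _ hl'))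
    have h1 : of l.1 ∈ Subgroup.closure (of '' S) :=
      Subgroup.subset_closure ⟨l.1, h l List.mem_cons_self, rfl⟩
    obtain ⟨a, b⟩ := l
    cases b
    · have e2 : (mk [(a, false)] : FreeGroup α) = (of a)⁻¹ := rfl
      rw [e2]
      exact Subgroup.inv_mem _ h1
    · exact h1

theorem mem_closure_iff {S : Set α} {f : FreeGroup α} :
    f ∈ Subgroup.closure (of '' S) ↔ supp f ⊆ S := by
  constructor
  · intro h
    induction h using Subgroup.closure_induction with
    | mem x hx =>
      obtain ⟨a, ha, rfl⟩ := hx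
      rintro _ ⟨l, hl, rfl⟩
      rw [toWord_of, List.mem_singleton] at hl
      rw [hl]
      exact ha
    | one =>
      rintro _ ⟨l, hl, rfl⟩
      rw [toWord_one] at hl
      exact absurd hl List.not_mem_nil
    | mul x y _ _ hx hy =>
      rintro _ ⟨l, hl, rfl⟩
      have h1 := (toWord_mul_sublist x y).subset hl
      rcases List.mem_append.1 h1 with h1 | h1
      · exact hx ⟨l, h1, rfl⟩
      · exact hy ⟨l, h1, rfl⟩
    | inv x _ hx =>
      rintro _ ⟨l, hl, rfl⟩
      rw [toWord_inv] at hl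
      unfold invRev at hl
      rw [List.mem_reverse, List.mem_map] at hl
      obtain ⟨l', hl', rfl⟩ := hl
      exact hx ⟨l', hl', rfl⟩
  · intro h
    have := mk_mem (S := S) f.toWord (fun l hl => h ⟨l, hl, rfl⟩)
    rwa [mk_toWord] at this

/-- half trees at letters outside of `S` are invariant under the words in the letters of `S` -/
theorem Wt_inv {S : Set α} {l : α × Bool} {u : List (α × Bool)} (hl : l.1 ∉ S) {f : FreeGroup α}
    (hf : f ∈ Subgroup.closure (of '' S)) (y : FreeGroup α) :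
    y * f ∈ Wt (l :: u) ↔ y ∈ Wt (l :: u) := by
  have hstep : ∀ (b : Bool) (a : α), a ∈ S → ∀ y : FreeGroup α, y ∈ Wt (l :: u) →
      y * mk [(a, b)] ∈ Wt (l :: u) := by
    intro b a ha y hy
    by_contra hc
    obtain ⟨-, c, t, h1, h2⟩ := cross_letter hy hc
    rw [List.cons.injEq] at h1
    rw [← h1.1] at h2
    exact hl (h2 ▸ ha)
  induction hf using Subgroup.closure_induction generalizing y with
  | mem x hx =>
    obtain ⟨a, ha, rfl⟩ := hx
    constructor
    · intro h
      have := hstep false a ha _ h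
      have e : y * of a * mk [(a, false)] = y := by
        have e2 : (mk [(a, false)] : FreeGroup α) = (of a)⁻¹ := rfl
        rw [e2]; group
      rwa [e] at this
    · exact hstep true a ha y
  | one => rw [mul_one]
  | mul x x' _ _ h1 h2 =>
    have h3 := (h2 (y * x)).trans (h1 y)
    rw [mul_assoc] at h3
    exact h3
  | inv x _ h1 =>
    have := h1 (y * x⁻¹)
    rw [inv_mul_cancel_right] at this
    exact this.symm

theorem exists_Wt {S : Set α} {f : FreeGroup α} (hf : f ∉ Subgroup.closure (of '' S)) :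
    ∃ l u, l.1 ∉ S ∧ f ∈ Wt (l :: u) ∧ 1 ∉ Wt (l :: u) := by
  have h1 : f⁻¹ ∉ Subgroup.closure (of '' S) := fun h => hf (by
    have := Subgroup.inv_mem _ h
    rwa [inv_inv] at this)
  rw [mem_closure_iff, Set.not_subset] at h1
  obtain ⟨_, ⟨l, hl, rfl⟩, hlS⟩ := h1
  obtain ⟨p, u, hpu⟩ := List.append_of_mem hl
  refine ⟨l, u, hlS, ⟨p, hpu.symm⟩, ?_⟩
  intro h
  have h2 : (l :: u) <:+ ((1 : FreeGroup α)⁻¹).toWord := h
  rw [inv_one, toWord_one, List.suffix_nil] at h2
  exact List.cons_ne_nil _ _ h2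

theorem suffix_cancel {a b : α × Bool} {P s : List (α × Bool)} (h : (a :: s) <:+ (P ++ [b]) ++ s) :
    a = b := by
  obtain ⟨t, ht⟩ := h
  have h1 : (t ++ [a]) ++ s = (P ++ [b]) ++ s := by rw [← ht]; simp
  have h2 := List.append_cancel_right h1
  have h3 := congrArg List.getLast? h2
  simpa using h3

open reduceCyclically in
/-- the positive powers of `g` lie in a half tree, the negative ones do not -/
theorem exists_ends {g : FreeGroup α} (hg : g ≠ 1) : ∃ u : List (α × Bool), u ≠ [] ∧
    ∀ k : ℕ, g ^ (k + 1) ∈ Wt u ∧ (g⁻¹) ^ (k + 1) ∉ Wt u := by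
  set L := (g⁻¹).toWord with hL
  have hLr : IsReduced L := isReduced_toWord
  set c := reduceCyclically L with hc
  set cj := conjugator L with hcj
  have hcr : IsCyclicallyReduced c := isCyclicallyReduced hLr
  have hdec : cj ++ c ++ invRev cj = L := conj_conjugator_reduceCyclically L
  have hcne : c ≠ [] := by
    intro h
    rw [h, List.append_nil] at hdec
    apply hg
    have h1 : g⁻¹ = mk L := mk_toWord.symm
    rw [← hdec, ← mul_mk, ← inv_mk, mul_inv_cancel] at h1
    exact inv_eq_one.1 h1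
  have hpow : ∀ k : ℕ, ((g⁻¹) ^ (k + 1)).toWord =
      cj ++ (List.replicate (k + 1) c).flatten ++ invRev cj := by
    intro k
    rw [toWord_pow]
    exact reduce_flatten_replicate_succ hLr k
  obtain ⟨c', a, hca⟩ : ∃ c' a, c = c' ++ [a] := by
    rcases List.eq_nil_or_concat c with h | ⟨c', a, h⟩
    · exact absurd h hcne
    · exact ⟨c', a, by rw [h, List.concat_eq_append]⟩
  obtain ⟨h, c'', hch⟩ : ∃ h c'', c = h :: c'' := List.exists_cons_of_ne_nil hcne
  refine ⟨a :: invRev cj, List.cons_ne_nil _ _, fun k => ⟨?_, ?_⟩⟩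
  · show (a :: invRev cj) <:+ ((g ^ (k + 1))⁻¹).toWord
    rw [← inv_pow, hpow, List.replicate_succ', List.flatten_concat]
    refine ⟨cj ++ (List.replicate k c).flatten ++ c', ?_⟩
    have e3 : ∀ X : List (α × Bool), cj ++ X ++ c' ++ (a :: invRev cj) =
        cj ++ (X ++ (c' ++ [a])) ++ invRev cj := fun X => by simp
    rw [e3, ← hca]
  · intro hh
    have h1 : (a :: invRev cj) <:+ ((((g⁻¹) ^ (k + 1)))⁻¹).toWord := hh
    rw [toWord_inv, hpow, List.replicate_succ, List.flatten_cons] at h1
    have e : invRev (cj ++ (c ++ (List.replicate k c).flatten) ++ invRev cj) =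
        (cj ++ invRev (List.replicate k c).flatten ++ invRev c'' ++ [(h.1, !h.2)]) ++ invRev cj := by
      have e1 : invRev c = invRev c'' ++ [(h.1, !h.2)] := by
        rw [hch]
        simp [invRev]
      have e2 : ∀ A B : List (α × Bool), invRev (A ++ B) = invRev B ++ invRev A := fun A B => by
        simp [invRev]
      rw [e2, e2, e2, invRev_invRev, e1]
      simp
    rw [e] at h1
    have h2 := suffix_cancel h1
    have h3 := hcr.2 a (by rw [hca]; simp) h (by rw [hch]; simp) (by rw [h2])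
    rw [h2] at h3
    simp at h3

end words

end Pool.Agent.K3h36.LR
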