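import Pool.Agent.K3h36.LR.A3

/-!
# Summable invariant weights on a coset space
-/

set_option autoImplicit false
set_option linter.unusedSectionVars false

namespace Pool.Agent.K3h36.LR

open scoped ENNReal Pointwise
open Set

section weights

variable {G : Type} [Group G] {K : Subgroup G}

/-- the types of a pair of cosets -/
def Dv (v v' : G ⧸ K) : Set G := {s | ∃ x : G, (x : G ⧸ K) = v ∧ ((x * s : G) : G ⧸ K) = v'}

theorem Dv_smul (g : G) (v v' : G ⧸ K) : Dv (g • v) (g • v') = Dv v v' := by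
  ext s
  constructor
  · rintro ⟨x, h1, h2⟩
    refine ⟨g⁻¹ * x, ?_, ?_⟩
    · have : ((g⁻¹ * x : G) : G ⧸ K) = g⁻¹ • (x : G ⧸ K) := rfl
      rw [this, h1, inv_smul_smul]
    · have : ((g⁻¹ * x * s : G) : G ⧸ K) = g⁻¹ • ((x * s : G) : G ⧸ K) := by
        rw [mul_assoc]; rfl
      rw [this, h2, inv_smul_smul]
  · rintro ⟨x, h1, h2⟩
    refine ⟨g * x, ?_, ?_⟩
    · have : ((g * x : G) : G ⧸ K) = g • (x : G ⧸ K) := rfl
      rw [this, h1]
    · have : ((g * x * s : G) : G ⧸ K) = g • ((x * s : G) : G ⧸ K) := by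
        rw [mul_assoc]; rfl
      rw [this, h2]

/-- a cut all of whose types of edges are bounded by `N` -/
def Good (N : G → ℕ) (C : Set (G ⧸ K)) : Prop :=
  ∀ s : G, {x : G | (x : G ⧸ K) ∈ C ∧ ((x * s : G) : G ⧸ K) ∉ C}.encard ≤ N s

variable (N : G → ℕ) (t : ℕ → G)

/-- the weight of a generator -/
noncomputable def wj (j : ℕ) : ℝ≥0∞ :=
  (2⁻¹) ^ (j + 1) * (((1 + N (t j) + N (t j)⁻¹ : ℕ) : ℝ≥0∞))⁻¹

theorem wj_pos (j : ℕ) : 0 < wj N t j := by
  unfold wj
  refine ENNReal.mul_pos ?_ ?_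
  · exact pow_ne_zero _ (by simp)
  · exact ENNReal.inv_ne_zero.2 (ENNReal.natCast_ne_top _)

theorem wj_sum : ∑' j, wj N t j * ((N (t j) : ℝ≥0∞) + (N (t j)⁻¹ : ℝ≥0∞)) ≤ 1 := by
  have h1 : ∀ j, wj N t j * ((N (t j) : ℝ≥0∞) + (N (t j)⁻¹ : ℝ≥0∞)) ≤ (2⁻¹ : ℝ≥0∞) ^ (j + 1) := by
    intro j
    unfold wj
    rw [mul_assoc]
    refine mul_le_of_le_one_right zero_le ?_
    rw [mul_comm, ← div_eq_mul_inv]
    refine ENNReal.div_le_of_le_mul ?_
    rw [one_mul]
    push_cast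
    rw [add_assoc]
    exact le_add_self
  refine (ENNReal.tsum_le_tsum h1).trans ?_
  have h2 : ∑' j : ℕ, (2⁻¹ : ℝ≥0∞) ^ (j + 1) = 1 := by
    have := ENNReal.tsum_geometric_add_one (2⁻¹ : ℝ≥0∞)
    rw [this]
    rw [ENNReal.one_sub_inv_two, inv_inv]
    exact ENNReal.inv_mul_cancel (by norm_num) (by norm_num)
  exact h2.le

open Classical in
/-- the weight of a pair of cosets -/
noncomputable def mw (v v' : G ⧸ K) : ℝ≥0∞ :=
  ∑' j, wj N t j * ((if t j ∈ Dv v v' then 1 else 0) + (if t j ∈ Dv v' v then 1 else 0))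

theorem mw_symm (v v' : G ⧸ K) : mw N t v v' = mw N t v' v := by
  unfold mw
  refine tsum_congr fun j => ?_
  rw [add_comm]

theorem mw_inv (g : G) (v v' : G ⧸ K) : mw N t (g • v) (g • v') = mw N t v v' := by
  unfold mw
  rw [Dv_smul, Dv_smul]

theorem wj_le_mw {j : ℕ} {v v' : G ⧸ K} (h : t j ∈ Dv v v') : wj N t j ≤ mw N t v v' := by
  unfold mw
  refine le_trans ?_ (ENNReal.le_tsum j)
  rw [if_pos h]
  calc wj N t j = wj N t j * 1 := (mul_one _).symm
    _ ≤ _ := by gcongr; exact le_self_add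

theorem mw_conn (hgen : Subgroup.closure ((K : Set G) ∪ Set.range t) = ⊤) (U : Set (G ⧸ K))
    (h1 : U.Nonempty) (h2 : Uᶜ.Nonempty) : 0 < ww (mw (K := K) N t) U := by
  by_contra hc
  have h0 : ww (mw (K := K) N t) U = 0 := le_antisymm (not_lt.1 hc) zero_le
  have hz : ∀ v v', v ∈ U → v' ∉ U → mw N t v v' = 0 := fun v v' hv hv' =>
    le_antisymm (h0 ▸ le_ww hv hv') zero_le
  have hg : ∀ g : G, ∀ x : G, ((x : G ⧸ K) ∈ U ↔ ((x * g : G) : G ⧸ K) ∈ U) := by
    intro g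
    have hgm : g ∈ Subgroup.closure ((K : Set G) ∪ Set.range t) := by
      rw [hgen]; exact Subgroup.mem_top g
    induction hgm using Subgroup.closure_induction with
    | mem s hs =>
      intro x
      rcases hs with hs | ⟨j, rfl⟩
      · have : ((x * s : G) : G ⧸ K) = (x : G ⧸ K) := by
          rw [QuotientGroup.eq]
          simpa using K.inv_mem hs
        rw [this]
      · constructor
        · intro h
          by_contra h'
          have h3 := wj_le_mw N t (j := j) (v := (x : G ⧸ K)) (v' := ((x * t j : G) : G ⧸ K))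
            ⟨x, rfl, rfl⟩
          rw [hz _ _ h h'] at h3
          exact absurd h3 (not_le.2 (wj_pos N t j))
        · intro h
          by_contra h'
          have h3 := wj_le_mw N t (j := j) (v := (x : G ⧸ K)) (v' := ((x * t j : G) : G ⧸ K))
            ⟨x, rfl, rfl⟩
          rw [mw_symm, hz _ _ h h'] at h3
          exact absurd h3 (not_le.2 (wj_pos N t j))
    | one => intro x; rw [mul_one]
    | mul a b _ _ ha hb => intro x; rw [← mul_assoc, ← hb, ← ha]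
    | inv a _ ha =>
      intro x
      have := ha (x * a⁻¹)
      rw [inv_mul_cancel_right] at this
      exact this.symm
  obtain ⟨u, hu⟩ := h1
  obtain ⟨v, hv⟩ := h2
  obtain ⟨x, rfl⟩ := QuotientGroup.mk_surjective u
  obtain ⟨y, rfl⟩ := QuotientGroup.mk_surjective v
  have h3 := (hg (x⁻¹ * y) x).1 hu
  rw [mul_inv_cancel_left] at h3
  exact hv h3

theorem tsum_ind_one {α : Type} (S : Set α) :
    ∑' p : α, S.indicator (fun _ => (1 : ℝ≥0∞)) p = ((S.encard : ℕ∞) : ℝ≥0∞) := by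
  rw [← tsum_subtype, ENNReal.tsum_set_one]

theorem good_ww {C : Set (G ⧸ K)} (hC : Good N C) : ww (mw (K := K) N t) C ≤ 1 := by
  classical
  unfold ww ee ES
  have e1 : ∀ p : (G ⧸ K) × (G ⧸ K), (C ×ˢ Cᶜ).indicator (fun p => mw N t p.1 p.2) p =
      ∑' j, wj N t j * (({p | p ∈ C ×ˢ Cᶜ ∧ t j ∈ Dv p.1 p.2}).indicator (fun _ => (1 : ℝ≥0∞)) p +
        ({p | p ∈ C ×ˢ Cᶜ ∧ t j ∈ Dv p.2 p.1}).indicator (fun _ => (1 : ℝ≥0∞)) p) := by
    intro p
    by_cases hp : p ∈ C ×ˢ Cᶜ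
    · rw [Set.indicator_of_mem hp]
      unfold mw
      refine tsum_congr fun j => ?_
      congr 1
      congr 1
      · by_cases h : t j ∈ Dv p.1 p.2
        · rw [if_pos h, Set.indicator_of_mem (show p ∈ {p | p ∈ C ×ˢ Cᶜ ∧ t j ∈ Dv p.1 p.2} from
            ⟨hp, h⟩)]
        · rw [if_neg h, Set.indicator_of_notMem (fun h' => h h'.2)]
      · by_cases h : t j ∈ Dv p.2 p.1
        · rw [if_pos h, Set.indicator_of_mem (show p ∈ {p | p ∈ C ×ˢ Cᶜ ∧ t j ∈ Dv p.2 p.1} from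
            ⟨hp, h⟩)]
        · rw [if_neg h, Set.indicator_of_notMem (fun h' => h h'.2)]
    · rw [Set.indicator_of_notMem hp]
      symm
      rw [ENNReal.tsum_eq_zero]
      intro j
      rw [Set.indicator_of_notMem (fun h' => hp h'.1), Set.indicator_of_notMem (fun h' => hp h'.1)]
      simp
  rw [tsum_congr e1, ENNReal.tsum_comm]
  refine le_trans (ENNReal.tsum_le_tsum fun j => ?_) (wj_sum N t)
  rw [ENNReal.tsum_mul_left, ENNReal.tsum_add, tsum_ind_one, tsum_ind_one]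
  have hb1 : {p : (G ⧸ K) × (G ⧸ K) | p ∈ C ×ˢ Cᶜ ∧ t j ∈ Dv p.1 p.2}.encard ≤ N (t j) := by
    refine le_trans ?_ (hC (t j))
    refine le_trans (Set.encard_le_encard ?_) (Set.encard_image_le
      (fun x : G => ((x : G ⧸ K), ((x * t j : G) : G ⧸ K))) _)
    rintro ⟨v, v'⟩ ⟨⟨h1, h2⟩, x, rfl, rfl⟩
    exact ⟨x, ⟨h1, h2⟩, rfl⟩
  have hb2 : {p : (G ⧸ K) × (G ⧸ K) | p ∈ C ×ˢ Cᶜ ∧ t j ∈ Dv p.2 p.1}.encard ≤ N (t j)⁻¹ := by
    refine le_trans ?_ (hC (t j)⁻¹)
    refine le_trans (Set.encard_le_encard ?_) (Set.encard_image_le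
      (fun x : G => ((x : G ⧸ K), ((x * (t j)⁻¹ : G) : G ⧸ K))) _)
    rintro ⟨v, v'⟩ ⟨⟨h1, h2⟩, x, h3, h4⟩
    simp only at h3 h4
    refine ⟨x * t j, ⟨?_, ?_⟩, ?_⟩
    · rw [h4]; exact h1
    · rw [mul_inv_cancel_right, h3]; exact h2
    · show (((x * t j : G) : G ⧸ K), ((x * t j * (t j)⁻¹ : G) : G ⧸ K)) = (v, v')
      rw [mul_inv_cancel_right, h3, h4]
  gcongr
  · exact_mod_cast hb1
  · exact_mod_cast hb2

/-- cuts of finite weight have finitely many edges of each type -/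
theorem fin_type (hgen : Subgroup.closure ((K : Set G) ∪ Set.range t) = ⊤)
    (hst : ∀ x y : G ⧸ K, x ≠ y → {g : G | g • x = x ∧ g • y = y}.Finite) {C : Set (G ⧸ K)}
    (hC : ww (mw (K := K) N t) C ≠ ∞) (s : G) :
    {x : G | (x : G ⧸ K) ∈ C ∧ ((x * s : G) : G ⧸ K) ∉ C}.Finite := by
  have hC' : ww (mw (K := K) N t) Cᶜ ≠ ∞ := by
    rw [ww_compl (mw_symm N t)]; exact hC
  have hgenr : ∀ (C : Set (G ⧸ K)), ww (mw (K := K) N t) C ≠ ∞ → ∀ j,
      {x : G | (x : G ⧸ K) ∈ C ∧ ((x * t j : G) : G ⧸ K) ∉ C}.Finite := by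
    intro C hC j
    have h1 : {p : (G ⧸ K) × (G ⧸ K) | wj N t j ≤
        (C ×ˢ Cᶜ).indicator (fun p => mw N t p.1 p.2) p}.Finite :=
      ENNReal.finite_const_le_of_tsum_ne_top hC (wj_pos N t j).ne'
    have h2 : (((fun x : G => ((x : G ⧸ K), ((x * t j : G) : G ⧸ K)))) ⁻¹'
        ({p : (G ⧸ K) × (G ⧸ K) | wj N t j ≤
        (C ×ˢ Cᶜ).indicator (fun p => mw N t p.1 p.2) p} ∩ C ×ˢ Cᶜ)).Finite := by
      refine (h1.subset Set.inter_subset_left).preimage' ?_
      rintro ⟨v, v'⟩ ⟨-, hv, hv'⟩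
      have hne : v ≠ v' := fun e => hv' (e ▸ hv)
      by_cases hex : ∃ x : G, ((x : G ⧸ K), ((x * t j : G) : G ⧸ K)) = (v, v')
      · obtain ⟨x, hx⟩ := hex
        have hx1 : (x : G ⧸ K) = v := congrArg Prod.fst hx
        have hx2 : ((x * t j : G) : G ⧸ K) = v' := congrArg Prod.snd hx
        refine ((hst v v' hne).image fun g => g * x).subset ?_
        intro y hy
        have hy' : ((y : G ⧸ K), ((y * t j : G) : G ⧸ K)) = (v, v') := hy
        have hy1 : (y : G ⧸ K) = v := congrArg Prod.fst hy'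
        have hy2 : ((y * t j : G) : G ⧸ K) = v' := congrArg Prod.snd hy'
        refine ⟨y * x⁻¹, ⟨?_, ?_⟩, by group⟩
        · rw [← hx1]
          show ((y * x⁻¹ * x : G) : G ⧸ K) = _
          rw [inv_mul_cancel_right, hy1, hx1]
        · rw [← hx2]
          show ((y * x⁻¹ * (x * t j) : G) : G ⧸ K) = _
          rw [← mul_assoc, inv_mul_cancel_right, hy2, hx2]
      · refine Set.finite_empty.subset ?_
        intro x hx
        exact hex ⟨x, hx⟩
    refine h2.subset ?_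
    rintro x ⟨h3, h4⟩
    have h5 : ((x : G ⧸ K), ((x * t j : G) : G ⧸ K)) ∈ C ×ˢ Cᶜ := ⟨h3, h4⟩
    refine ⟨?_, h3, h4⟩
    show wj N t j ≤ (C ×ˢ Cᶜ).indicator (fun p => mw N t p.1 p.2)
      ((x : G ⧸ K), ((x * t j : G) : G ⧸ K))
    rw [Set.indicator_of_mem h5]
    exact wj_le_mw N t ⟨x, rfl, rfl⟩
  -- both orientations
  suffices h : {x : G | (x : G ⧸ K) ∈ C ∧ ((x * s : G) : G ⧸ K) ∉ C}.Finite ∧
      {x : G | (x : G ⧸ K) ∉ C ∧ ((x * s : G) : G ⧸ K) ∈ C}.Finite from h.1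
  have hgm : s ∈ Subgroup.closure ((K : Set G) ∪ Set.range t) := by
    rw [hgen]; exact Subgroup.mem_top s
  induction hgm using Subgroup.closure_induction with
  | mem s hs =>
    rcases hs with hs | ⟨j, rfl⟩
    · have : ∀ x : G, ((x * s : G) : G ⧸ K) = (x : G ⧸ K) := by
        intro x
        rw [QuotientGroup.eq]
        simpa using K.inv_mem hs
      constructor
      · refine Set.finite_empty.subset ?_
        rintro x ⟨h1, h2⟩
        rw [this] at h2
        exact h2 h1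
      · refine Set.finite_empty.subset ?_
        rintro x ⟨h1, h2⟩
        rw [this] at h2
        exact h1 h2
    · refine ⟨hgenr C hC j, ?_⟩
      refine (hgenr Cᶜ hC' j).subset ?_
      rintro x ⟨h1, h2⟩
      exact ⟨h1, fun h => h h2⟩
  | one =>
    simp only [mul_one]
    constructor
    · refine Set.finite_empty.subset ?_
      rintro x ⟨h1, h2⟩
      exact h2 h1
    · refine Set.finite_empty.subset ?_
      rintro x ⟨h1, h2⟩
      exact h1 h2
  | mul a b _ _ ha hb =>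
    constructor
    · refine (ha.1.union (hb.1.image fun x => x * a⁻¹)).subset ?_
      rintro x ⟨h1, h2⟩
      by_cases h3 : ((x * a : G) : G ⧸ K) ∈ C
      · right
        refine ⟨x * a, ⟨h3, ?_⟩, by group⟩
        rw [mul_assoc]; exact h2
      · exact Or.inl ⟨h1, h3⟩
    · refine (ha.2.union (hb.2.image fun x => x * a⁻¹)).subset ?_
      rintro x ⟨h1, h2⟩
      by_cases h3 : ((x * a : G) : G ⧸ K) ∈ C
      · exact Or.inl ⟨h1, h3⟩
      · right
        refine ⟨x * a, ⟨h3, ?_⟩, by group⟩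
        rw [mul_assoc]; exact h2
  | inv a _ ha =>
    constructor
    · refine (ha.2.image fun x => x * a).subset ?_
      rintro x ⟨h1, h2⟩
      refine ⟨x * a⁻¹, ⟨h2, ?_⟩, by group⟩
      rw [inv_mul_cancel_right]; exact h1
    · refine (ha.1.image fun x => x * a).subset ?_
      rintro x ⟨h1, h2⟩
      refine ⟨x * a⁻¹, ⟨h2, ?_⟩, by group⟩
      rw [inv_mul_cancel_right]; exact h1

theorem fin_cross' {C : Set (G ⧸ K)}
    (hC : ∀ s : G, {x : G | (x : G ⧸ K) ∈ C ∧ ((x * s : G) : G ⧸ K) ∉ C}.Finite) (x y : G ⧸ K) :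
    {g : G | x ∈ g • C ∧ y ∉ g • C}.Finite := by
  obtain ⟨a, rfl⟩ := QuotientGroup.mk_surjective x
  obtain ⟨b, rfl⟩ := QuotientGroup.mk_surjective y
  have hinj : Function.Injective fun g : G => g⁻¹ * a := by
    intro g g' h
    simpa using h
  refine ((hC (a⁻¹ * b)).preimage hinj.injOn).subset ?_
  rintro g ⟨h1, h2⟩
  refine ⟨?_, fun h3 => h2 ?_⟩
  · exact Set.mem_smul_set_iff_inv_smul_mem.1 h1
  · rw [Set.mem_smul_set_iff_inv_smul_mem]
    have e : ((g⁻¹ * a * (a⁻¹ * b) : G) : G ⧸ K) = g⁻¹ • (b : G ⧸ K) := by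
      have : g⁻¹ * a * (a⁻¹ * b) = g⁻¹ * b := by group
      rw [this]; rfl
    rw [← e]
    exact h3

theorem Good.fin {N : G → ℕ} {C : Set (G ⧸ K)} (hC : Good N C) (s : G) :
    {x : G | (x : G ⧸ K) ∈ C ∧ ((x * s : G) : G ⧸ K) ∉ C}.Finite := by
  refine Set.finite_of_encard_le_coe (k := N s) (hC s)

/-- pairs separated by a good cut have finite stabilisers -/
theorem stab_fin {C : Set (G ⧸ K)}
    (hC : ∀ s : G, {x : G | (x : G ⧸ K) ∈ C ∧ ((x * s : G) : G ⧸ K) ∉ C}.Finite) {x y : G ⧸ K}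
    (hx : x ∈ C) (hy : y ∉ C) : {g : G | g • x = x ∧ g • y = y}.Finite := by
  obtain ⟨a, rfl⟩ := QuotientGroup.mk_surjective x
  obtain ⟨b, rfl⟩ := QuotientGroup.mk_surjective y
  have hinj : Function.Injective fun g : G => g * a := fun g g' h => mul_right_cancel h
  refine ((hC (a⁻¹ * b)).preimage hinj.injOn).subset ?_
  rintro g ⟨h1, h2⟩
  refine ⟨?_, ?_⟩
  · have : ((g * a : G) : G ⧸ K) = g • (a : G ⧸ K) := rfl
    rw [this, h1]; exact hx
  · have e : ((g * a * (a⁻¹ * b) : G) : G ⧸ K) = g • (b : G ⧸ K) := by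
      have : g * a * (a⁻¹ * b) = g * b := by group
      rw [this]; rfl
    rw [e, h2]
    exact hy

end weights

end Pool.Agent.K3h36.LR
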