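import Pool.Agent.K3h36.LR.A5

/-!
# The absolute family of cuts of a countable group
-/

set_option autoImplicit false
set_option linter.unusedSectionVars false

namespace Pool.Agent.K3h36.LR

open scoped ENNReal Pointwise
open Set

section absolute

variable {G : Type} [Group G]

theorem ev_const {V : Type} [MulAction G V] {m : V → V → ℝ≥0∞} (hs : ∀ x y, m x y = m y x)
    (hpos : ∀ x y, x ≠ y → 0 < m x y) (hinv : ∀ (g : G) (x y : V), m (g • x) (g • y) = m x y) {g : G}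
    {v : V} (hinj : Function.Injective fun k : ℕ => g ^ k • v) {C : Set V} (hC : ww m C ≠ ∞)
    (h : C ∈ om g v) : ∃ k0 : ℕ, ∀ k, k0 ≤ k → g ^ k • v ∈ C := by
  have h1 := ev_iff hs hpos hinv hinj hC
  rw [Nat.cofinite_eq_atTop, Filter.eventually_atTop] at h1
  obtain ⟨k0, hk0⟩ := h1
  have h2 : ∀ᶠ k in (Filter.hyperfilter ℕ : Filter ℕ), k0 ≤ k :=
    Nat.hyperfilter_le_atTop (Filter.eventually_ge_atTop k0)
  obtain ⟨k1, h3, h4⟩ := ((mem_om.1 h).and h2).exists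
  refine ⟨k1, fun k hk => ?_⟩
  induction k, hk using Nat.le_induction with
  | base => exact h3
  | succ n hn ih => exact (hk0 n (h4.trans hn)).1 ih

/-- conclusions about a family of half spaces -/
structure Fam {V : Type} [MulAction G V] (𝓔 : Set (Set V)) : Prop where
  inv : ∀ (g : G), ∀ E ∈ 𝓔, g • E ∈ 𝓔
  compl : ∀ E ∈ 𝓔, Eᶜ ∈ 𝓔
  nest : ∀ E ∈ 𝓔, ∀ F ∈ 𝓔, Nested E F
  fin : ∀ x y, {E | E ∈ 𝓔 ∧ x ∈ E ∧ y ∉ E}.Finite
  ne : ∀ E ∈ 𝓔, E.Nonempty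
  cross : ∀ E ∈ 𝓔, ∀ x y, {g : G | x ∈ g • E ∧ y ∉ g • E}.Finite

theorem abs_family [Countable G] (N : G → ℕ) (T0 : Set G)
    (hT : ∀ g ∈ T0, ∃ v : G ⧸ (⊥ : Subgroup G), Function.Injective (fun k : ℤ => g ^ k • v) ∧
      ∃ C : Set (G ⧸ (⊥ : Subgroup G)), Good N C ∧
        ∀ k : ℕ, g ^ (k + 1) • v ∈ C ∧ g⁻¹ ^ (k + 1) • v ∉ C) :
    ∃ 𝓔 : Set (Set (G ⧸ (⊥ : Subgroup G))), Fam (G := G) 𝓔 ∧
      ∀ g ∈ T0, ∃ E ∈ 𝓔, ∃ v : G ⧸ (⊥ : Subgroup G), ∃ k0 : ℕ, ∀ k, k0 ≤ k →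
        g ^ k • v ∈ E ∧ g⁻¹ ^ k • v ∉ E := by
  obtain ⟨t, ht⟩ := exists_surjective_nat G
  have hgen : Subgroup.closure (((⊥ : Subgroup G) : Set G) ∪ Set.range t) = ⊤ := by
    rw [ht.range_eq, Set.union_univ, Subgroup.closure_univ]
  set m := mw (K := (⊥ : Subgroup G)) N t with hm
  have hs : ∀ x y, m x y = m y x := mw_symm N t
  have hinv : ∀ (g : G) (x y : G ⧸ (⊥ : Subgroup G)), m (g • x) (g • y) = m x y := mw_inv N t
  have hpos : ∀ x y, x ≠ y → 0 < m x y := by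
    intro x y _
    obtain ⟨a, rfl⟩ := QuotientGroup.mk_surjective x
    obtain ⟨b, rfl⟩ := QuotientGroup.mk_surjective y
    obtain ⟨j, hj⟩ := ht (a⁻¹ * b)
    refine (wj_pos N t j).trans_le (wj_le_mw N t ⟨a, rfl, ?_⟩)
    rw [hj, mul_inv_cancel_left]
  have hconn := mw_conn (K := (⊥ : Subgroup G)) N t hgen
  have hst : ∀ x y : G ⧸ (⊥ : Subgroup G), x ≠ y → {g : G | g • x = x ∧ g • y = y}.Finite := by
    intro x y _
    refine (Set.finite_singleton (1 : G)).subset ?_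
    rintro g ⟨h1, -⟩
    obtain ⟨a, rfl⟩ := QuotientGroup.mk_surjective x
    have h2 : ((g * a : G) : G ⧸ (⊥ : Subgroup G)) = (a : G ⧸ (⊥ : Subgroup G)) := h1
    rw [QuotientGroup.eq, Subgroup.mem_bot] at h2
    rw [Set.mem_singleton_iff]
    have h3 : g * a = a := (inv_mul_eq_one.1 h2)
    exact mul_eq_right.1 h3
  choose! v hv1 C hC1 hC2 using hT
  have hPS : ∀ g ∈ T0, PS m g (v g) (C g) := by
    intro g hg
    have hall : ∀ᶠ k in (Filter.hyperfilter ℕ : Filter ℕ), 1 ≤ k :=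
      Nat.hyperfilter_le_atTop (Filter.eventually_ge_atTop 1)
    refine ⟨ne_top_of_le_ne_top ENNReal.one_ne_top (good_ww N t (hC1 g hg)), ?_, ?_⟩
    · rw [mem_om]
      filter_upwards [hall] with k hk
      have := (hC2 g hg (k - 1)).1
      rwa [Nat.sub_add_cancel hk] at this
    · rw [← Ultrafilter.compl_mem_iff_notMem, mem_om]
      filter_upwards [hall] with k hk
      have := (hC2 g hg (k - 1)).2
      rwa [Nat.sub_add_cancel hk] at this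
  have hex : ∀ g ∈ T0, ∃ D, Opt m (om g (v g)) (om g⁻¹ (v g)) D ∧ ww m D ≤ 1 := by
    intro g hg
    obtain ⟨D, h1, h2⟩ := exists_opt_ends hs hpos hinv (hv1 g hg) (hPS g hg)
    exact ⟨D, h1, h2.trans (good_ww N t (hC1 g hg))⟩
  choose! D hD1 hD2 using hex
  obtain ⟨inst1, inst2⟩ := exists_wellOrder T0
  obtain ⟨𝓔, h1, h2, h3, h4, h5, h6, h7, h8⟩ := select (ι := T0) hs hconn hinv (fun j => D j.1)
    (fun j => om j.1 (v j.1)) (fun j => om j.1⁻¹ (v j.1))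
    (fun j x y => fin_cross hinv hpos hst (hD1 j.1 j.2).fin x y)
    (fun i j g h => nested_of_opt hs hpos ((hD1 i.1 i.2).smul hinv g) ((hD1 j.1 j.2).smul hinv h))
    (fun j => hD1 j.1 j.2) ENNReal.one_ne_top (fun j => hD2 j.1 j.2)
  refine ⟨𝓔, ⟨h1, h2, h3, h4, h7, h8⟩, fun g hg => ?_⟩
  obtain ⟨E, hE, hE1, hE2⟩ := h5 ⟨g, hg⟩
  have hEf : ww m E ≠ ∞ := ne_top_of_le_ne_top ENNReal.one_ne_top (h6 E hE)
  obtain ⟨k0, hk0⟩ := ev_const hs hpos hinv (inj_nat (hv1 g hg)) hEf hE1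
  obtain ⟨k1, hk1⟩ := ev_const hs hpos hinv (inj_nat (inj_inv (hv1 g hg))) (C := Eᶜ)
    (by rw [ww_compl hs]; exact hEf) (Ultrafilter.compl_mem_iff_notMem.2 hE2)
  exact ⟨E, hE, v g, max k0 k1, fun k hk => ⟨hk0 k ((le_max_left _ _).trans hk),
    hk1 k ((le_max_right _ _).trans hk)⟩⟩

end absolute

end Pool.Agent.K3h36.LR
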