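import Pool.Agent.K3h36.LR.A6
import Pool.Agent.TH97.VR.Dual

/-!
# The action on the dual graph of an invariant family of half spaces; trees
-/

set_option autoImplicit false
set_option linter.unusedSectionVars false

namespace Pool.Agent.K3h36.LR

open scoped Pointwise
open Set
open Pool.Agent.TH97.VR (HSys Vt IsVert DD ZG pt DD_zero DD_symm DD_tri diff_finite diff_compl
  mem_of_not not_of_mem btw_iff ZG_median ZG_dist mem_pt compl_ne)
open Pool.Agent.H97R3.VR (IsMedian Btw Square bip dist_step qc exists_pred adj_one dist_two)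

section act

variable {G P : Type} [Group G] [MulAction G P] {𝓗 : Set (Set P)} {o : P}

/-- the action on the vertices of the dual graph -/
def gVt (S : HSys 𝓗) (hinv : ∀ (g : G), ∀ h ∈ 𝓗, g • h ∈ 𝓗) (g : G) (σ : Vt 𝓗 o) : Vt 𝓗 o :=
  ⟨g • σ.1, by
    refine ⟨?_, ?_, ?_, ?_⟩
    · rintro _ ⟨h, hh, rfl⟩
      exact hinv g h (σ.2.sub hh)
    · intro h hh
      rw [Set.mem_smul_set_iff_inv_smul_mem, Set.mem_smul_set_iff_inv_smul_mem,
        Set.smul_set_compl]
      exact σ.2.alt _ (hinv _ _ hh)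
    · intro h hh k hk hsub
      rw [Set.mem_smul_set_iff_inv_smul_mem] at hh ⊢
      exact σ.2.up _ hh _ (hinv _ _ hk) (Set.smul_set_mono hsub)
    · refine ((σ.2.fin.union (S.fin o (g⁻¹ • o))).image (fun h => g • h)).subset ?_
      rintro _ ⟨⟨h, hh, rfl⟩, h1⟩
      refine ⟨h, ?_, rfl⟩
      by_cases h2 : o ∈ h
      · right
        refine ⟨σ.2.sub hh, h2, fun h3 => h1 ?_⟩
        show o ∈ g • h
        rw [Set.mem_smul_set_iff_inv_smul_mem]
        exact h3
      · exact Or.inl ⟨hh, h2⟩⟩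

/-- the action -/
@[reducible] def actV (S : HSys 𝓗) (hinv : ∀ (g : G), ∀ h ∈ 𝓗, g • h ∈ 𝓗) :
    MulAction G (Vt 𝓗 o) where
  smul g σ := gVt S hinv g σ
  one_smul σ := Subtype.ext (one_smul G σ.1)
  mul_smul g g' σ := Subtype.ext (mul_smul g g' σ.1)

variable (S : HSys 𝓗) (hinv : ∀ (g : G), ∀ h ∈ 𝓗, g • h ∈ 𝓗)

theorem smulV (g : G) (σ : Vt 𝓗 o) : letI := actV (o := o) S hinv; (g • σ).1 = g • σ.1 := rfl

theorem mem_smulV (g : G) (σ : Vt 𝓗 o) (h : Set P) :
    letI := actV (o := o) S hinv; h ∈ (g • σ).1 ↔ g⁻¹ • h ∈ σ.1 := by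
  letI := actV (o := o) S hinv
  show h ∈ g • σ.1 ↔ _
  rw [Set.mem_smul_set_iff_inv_smul_mem]

theorem smul_ptV (g : G) (a : P) :
    letI := actV (o := o) S hinv; g • pt S o a = pt S o (g • a) := by
  letI := actV (o := o) S hinv
  apply Subtype.ext
  ext h
  rw [mem_smulV]
  constructor
  · rintro ⟨h1, h2⟩
    rw [Set.mem_smul_set_iff_inv_smul_mem, inv_inv] at h2
    have := hinv g _ h1
    rw [smul_inv_smul] at this
    exact ⟨this, h2⟩
  · rintro ⟨h1, h2⟩
    refine ⟨hinv _ _ h1, ?_⟩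
    rw [Set.mem_smul_set_iff_inv_smul_mem, inv_inv]
    exact h2

theorem DD_smulV (g : G) (σ τ : Vt 𝓗 o) :
    letI := actV (o := o) S hinv; DD (g • σ) (g • τ) = DD σ τ := by
  letI := actV (o := o) S hinv
  unfold DD
  rw [smulV S hinv, smulV S hinv, ← Set.smul_set_sdiff]
  exact Set.ncard_image_of_injective _ (MulAction.injective g)

theorem adj_smulV (g : G) (σ τ : Vt 𝓗 o) :
    letI := actV (o := o) S hinv; (ZG S o).Adj σ τ → (ZG S o).Adj (g • σ) (g • τ) := by
  letI := actV (o := o) S hinv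
  intro h
  show DD (g • σ) (g • τ) = 1
  rw [DD_smulV S hinv]
  exact h

/-- an element with two ends on different sides of a half space fixes no vertex -/
theorem fixfree {g : G} {E : Set P} (hE : E ∈ 𝓗) {v : P} {k0 : ℕ}
    (hk : ∀ k, k0 ≤ k → g ^ k • v ∈ E ∧ g⁻¹ ^ k • v ∉ E) (σ : Vt 𝓗 o) :
    letI := actV (o := o) S hinv; g • σ ≠ σ := by
  letI := actV (o := o) S hinv
  -- the statement for half spaces in the vertex
  have main : ∀ (g : G) (E : Set P), (∀ k, k0 ≤ k → g ^ k • v ∈ E ∧ g⁻¹ ^ k • v ∉ E) →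
      E ∈ σ.1 → g • σ ≠ σ := by
    intro g E hk hEσ hgσ
    have h1 : ∀ n : ℕ, g ^ n • E ∈ σ.1 := by
      intro n
      induction n with
      | zero => rw [pow_zero, one_smul]; exact hEσ
      | succ n ih =>
        rw [← hgσ, mem_smulV, pow_succ', mul_smul, inv_smul_smul]
        exact ih
    have h2 : {h | h ∈ σ.1 ∧ v ∉ h}.Finite := by
      refine (σ.2.fin.union (S.fin o v)).subset ?_
      rintro h ⟨h3, h4⟩
      by_cases h5 : o ∈ h
      · exact Or.inr ⟨σ.2.sub h3, h5, h4⟩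
      · exact Or.inl ⟨h3, h5⟩
    have h3 : ¬ Function.Injective fun n : ℕ => g ^ (k0 + n) • E := by
      intro hi
      refine Set.infinite_of_injective_forall_mem hi (s := {h | h ∈ σ.1 ∧ v ∉ h}) ?_ h2
      intro n
      refine ⟨h1 _, ?_⟩
      rw [Set.mem_smul_set_iff_inv_smul_mem, ← inv_pow]
      exact (hk _ (Nat.le_add_right _ _)).2
    rw [Function.Injective] at h3
    push Not at h3
    obtain ⟨a, b, h4, h5⟩ := h3
    wlog hab : a < b generalizing a b with H
    · exact H b a h4.symm h5.symm (by omega)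
    obtain ⟨d, rfl⟩ := Nat.exists_eq_add_of_lt hab
    have h6 : g ^ (d + 1) • E = E := by
      have e : g ^ (k0 + (a + d + 1)) = g ^ (k0 + a) * g ^ (d + 1) := by
        rw [← pow_add]; congr 1; omega
      rw [e, mul_smul] at h4
      exact (smul_left_cancel_iff _).1 h4.symm
    have h7 : ∀ j : ℕ, (g⁻¹) ^ ((d + 1) * j) • E = E := by
      intro j
      induction j with
      | zero => rw [mul_zero, pow_zero, one_smul]
      | succ j ih =>
        rw [mul_add, mul_one, pow_add, mul_smul]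
        have : (g⁻¹) ^ (d + 1) • E = E := by
          rw [inv_pow]
          exact inv_smul_eq_iff.2 h6.symm
        rw [this, ih]
    have h8 := (hk (k0 + 0) (by omega)).1
    have h9 : (g⁻¹) ^ ((d + 1) * (2 * k0)) • (g ^ (k0 + 0) • v) ∈ E := by
      have := Set.smul_mem_smul_set (a := (g⁻¹) ^ ((d + 1) * (2 * k0))) h8
      rwa [h7] at this
    have e2 : (g⁻¹) ^ ((d + 1) * (2 * k0)) * g ^ (k0 + 0) = (g⁻¹) ^ (2 * d * k0 + k0) := by
      have e3 : (d + 1) * (2 * k0) = (2 * d * k0 + k0) + k0 := by ring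
      rw [e3, pow_add, add_zero, mul_assoc, inv_pow g k0, inv_mul_cancel, mul_one]
    rw [← mul_smul, e2] at h9
    exact (hk _ (Nat.le_add_left _ _)).2 h9
  by_cases h : E ∈ σ.1
  · exact main g E hk h
  · intro hg
    refine main g⁻¹ Eᶜ (fun k hk' => ⟨(hk k hk').2, ?_⟩) (mem_of_not hE h) ?_
    · rw [inv_inv]
      exact fun h' => h' (hk k hk').1
    · rw [inv_smul_eq_iff]
      exact hg.symm

/-- adjacent vertices differ in one half space -/
theorem adj_lab' {x y : Vt 𝓗 o} (h : (ZG S o).Adj x y) :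
    ∃ k, k ∈ 𝓗 ∧ y.1 \ x.1 = {k} ∧ x.1 \ y.1 = {kᶜ} := by
  have h1 : DD y x = 1 := by rw [DD_symm S]; exact h
  obtain ⟨k, hk⟩ := Set.ncard_eq_one.1 h1
  have hk' : k ∈ y.1 \ x.1 := by rw [hk]; rfl
  refine ⟨k, y.2.sub hk'.1, hk, ?_⟩
  rw [← diff_compl S, hk, Set.image_singleton]

theorem btw_of_adj' {x y w : Vt 𝓗 o} (h1 : (ZG S o).Adj x y) (h2 : (ZG S o).Adj y w)
    (hne : x ≠ w) : x.1 ∩ w.1 ⊆ y.1 := by
  rw [← btw_iff S]
  unfold H97R3.VR.Btw
  rw [dist_two (ZG_median S o) h1.symm h2 hne, adj_one h1, adj_one h2]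

/-- the dual graph of a nested family has no squares -/
theorem nosq (hnest : ∀ E ∈ 𝓗, ∀ F ∈ 𝓗, Nested E F) (x y w z : Vt 𝓗 o) :
    ¬ Square (ZG S o) x y w z := by
  intro h
  have b1 := btw_of_adj' S h.xy h.yw h.ne
  have b2 := btw_of_adj' S h.zx.symm h.wz.symm h.ne
  have b3 := btw_of_adj' S h.xy.symm h.zx.symm h.ne'
  have b4 := btw_of_adj' S h.yw h.wz h.ne'
  obtain ⟨k, hk, k1, k2⟩ := adj_lab' S h.xy
  obtain ⟨l, hl, l1, l2⟩ := adj_lab' S h.zx.symm
  have hky : k ∈ y.1 \ x.1 := by rw [k1]; rfl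
  have hlz : l ∈ z.1 \ x.1 := by rw [l1]; rfl
  have hkx : kᶜ ∈ x.1 := mem_of_not hk hky.2
  have hlx : lᶜ ∈ x.1 := mem_of_not hl hlz.2
  -- k is not in z, l is not in y
  have hkz : kᶜ ∈ z.1 := by
    refine mem_of_not hk fun h' => ?_
    exact hky.2 (b3 ⟨hky.1, h'⟩)
  have hly : lᶜ ∈ y.1 := by
    refine mem_of_not hl fun h' => ?_
    exact hlz.2 (b3 ⟨h', hlz.1⟩)
  have hkw : k ∈ w.1 := by
    by_contra h'
    have : kᶜ ∈ y.1 := b1 ⟨hkx, mem_of_not hk h'⟩
    exact not_of_mem hky.1 this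
  have hlw : l ∈ w.1 := by
    by_contra h'
    have : lᶜ ∈ z.1 := b2 ⟨hlx, mem_of_not hl h'⟩
    exact not_of_mem hlz.1 this
  rcases hnest k hk l hl with h1 | h1 | h1 | h1
  · exact not_of_mem (y.2.up k hky.1 l hl h1) hly
  · exact not_of_mem (z.2.up l hlz.1 k hk h1) hkz
  · have h2 : k ⊆ lᶜ := fun a ha hb => by
      have : a ∈ k ∩ l := ⟨ha, hb⟩
      rw [h1] at this
      exact this
    exact not_of_mem hlw (w.2.up k hkw lᶜ (S.compl l hl) h2)
  · have h2 : kᶜ ⊆ l := fun a ha => by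
      have : a ∈ k ∪ l := h1 ▸ mem_univ a
      exact this.resolve_left ha
    exact hlz.2 (x.2.up kᶜ hkx l hl h2)

end act

/-! ### finite groups acting on trees -/

section tree

variable {V : Type} {X : SimpleGraph V}

theorem incr (hX : IsMedian X) (hsq : ∀ x y w z, ¬ Square X x y w z) (z : V) (k : ℕ) :
    ∀ u x u' : V, X.Adj u x → X.dist x u' = k → X.dist u u' = k + 1 →
      X.dist z x = X.dist z u + 1 → X.dist z u' = X.dist z u + (k + 1) := by
  induction k with
  | zero =>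
    intro u x u' h1 h2 h3 h4
    have h5 : x = u' := hX.conn.dist_eq_zero_iff.1 h2
    rw [← h5, h4]
  | succ k ih =>
    intro u x u' h1 h2 h3 h4
    obtain ⟨y, hy1, hy2⟩ := exists_pred hX.conn (u := u') (x := x) (n := k)
      (by rw [SimpleGraph.dist_comm]; exact h2)
    rw [SimpleGraph.dist_comm] at hy2
    have hyu : y ≠ u := by
      intro e
      rw [e] at hy2
      omega
    rcases dist_step hX z hy1 with h5 | h5
    · -- dist z x = dist z y + 1
      exfalso
      obtain ⟨w, hw1, hw2, hw3⟩ := qc hX (u := z) (n := X.dist z u) h1.symm hy1.symm hyu.symm rfl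
        (by omega)
      refine hsq w u x y ⟨hw1, h1, hy1.symm, hw2.symm, ?_, hyu.symm⟩
      intro e
      rw [e] at hw3
      omega
    · have h6 := ih x y u' hy1.symm hy2 h2 (by omega)
      omega

theorem even_iff (hX : IsMedian X) (τ : V → Prop) (hτ : ∀ x y, X.Adj x y → (τ x ↔ ¬ τ y)) (n : ℕ) :
    ∀ a b, X.dist a b = n → (Even n ↔ (τ a ↔ τ b)) := by
  induction n with
  | zero =>
    intro a b h
    have := hX.conn.dist_eq_zero_iff.1 h
    subst this
    simp
  | succ n ih =>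
    intro a b h
    obtain ⟨y, hy1, hy2⟩ := exists_pred hX.conn h
    have h1 := ih a y hy2
    have h2 := hτ y b hy1
    rw [Nat.even_add_one, h1]
    tauto

/-- a finite group acting on a bicoloured tree fixes a vertex -/
theorem fixed_vertex {A : Type} [Group A] [Finite A] [MulAction A V] (hX : IsMedian X)
    (hsq : ∀ x y w z, ¬ Square X x y w z) (hA : ∀ (a : A) (x y : V), X.Adj x y → X.Adj (a • x) (a • y))
    (τ : V → Prop) (hτ : ∀ x y, X.Adj x y → (τ x ↔ ¬ τ y)) (hτA : ∀ (a : A) x, τ (a • x) ↔ τ x) :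
    ∃ v : V, ∀ a : A, a • v = v := by
  classical
  have := Fintype.ofFinite A
  obtain ⟨v0⟩ := hX.conn.nonempty
  have hdle : ∀ (a : A) (x y : V), X.dist (a • x) (a • y) ≤ X.dist x y := by
    intro a x y
    obtain ⟨p, hp⟩ := hX.conn.exists_walk_length_eq_dist x y
    let f : X →g X := ⟨fun x => a • x, fun {x y} h => hA a x y h⟩
    have h1 := SimpleGraph.dist_le (p.map f)
    rw [SimpleGraph.Walk.length_map, hp] at h1
    exact h1
  have hd : ∀ (a : A) (x y : V), X.dist (a • x) (a • y) = X.dist x y := by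
    intro a x y
    refine le_antisymm (hdle a x y) ?_
    have := hdle a⁻¹ (a • x) (a • y)
    rwa [inv_smul_smul, inv_smul_smul] at this
  set r : V → ℕ := fun u => Finset.univ.sup fun a : A => X.dist (a • v0) u with hr
  have hle : ∀ u (a : A), X.dist (a • v0) u ≤ r u := fun u a =>
    Finset.le_sup (f := fun a : A => X.dist (a • v0) u) (Finset.mem_univ a)
  have hatt : ∀ u, ∃ a : A, X.dist (a • v0) u = r u := by
    intro u
    obtain ⟨a, -, ha⟩ := Finset.exists_mem_eq_sup (Finset.univ : Finset A) ⟨1, Finset.mem_univ 1⟩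
      (fun a : A => X.dist (a • v0) u)
    exact ⟨a, ha.symm⟩
  have hra : ∀ (a : A) u, r (a • u) = r u := by
    have h1 : ∀ (a : A) u, r (a • u) ≤ r u := by
      intro a u
      refine Finset.sup_le fun b _ => ?_
      have h2 : X.dist (b • v0) (a • u) = X.dist ((a⁻¹ * b) • v0) u := by
        rw [← hd a ((a⁻¹ * b) • v0) u, ← mul_smul, mul_inv_cancel_left]
      rw [h2]
      exact hle u _
    intro a u
    refine le_antisymm (h1 a u) ?_
    have := h1 a⁻¹ (a • u)
    rwa [inv_smul_smul] at this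
  obtain ⟨u, -, hu⟩ := (measure r).wf.has_min Set.univ ⟨v0, Set.mem_univ _⟩
  have hmin : ∀ w, r u ≤ r w := fun w => not_lt.1 (hu w (Set.mem_univ w))
  refine ⟨u, fun a => ?_⟩
  by_contra hne
  set u' := a • u with hu'
  have hru' : r u' = r u := hra a u
  obtain ⟨k, hk⟩ : ∃ k, X.dist u u' = k := ⟨_, rfl⟩
  -- parity
  have hpar := even_iff hX τ hτ
  have hkeven : Even k := by
    rw [hpar k u u' hk]
    exact (hτA a u).symm
  rcases k with _ | k
  · exact hne (hX.conn.dist_eq_zero_iff.1 hk).symm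
  rcases k with _ | k
  · exact absurd hkeven (by decide)
  obtain ⟨x1, h1, h2⟩ := exists_pred hX.conn (u := u') (x := u) (n := k + 1)
    (by rw [SimpleGraph.dist_comm]; exact hk)
  rw [SimpleGraph.dist_comm] at h2
  have h3 : r x1 < r u := by
    obtain ⟨b, hb⟩ := hatt x1
    rw [← hb]
    rcases dist_step hX (b • v0) h1 with h4 | h4
    · have := hle u b
      omega
    · have h5 := incr hX hsq (b • v0) (k + 1) u x1 u' h1.symm h2 hk h4
      have := hle u' b
      omega
  exact absurd (hmin x1) (not_le.2 h3)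

end tree

end Pool.Agent.K3h36.LR
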