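import Pool.Agent.K3h36.LR.A7

/-!
# Barycentric subdivision of the dual tree
-/

set_option autoImplicit false
set_option linter.unusedSectionVars false
set_option linter.style.haveILetI false

namespace Pool.Agent.K3h36.LR

open scoped Pointwise
open Set
open Pool.Agent.TH97.VR (HSys Vt IsVert DD ZG pt DD_zero DD_symm DD_tri diff_finite diff_compl
  mem_of_not not_of_mem btw_iff ZG_median ZG_dist mem_pt compl_ne)
open Pool.Agent.H97R3.VR (IsMedian Btw Square bip dist_step qc exists_pred adj_one dist_two)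

section sub

variable {G V : Type} [Group G] [MulAction G V] {𝓔 : Set (Set V)}

/-- the action on points and midpoints -/
@[reducible] def actP (hF : Fam (G := G) 𝓔) : MulAction G (V ⊕ 𝓔) where
  smul g p := Sum.map (fun v => g • v) (fun E => ⟨g • E.1, hF.inv g E.1 E.2⟩) p
  one_smul p := by
    rcases p with v | E
    · exact congrArg Sum.inl (one_smul G v)
    · exact congrArg Sum.inr (Subtype.ext (one_smul G E.1))
  mul_smul g g' p := by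
    rcases p with v | E
    · exact congrArg Sum.inl (mul_smul g g' v)
    · exact congrArg Sum.inr (Subtype.ext (mul_smul g g' E.1))

/-- the lift of a half space not containing the midpoint of its boundary edge -/
def Sh (𝓔 : Set (Set V)) (E : Set V) : Set (V ⊕ 𝓔) :=
  {p | Sum.elim (fun v => v ∈ E) (fun D => D.1 ⊂ E ∨ (D.1)ᶜ ⊂ E) p}

theorem mem_inl {E : Set V} {v : V} : (Sum.inl v : V ⊕ 𝓔) ∈ Sh 𝓔 E ↔ v ∈ E := Iff.rfl

theorem mem_inr {E : Set V} {D : 𝓔} :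
    (Sum.inr D : V ⊕ 𝓔) ∈ Sh 𝓔 E ↔ (D.1 ⊂ E ∨ (D.1)ᶜ ⊂ E) := Iff.rfl

theorem ssub_smul (g : G) (A B : Set V) : g⁻¹ • A ⊂ B ↔ A ⊂ g • B := by
  have h1 : g⁻¹ • A ⊆ B ↔ A ⊆ g • B := by
    rw [Set.smul_set_subset_iff_subset_inv_smul_set, inv_inv]
  have h2 : B ⊆ g⁻¹ • A ↔ g • B ⊆ A := by
    rw [Set.subset_smul_set_iff, inv_inv]
  rw [Set.ssubset_def, Set.ssubset_def, h1, h2]

theorem Sh_smul (hF : Fam (G := G) 𝓔) (g : G) (E : Set V) :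
    letI := actP hF; g • Sh 𝓔 E = Sh 𝓔 (g • E) := by
  letI := actP hF
  ext p
  rw [Set.mem_smul_set_iff_inv_smul_mem]
  rcases p with v | D
  · show g⁻¹ • v ∈ E ↔ v ∈ g • E
    rw [Set.mem_smul_set_iff_inv_smul_mem]
  · show (g⁻¹ • D.1 ⊂ E ∨ (g⁻¹ • D.1)ᶜ ⊂ E) ↔ (D.1 ⊂ g • E ∨ (D.1)ᶜ ⊂ g • E)
    rw [← Set.smul_set_compl, ssub_smul, ssub_smul]

/-- the half spaces of the subdivision -/
def HH (𝓔 : Set (Set V)) : Set (Set (V ⊕ 𝓔)) := {A | ∃ E ∈ 𝓔, A = Sh 𝓔 E ∨ A = (Sh 𝓔 E)ᶜ}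

theorem HH_inv (hF : Fam (G := G) 𝓔) : letI := actP hF; ∀ (g : G), ∀ h ∈ HH 𝓔, g • h ∈ HH 𝓔 := by
  letI := actP hF
  rintro g h ⟨E, hE, rfl | rfl⟩
  · exact ⟨g • E, hF.inv g E hE, Or.inl (Sh_smul hF g E)⟩
  · refine ⟨g • E, hF.inv g E hE, Or.inr ?_⟩
    rw [Set.smul_set_compl, Sh_smul hF g E]

/-- points near a point or midpoint -/
theorem near (hF : Fam (G := G) 𝓔) (p : V ⊕ 𝓔) : ∃ S : Set V, S.Finite ∧
    (∀ E ∈ 𝓔, p ∈ Sh 𝓔 E → ∃ z ∈ S, z ∈ E) ∧ (∀ E ∈ 𝓔, p ∉ Sh 𝓔 E → ∃ z ∈ S, z ∉ E) := by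
  rcases p with v | D
  · exact ⟨{v}, Set.finite_singleton v, fun E _ h => ⟨v, rfl, h⟩, fun E _ h => ⟨v, rfl, h⟩⟩
  · obtain ⟨u, hu⟩ := hF.ne D.1 D.2
    obtain ⟨w, hw⟩ := hF.ne _ (hF.compl D.1 D.2)
    refine ⟨{u, w}, by simp, ?_, ?_⟩
    · rintro E - (h | h)
      · exact ⟨u, by simp, h.1 hu⟩
      · exact ⟨w, by simp, h.1 hw⟩
    · intro E hE h
      rw [mem_inr] at h
      push Not at h
      obtain ⟨h1, h2⟩ := h
      rcases hF.nest D.1 D.2 E hE with h3 | h3 | h3 | h3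
      · have h4 : D.1 = E := by
          by_contra hne
          exact h1 (Set.ssubset_iff_subset_ne.2 ⟨h3, hne⟩)
        exact ⟨w, by simp, h4 ▸ hw⟩
      · exact ⟨w, by simp, fun h => hw (h3 h)⟩
      · refine ⟨u, by simp, fun h => ?_⟩
        have : u ∈ D.1 ∩ E := ⟨hu, h⟩
        rw [h3] at this
        exact this
      · have h5 : (D.1)ᶜ ⊆ E := fun x hx => by
          have : x ∈ D.1 ∪ E := h3 ▸ mem_univ x
          exact this.resolve_left hx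
        have h4 : (D.1)ᶜ = E := by
          by_contra hne
          exact h2 (Set.ssubset_iff_subset_ne.2 ⟨h5, hne⟩)
        exact ⟨u, by simp, fun h => by rw [← h4] at h; exact h hu⟩

theorem HH_sys (hF : Fam (G := G) 𝓔) : HSys (HH 𝓔) := by
  refine ⟨?_, ?_, ?_⟩
  · rintro h ⟨E, hE, rfl | rfl⟩
    · exact ⟨E, hE, Or.inr rfl⟩
    · exact ⟨E, hE, Or.inl (compl_compl _)⟩
  · rintro h ⟨E, hE, rfl | rfl⟩
    · obtain ⟨x, hx⟩ := hF.ne E hE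
      exact ⟨Sum.inl x, hx⟩
    · obtain ⟨x, hx⟩ := hF.ne _ (hF.compl E hE)
      exact ⟨Sum.inl x, hx⟩
  · intro a b
    obtain ⟨S, hS, hS1, hS2⟩ := near hF a
    obtain ⟨T, hT, hT1, hT2⟩ := near hF b
    have h1 : (⋃ z ∈ S, ⋃ w ∈ T, (Sh 𝓔 '' {E | E ∈ 𝓔 ∧ z ∈ E ∧ w ∉ E}) ∪
        ((fun E => (Sh 𝓔 E)ᶜ) '' {E | E ∈ 𝓔 ∧ w ∈ E ∧ z ∉ E})).Finite :=
      hS.biUnion fun z _ => hT.biUnion fun w _ => ((hF.fin z w).image _).union
        ((hF.fin w z).image _)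
    refine h1.subset ?_
    rintro h ⟨⟨E, hE, rfl | rfl⟩, h2, h3⟩
    · obtain ⟨z, hz, hz'⟩ := hS1 E hE h2
      obtain ⟨w, hw, hw'⟩ := hT2 E hE h3
      exact Set.mem_biUnion hz (Set.mem_biUnion hw (Or.inl ⟨E, ⟨hE, hz', hw'⟩, rfl⟩))
    · obtain ⟨z, hz, hz'⟩ := hS2 E hE h2
      obtain ⟨w, hw, hw'⟩ := hT1 E hE (not_not.1 h3)
      exact Set.mem_biUnion hz (Set.mem_biUnion hw (Or.inr ⟨E, ⟨hE, hw', hz'⟩, rfl⟩))

/-- if `Eᶜ ⊂ F` then the two lifts cover everything -/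
theorem cover (hF : Fam (G := G) 𝓔) {E F : Set V} (hE : E ∈ 𝓔) (h : Eᶜ ⊂ F) :
    (Sh 𝓔 E)ᶜ ⊆ Sh 𝓔 F := by
  rintro (v | D) hv
  · exact h.1 hv
  · rw [mem_compl_iff, mem_inr] at hv
    push Not at hv
    obtain ⟨h1, h2⟩ := hv
    rw [mem_inr]
    rcases hF.nest D.1 D.2 E hE with h3 | h3 | h3 | h3
    · have h4 : D.1 = E := by
        by_contra hne
        exact h1 (Set.ssubset_iff_subset_ne.2 ⟨h3, hne⟩)
      right; rw [h4]; exact h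
    · right
      exact (Set.compl_subset_compl.2 h3).trans_ssubset h
    · left
      have h5 : D.1 ⊆ Eᶜ := by
        intro x hx hx'
        have : x ∈ D.1 ∩ E := ⟨hx, hx'⟩
        rw [h3] at this
        exact this
      exact h5.trans_ssubset h
    · have h5 : (D.1)ᶜ ⊆ E := fun x hx => by
        have : x ∈ D.1 ∪ E := h3 ▸ mem_univ x
        exact this.resolve_left hx
      have h4 : (D.1)ᶜ = E := by
        by_contra hne
        exact h2 (Set.ssubset_iff_subset_ne.2 ⟨h5, hne⟩)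
      left
      have h6 : D.1 = Eᶜ := by rw [← h4, compl_compl]
      rw [h6]
      exact h

theorem disj (hF : Fam (G := G) 𝓔) {E F : Set V} (h : E ∩ F = ∅) : Sh 𝓔 E ∩ Sh 𝓔 F = ∅ := by
  ext p
  simp only [mem_inter_iff, mem_empty_iff_false, iff_false]
  rintro ⟨h1, h2⟩
  have hd : ∀ x, x ∈ E → x ∈ F → False := fun x h3 h4 => by
    have : x ∈ E ∩ F := ⟨h3, h4⟩
    rw [h] at this
    exact this
  rcases p with v | D
  · exact hd v h1 h2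
  · obtain ⟨u, hu⟩ := hF.ne D.1 D.2
    obtain ⟨w, hw⟩ := hF.ne _ (hF.compl D.1 D.2)
    rcases h1 with h1 | h1 <;> rcases h2 with h2 | h2
    · exact hd u (h1.1 hu) (h2.1 hu)
    · obtain ⟨z, hz1, hz2⟩ := Set.exists_of_ssubset h1
      exact hd z hz1 (h2.1 hz2)
    · obtain ⟨z, hz1, hz2⟩ := Set.exists_of_ssubset h2
      exact hd z (h1.1 hz2) hz1
    · exact hd w (h1.1 hw) (h2.1 hw)

theorem Sh_mono {E F : Set V} (h : E ⊆ F) : Sh 𝓔 E ⊆ Sh 𝓔 F := by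
  rintro (v | D) hv
  · exact h hv
  · rcases hv with hv | hv
    · exact Or.inl (hv.trans_subset h)
    · exact Or.inr (hv.trans_subset h)

theorem HH_nest (hF : Fam (G := G) 𝓔) : ∀ A ∈ HH 𝓔, ∀ B ∈ HH 𝓔, Nested A B := by
  have main : ∀ E ∈ 𝓔, ∀ F ∈ 𝓔, Nested (Sh 𝓔 E) (Sh 𝓔 F) := by
    intro E hE F hFF
    rcases hF.nest E hE F hFF with h | h | h | h
    · exact Or.inl (Sh_mono h)
    · exact Or.inr (Or.inl (Sh_mono h))
    · exact Or.inr (Or.inr (Or.inl (disj hF h)))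
    · have h5 : Eᶜ ⊆ F := fun x hx => by
        have : x ∈ E ∪ F := h ▸ mem_univ x
        exact this.resolve_left hx
      by_cases h6 : Eᶜ = F
      · refine Or.inr (Or.inr (Or.inl (disj hF ?_)))
        rw [← h6, Set.inter_compl_self]
      · refine Or.inr (Or.inr (Or.inr ?_))
        have h7 := cover hF hE (Set.ssubset_iff_subset_ne.2 ⟨h5, h6⟩)
        ext x
        simp only [mem_union, mem_univ, iff_true]
        by_cases hx : x ∈ Sh 𝓔 E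
        · exact Or.inl hx
        · exact Or.inr (h7 hx)
  rintro A ⟨E, hE, rfl | rfl⟩ B ⟨F, hFF, rfl | rfl⟩
  · exact main E hE F hFF
  · exact (main E hE F hFF).compl_right
  · exact (main E hE F hFF).compl_left
  · exact (main E hE F hFF).compl_right.compl_left

theorem Sh_ne (hF : Fam (G := G) 𝓔) {E F : Set V} (hE : E ∈ 𝓔) : Sh 𝓔 F ≠ (Sh 𝓔 E)ᶜ := by
  intro h
  have h1 : F = Eᶜ := by
    ext x
    have : (Sum.inl x : V ⊕ 𝓔) ∈ Sh 𝓔 F ↔ (Sum.inl x : V ⊕ 𝓔) ∈ (Sh 𝓔 E)ᶜ := by rw [h]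
    exact this
  have h2 : (Sum.inr ⟨E, hE⟩ : V ⊕ 𝓔) ∈ (Sh 𝓔 E)ᶜ := by
    rw [mem_compl_iff, mem_inr]
    rintro (h3 | h3)
    · exact h3.2 le_rfl
    · obtain ⟨x, hx⟩ := hF.ne _ (hF.compl E hE)
      exact hx (h3.1 hx)
  rw [← h, h1, mem_inr] at h2
  rcases h2 with h3 | h3
  · obtain ⟨x, hx⟩ := hF.ne E hE
    exact h3.1 hx hx
  · exact h3.2 le_rfl

variable {o : V ⊕ 𝓔}

/-- the midpoints -/
def mid (σ : Vt (HH 𝓔) o) : Prop := ∃ E ∈ 𝓔, (Sh 𝓔 E)ᶜ ∈ σ.1 ∧ (Sh 𝓔 Eᶜ)ᶜ ∈ σ.1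

theorem mid_other (hF : Fam (G := G) 𝓔) {σ : Vt (HH 𝓔) o} {E F : Set V} (hE : E ∈ 𝓔)
    (hFF : F ∈ 𝓔) (h1 : (Sh 𝓔 E)ᶜ ∈ σ.1) (h2 : (Sh 𝓔 Eᶜ)ᶜ ∈ σ.1) (n1 : F ≠ E) (n2 : F ≠ Eᶜ) :
    Sh 𝓔 F ∈ σ.1 ∨ Sh 𝓔 Fᶜ ∈ σ.1 := by
  have mF : Sh 𝓔 F ∈ HH 𝓔 := ⟨F, hFF, Or.inl rfl⟩
  have mF' : Sh 𝓔 Fᶜ ∈ HH 𝓔 := ⟨Fᶜ, hF.compl F hFF, Or.inl rfl⟩
  have hEc := hF.compl E hE
  rcases hF.nest E hE F hFF with h | h | h | h
  · left
    refine σ.2.up _ h2 _ mF (cover hF hEc ?_)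
    rw [compl_compl]
    exact Set.ssubset_iff_subset_ne.2 ⟨h, n1.symm⟩
  · right
    refine σ.2.up _ h1 _ mF' (cover hF hE ?_)
    exact Set.ssubset_iff_subset_ne.2 ⟨Set.compl_subset_compl.2 h, fun e => n1
      (compl_injective e).symm⟩
  · right
    refine σ.2.up _ h2 _ mF' (cover hF hEc ?_)
    rw [compl_compl]
    refine Set.ssubset_iff_subset_ne.2 ⟨fun x hx hx' => ?_, fun e => n2 (by rw [e, compl_compl])⟩
    have : x ∈ E ∩ F := ⟨hx, hx'⟩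
    rw [h] at this
    exact this
  · left
    refine σ.2.up _ h1 _ mF (cover hF hE ?_)
    refine Set.ssubset_iff_subset_ne.2 ⟨fun x hx => ?_, fun e => n2 e.symm⟩
    have : x ∈ E ∪ F := h ▸ mem_univ x
    exact this.resolve_left hx

theorem mid_adj (hF : Fam (G := G) 𝓔) (x y : Vt (HH 𝓔) o) (h : (ZG (HH_sys hF) o).Adj x y) :
    (mid x ↔ ¬ mid y) := by
  have S := HH_sys hF
  have key : ∀ x y : Vt (HH 𝓔) o, ∀ E ∈ 𝓔, y.1 \ x.1 = {Sh 𝓔 E} → x.1 \ y.1 = {(Sh 𝓔 E)ᶜ} →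
      mid x ∧ ¬ mid y := by
    intro x y E hE h1 h2
    have hy : Sh 𝓔 E ∈ y.1 \ x.1 := by rw [h1]; rfl
    have hx : (Sh 𝓔 E)ᶜ ∈ x.1 \ y.1 := by rw [h2]; rfl
    have mE' : (Sh 𝓔 Eᶜ)ᶜ ∈ HH 𝓔 := ⟨Eᶜ, hF.compl E hE, Or.inr rfl⟩
    have hsub : Sh 𝓔 E ⊆ (Sh 𝓔 Eᶜ)ᶜ := by
      intro p hp hp'
      have : p ∈ Sh 𝓔 E ∩ Sh 𝓔 Eᶜ := ⟨hp, hp'⟩
      rw [disj hF (Set.inter_compl_self E)] at this
      exact this
    have hy2 : (Sh 𝓔 Eᶜ)ᶜ ∈ y.1 := y.2.up _ hy.1 _ mE' hsub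
    have hx2 : (Sh 𝓔 Eᶜ)ᶜ ∈ x.1 := by
      by_contra hc
      have h3 : (Sh 𝓔 Eᶜ)ᶜ ∈ y.1 \ x.1 := ⟨hy2, hc⟩
      rw [h1, Set.mem_singleton_iff] at h3
      exact Sh_ne hF (hF.compl E hE) h3.symm
    refine ⟨⟨E, hE, hx.1, hx2⟩, ?_⟩
    rintro ⟨F, hFF, h3, h4⟩
    have n1 : F ≠ E := by
      rintro rfl
      exact not_of_mem hy.1 h3
    have n2 : F ≠ Eᶜ := by
      rintro rfl
      rw [compl_compl] at h4
      exact not_of_mem hy.1 h4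
    rcases mid_other hF hE hFF hx.1 hx2 n1 n2 with h5 | h5
    · have h6 : Sh 𝓔 F ∈ x.1 \ y.1 := ⟨h5, fun h' => not_of_mem h' h3⟩
      rw [h2, Set.mem_singleton_iff] at h6
      exact Sh_ne hF hE h6
    · have h6 : Sh 𝓔 Fᶜ ∈ x.1 \ y.1 := ⟨h5, fun h' => not_of_mem h' h4⟩
      rw [h2, Set.mem_singleton_iff] at h6
      exact Sh_ne hF hE h6
  obtain ⟨k, ⟨E, hE, hk⟩, h1, h2⟩ := adj_lab' S h
  rcases hk with rfl | rfl
  · have := key x y E hE h1 h2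
    tauto
  · rw [compl_compl] at h2
    have := key y x E hE h2 h1
    tauto

theorem mid_smul (hF : Fam (G := G) 𝓔) (g : G) (σ : Vt (HH 𝓔) o) :
    letI := actP hF; letI := actV (o := o) (HH_sys hF) (HH_inv hF); mid (g • σ) ↔ mid σ := by
  letI := actP hF
  letI := actV (o := o) (HH_sys hF) (HH_inv hF)
  have h1 : ∀ (g : G) (σ : Vt (HH 𝓔) o), mid σ → mid (g • σ) := by
    rintro g σ ⟨E, hE, h2, h3⟩
    refine ⟨g • E, hF.inv g E hE, ?_, ?_⟩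
    · rw [mem_smulV, Set.smul_set_compl, Sh_smul hF, inv_smul_smul]
      exact h2
    · rw [mem_smulV, Set.smul_set_compl, Sh_smul hF, Set.smul_set_compl, inv_smul_smul]
      exact h3
  refine ⟨fun h => ?_, h1 g σ⟩
  have := h1 g⁻¹ _ h
  rwa [inv_smul_smul] at this

end sub

end Pool.Agent.K3h36.LR
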