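import Pool.Agent.K3h36.LR.A8

/-!
# The special action on the subdivided tree and its convex cocompact subsets
-/

set_option autoImplicit false
set_option linter.unusedSectionVars false
set_option linter.style.haveILetI false

namespace Pool.Agent.K3h36.LR

open scoped Pointwise
open Set
open Pool.Agent.TH97.VR (HSys Vt IsVert DD ZG pt DD_zero DD_symm DD_tri diff_finite diff_compl
  mem_of_not not_of_mem btw_iff ZG_median ZG_dist mem_pt compl_ne)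
open Pool.Agent.H97R3.VR (IsMedian Btw Square IsConvex Par Step IsSpecialAction Dat)

section special

variable {G V : Type} [Group G] [MulAction G V] {X : SimpleGraph V} {N : Subgroup G}

theorem par_nosq (hsq : ∀ x y w z, ¬ Square X x y w z) {e f : V × V} (h : Par X N e f) :
    ∃ n ∈ N, f = (n • e.1, n • e.2) ∨ f = (n • e.2, n • e.1) := by
  induction h with
  | rel e f h =>
    cases h with
    | flip x y => exact ⟨1, N.one_mem, Or.inr (by simp)⟩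
    | sq x y w z h => exact absurd h (hsq _ _ _ _)
    | act n hn x y => exact ⟨n, hn, Or.inl rfl⟩
  | refl e => exact ⟨1, N.one_mem, Or.inl (by simp)⟩
  | symm e f _ ih =>
    obtain ⟨n, hn, h | h⟩ := ih
    · exact ⟨n⁻¹, N.inv_mem hn, Or.inl (by rw [h]; simp)⟩
    · exact ⟨n⁻¹, N.inv_mem hn, Or.inr (by rw [h]; simp)⟩
  | trans e f g _ _ ih1 ih2 =>
    obtain ⟨n, hn, h1⟩ := ih1
    obtain ⟨k, hk, h2⟩ := ih2
    refine ⟨k * n, N.mul_mem hk hn, ?_⟩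
    rcases h1 with h1 | h1 <;> rcases h2 with h2 | h2
    · left; rw [h2, h1, mul_smul, mul_smul]
    · right; rw [h2, h1, mul_smul, mul_smul]
    · right; rw [h2, h1, mul_smul, mul_smul]
    · left; rw [h2, h1, mul_smul, mul_smul]

theorem special_of (hsq : ∀ x y w z, ¬ Square X x y w z)
    (τ : V → Prop) (hτ : ∀ x y, X.Adj x y → (τ x ↔ ¬ τ y)) (hτN : ∀ n ∈ N, ∀ x, τ (n • x) ↔ τ x)
    (hfree : ∀ n ∈ N, ∀ x : V, n • x = x → n = 1) : IsSpecialAction X N := by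
  refine ⟨hfree, ?_, ?_⟩
  · intro x y z hy hz h
    obtain ⟨n, hn, h1 | h1⟩ := par_nosq hsq h
    · have h2 : x = n • x := congrArg Prod.fst h1
      have h3 : z = n • y := congrArg Prod.snd h1
      have h4 : n = 1 := hfree n hn x h2.symm
      rw [h3, h4, one_smul]
    · exfalso
      have h2 : x = n • y := congrArg Prod.fst h1
      have h3 : z = n • x := congrArg Prod.snd h1
      have h4 := hτN n hn x
      rw [← h3] at h4
      have h5 := hτ x z hz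
      tauto
  · rintro x y z _ _ ⟨p, q, r, o, hs, -, -⟩
    exact absurd hs (hsq _ _ _ _)

end special

section hull

variable {G P : Type} [Group G] [MulAction G P] {𝓗 : Set (Set P)} {o : P}

theorem lab_inj' {x y z : Vt 𝓗 o} (S : HSys 𝓗) (h : y.1 \ x.1 = z.1 \ x.1) : y = z := by
  rw [← DD_zero S]
  unfold DD
  rw [Set.ncard_eq_zero (diff_finite S _ _), Set.sdiff_eq_empty]
  intro k hk
  by_contra hkz
  by_cases hkx : k ∈ x.1
  · have h1 : kᶜ ∈ z.1 := mem_of_not (y.2.sub hk) hkz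
    have h2 : kᶜ ∈ z.1 \ x.1 := ⟨h1, not_of_mem hkx⟩
    rw [← h] at h2
    exact not_of_mem hk h2.1
  · have h2 : k ∈ y.1 \ x.1 := ⟨hk, hkx⟩
    rw [h] at h2
    exact hkz h2.1

theorem interval_finite (S : HSys 𝓗) (a b : Vt 𝓗 o) : {m : Vt 𝓗 o | a.1 ∩ b.1 ⊆ m.1}.Finite := by
  refine Set.Finite.of_finite_image (f := fun m : Vt 𝓗 o => m.1 \ b.1) ?_ ?_
  · refine (diff_finite S a b).finite_subsets.subset ?_
    rintro _ ⟨m, hm, rfl⟩
    rintro h ⟨h1, h2⟩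
    refine ⟨?_, h2⟩
    by_contra h3
    have hh := m.2.sub h1
    exact not_of_mem h1 (hm ⟨mem_of_not hh h3, mem_of_not hh h2⟩)
  · intro x _ y _ h
    exact lab_inj' S h

variable (S : HSys 𝓗) (hinv : ∀ (g : G), ∀ h ∈ 𝓗, g • h ∈ 𝓗)

/-- the convex hull of the orbit of `c` -/
def hullC (H : Subgroup G) (c : Vt 𝓗 o) : Set (Vt 𝓗 o) :=
  letI := actV (o := o) S hinv
  {σ | ∀ A ∈ 𝓗, (∀ h ∈ H, A ∈ (h • c).1) → A ∈ σ.1}

theorem hullC_convex (H : Subgroup G) (c : Vt 𝓗 o) : IsConvex (ZG S o) (hullC S hinv H c) := by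
  intro u hu v hv m hm A hA h
  rw [btw_iff S] at hm
  exact hm ⟨hu A hA h, hv A hA h⟩

theorem hullC_smul (H : Subgroup G) (c : Vt 𝓗 o) {h : G} (hh : h ∈ H) {σ : Vt 𝓗 o}
    (hσ : σ ∈ hullC S hinv H c) : letI := actV (o := o) S hinv; h • σ ∈ hullC S hinv H c := by
  letI := actV (o := o) S hinv
  intro A hA h1
  show A ∈ (h • σ).1
  rw [mem_smulV]
  refine hσ _ (hinv _ _ hA) fun k hk => ?_
  have h2 := h1 (h * k) (H.mul_mem hh hk)
  rw [mem_smulV] at h2 ⊢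
  rw [← mul_smul, ← mul_inv_rev]
  exact h2

theorem mem_hullC (H : Subgroup G) (c : Vt 𝓗 o) : c ∈ hullC S hinv H c := by
  letI := actV (o := o) S hinv
  intro A _ h
  have := h 1 H.one_mem
  rwa [one_smul] at this

theorem hullC_cocompact (hnest : ∀ E ∈ 𝓗, ∀ F ∈ 𝓗, Nested E F) {H : Subgroup G} (hfg : H.FG)
    (c : Vt 𝓗 o) : letI := actV (o := o) S hinv
    ∃ T : Set (Vt 𝓗 o), T.Finite ∧ ∀ σ ∈ hullC S hinv H c, ∃ h ∈ H, h • σ ∈ T := by
  letI := actV (o := o) S hinv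
  obtain ⟨SH, hSH⟩ := hfg
  refine ⟨⋃ s ∈ (insert 1 (SH : Set G)), {m : Vt 𝓗 o | c.1 ∩ (s • c).1 ⊆ m.1}, ?_, ?_⟩
  · exact (SH.finite_toSet.insert 1).biUnion fun s _ => interval_finite S _ _
  intro σ hσ
  by_contra hno
  push Not at hno
  -- the relation
  have hR : ∀ h ∈ H, ∀ s ∈ (insert 1 (SH : Set G)), ∃ A ∈ 𝓗, A ∈ (h • c).1 ∧
      A ∈ ((h * s) • c).1 ∧ A ∉ σ.1 := by
    intro h hh s hs
    have h1 := hno h⁻¹ (H.inv_mem hh)
    have h2 : ¬ c.1 ∩ (s • c).1 ⊆ (h⁻¹ • σ).1 := fun h3 => h1 (Set.mem_biUnion hs h3)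
    obtain ⟨B, ⟨hB1, hB2⟩, hB3⟩ := Set.not_subset.1 h2
    refine ⟨h • B, hinv _ _ (c.2.sub hB1), ?_, ?_, ?_⟩
    · rw [mem_smulV, inv_smul_smul]
      exact hB1
    · rw [mul_smul, mem_smulV, inv_smul_smul]
      exact hB2
    · intro h4
      apply hB3
      rw [mem_smulV, inv_inv]
      exact h4
  have htrans : ∀ a b d : Vt 𝓗 o, (∃ A ∈ 𝓗, A ∈ a.1 ∧ A ∈ b.1 ∧ A ∉ σ.1) →
      (∃ A ∈ 𝓗, A ∈ b.1 ∧ A ∈ d.1 ∧ A ∉ σ.1) → ∃ A ∈ 𝓗, A ∈ a.1 ∧ A ∈ d.1 ∧ A ∉ σ.1 := by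
    rintro a b d ⟨A, hA, h1, h2, h3⟩ ⟨B, hB, h4, h5, h6⟩
    rcases hnest A hA B hB with h | h | h | h
    · exact ⟨B, hB, a.2.up A h1 B hB h, h5, h6⟩
    · exact ⟨A, hA, h1, d.2.up B h5 A hA h, h3⟩
    · exfalso
      have h7 : A ⊆ Bᶜ := fun x hx hx' => by
        have : x ∈ A ∩ B := ⟨hx, hx'⟩
        rw [h] at this
        exact this
      exact not_of_mem h4 (b.2.up A h2 Bᶜ (S.compl B hB) h7)
    · exfalso
      have h7 : Aᶜ ⊆ B := fun x hx => by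
        have : x ∈ A ∪ B := h ▸ mem_univ x
        exact this.resolve_left hx
      exact h6 (σ.2.up Aᶜ (mem_of_not hA h3) B hB h7)
  have hall : ∀ h ∈ H, ∀ k ∈ H, ∃ A ∈ 𝓗, A ∈ (k • c).1 ∧ A ∈ ((k * h) • c).1 ∧ A ∉ σ.1 := by
    intro h hh
    rw [← hSH] at hh
    induction hh using Subgroup.closure_induction with
    | mem s hs => exact fun k hk => hR k hk s (Or.inr hs)
    | one => exact fun k hk => hR k hk 1 (Or.inl rfl)
    | mul a b ha _ h1 h2 =>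
      intro k hk
      have h3 := h2 (k * a) (H.mul_mem hk (by rw [← hSH]; exact ha))
      rw [mul_assoc] at h3
      exact htrans _ _ _ (h1 k hk) h3
    | inv a ha h1 =>
      intro k hk
      obtain ⟨A, h2, h3, h4, h5⟩ := h1 (k * a⁻¹) (H.mul_mem hk (H.inv_mem (by rw [← hSH]; exact ha)))
      rw [inv_mul_cancel_right] at h4
      exact ⟨A, h2, h4, h3, h5⟩
  have hfin : {A | A ∈ c.1 \ σ.1}.Finite := diff_finite S c σ
  have hne : {A | A ∈ c.1 \ σ.1}.Nonempty := by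
    obtain ⟨A, -, h2, -, h4⟩ := hall 1 H.one_mem 1 H.one_mem
    rw [one_smul] at h2
    exact ⟨A, h2, h4⟩
  obtain ⟨M, hM1, hM2⟩ := Pool.Agent.TH97.VR.exists_max hfin hne
  have hM𝓗 : M ∈ 𝓗 := c.2.sub hM1.1
  refine hM1.2 (hσ M hM𝓗 fun h hh => ?_)
  obtain ⟨A, hA, h2, h3, h4⟩ := hall h hh 1 H.one_mem
  rw [one_smul] at h2
  rw [one_mul] at h3
  rcases hnest A hA M hM𝓗 with h5 | h5 | h5 | h5
  · exact (h • c).2.up A h3 M hM𝓗 h5
  · have := hM2 A ⟨h2, h4⟩ h5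
    rw [← this]
    exact h3
  · exfalso
    have h7 : A ⊆ Mᶜ := fun x hx hx' => by
      have : x ∈ A ∩ M := ⟨hx, hx'⟩
      rw [h5] at this
      exact this
    exact not_of_mem hM1.1 (c.2.up A h2 Mᶜ (S.compl M hM𝓗) h7)
  · exfalso
    have h7 : Aᶜ ⊆ M := fun x hx => by
      have : x ∈ A ∪ M := h5 ▸ mem_univ x
      exact this.resolve_left hx
    exact hM1.2 (σ.2.up Aᶜ (mem_of_not hA h4) M hM𝓗 h7)

end hull

section final

variable {G V : Type} [Group G] [MulAction G V] {𝓔 : Set (Set V)}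

/-- the special action -/
theorem exists_dat (hF : Fam (G := G) 𝓔) (v0 : V) {N : Subgroup G}
    (hN : ∀ g ∈ N, g ≠ 1 → ∃ E ∈ 𝓔, ∃ v : V, ∃ k0 : ℕ, ∀ k, k0 ≤ k →
      g ^ k • v ∈ E ∧ g⁻¹ ^ k • v ∉ E) {H : Subgroup G} (hfg : H.FG) :
    ∃ (W : Type) (_ : MulAction G W) (X : SimpleGraph W) (C : Set W) (c0 : W) (T : Set W),
      Dat X N H C ∧ c0 ∈ C ∧ T.Finite ∧ (∀ x ∈ C, ∃ h ∈ H, h • x ∈ T) ∧
      ∀ A : Subgroup G, Finite A → ∃ v : W, ∀ a ∈ A, a • v = v := by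
  letI := actP hF
  have S := HH_sys hF
  have hinv := HH_inv hF
  have hnest := HH_nest hF
  set o : V ⊕ 𝓔 := Sum.inl v0 with ho
  letI := actV (o := o) S hinv
  have hsq := fun x y w z => nosq S hnest (o := o) x y w z
  have hτ : ∀ x y : Vt (HH 𝓔) o, (ZG S o).Adj x y → (mid x ↔ ¬ mid y) := fun x y h =>
    mid_adj hF x y h
  have hτA : ∀ (g : G) (x : Vt (HH 𝓔) o), mid (g • x) ↔ mid x := fun g x => mid_smul hF g x
  have hfree : ∀ n ∈ N, ∀ x : Vt (HH 𝓔) o, n • x = x → n = 1 := by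
    intro n hn x hx
    by_contra hne
    obtain ⟨E, hE, v, k0, hk⟩ := hN n hn hne
    have hgp : ∀ (g : G) (u : V), g • (Sum.inl u : V ⊕ 𝓔) = Sum.inl (g • u) := fun _ _ => rfl
    refine fixfree (o := o) S hinv (g := n) (E := Sh 𝓔 E) ⟨E, hE, Or.inl rfl⟩
      (v := (Sum.inl v : V ⊕ 𝓔)) (k0 := k0) (fun k hk' => ⟨?_, ?_⟩) x hx
    · rw [hgp]
      exact (hk k hk').1
    · rw [hgp]
      exact (hk k hk').2
  have hsp : IsSpecialAction (ZG S o) N := special_of hsq mid hτ (fun n _ x => hτA n x) hfree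
  set c0 : Vt (HH 𝓔) o := pt S o o with hc0
  obtain ⟨T, hT1, hT2⟩ := hullC_cocompact S hinv hnest hfg c0
  refine ⟨Vt (HH 𝓔) o, inferInstance, ZG S o, hullC S hinv H c0, c0, T,
    ⟨ZG_median S o, fun g x y h => adj_smulV S hinv g x y h, hsp, hullC_convex S hinv H c0,
      fun h hh x hx => hullC_smul S hinv H c0 hh hx⟩, mem_hullC S hinv H c0, hT1, hT2, ?_⟩
  intro A hA
  obtain ⟨v, hv⟩ := fixed_vertex (A := A) (ZG_median S o) hsq
    (fun a x y h => adj_smulV S hinv (a : G) x y h) mid hτ (fun a x => hτA (a : G) x)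
  exact ⟨v, fun a ha => hv ⟨a, ha⟩⟩

end final

end Pool.Agent.K3h36.LR
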